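import Pool.Agent.H508R3.AT.Stmts

/-!
Task T1 of the project 508-AT: the spectral transform of a cyclic vector.
-/

set_option autoImplicit false

namespace Pool.Agent.H337R3.AT1

open MeasureTheory Filter Topology Set
open Pool.Agent.H508R3.AT
open scoped BoundedContinuousFunction ENNReal InnerProductSpace

section sa

variable {X : Type} [NormedAddCommGroup X] [InnerProductSpace ℂ X] [CompleteSpace X]

/-- complex functions of `H` -/
noncomputable def cc (H : X →L[ℂ] X) (f : ℝ → ℂ) : X →L[ℂ] X := cfc (fun z : ℂ => f z.re) H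

lemma cont_re {f : ℝ → ℂ} (hf : Continuous f) (s : Set ℂ) :
    ContinuousOn (fun z : ℂ => f z.re) s :=
  (hf.comp Complex.continuous_re).continuousOn

lemma cc_add (H : X →L[ℂ] X) {f g : ℝ → ℂ} (hf : Continuous f) (hg : Continuous g) :
    cc H (fun x => f x + g x) = cc H f + cc H g :=
  cfc_add (a := H) (fun z : ℂ => f z.re) (fun z : ℂ => g z.re) (cont_re hf _) (cont_re hg _)

lemma cc_smul (H : X →L[ℂ] X) (c : ℂ) {f : ℝ → ℂ} (hf : Continuous f) :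
    cc H (fun x => c * f x) = c • cc H f :=
  cfc_const_mul c (fun z : ℂ => f z.re) H (cont_re hf _)

lemma cc_mul (H : X →L[ℂ] X) {f g : ℝ → ℂ} (hf : Continuous f) (hg : Continuous g) :
    cc H (fun x => f x * g x) = cc H f * cc H g :=
  cfc_mul (fun z : ℂ => f z.re) (fun z : ℂ => g z.re) H (cont_re hf _) (cont_re hg _)

lemma cc_star (H : X →L[ℂ] X) (f : ℝ → ℂ) :
    cc H (fun x => star (f x)) = star (cc H f) :=
  cfc_star (fun z : ℂ => f z.re) H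

lemma cc_real {H : X →L[ℂ] X} (hH : IsSelfAdjoint H) (g : ℝ → ℝ) :
    cc H (fun x => (g x : ℂ)) = cfc g H :=
  (cfc_real_eq_complex g hH).symm

lemma inner_cc {H : X →L[ℂ] X} (hH : IsSelfAdjoint H) {ψ : X} {ν : Measure ℝ}
    (hν : IsSpec H ψ ν) {f : ℝ → ℂ} (hf : Continuous f) :
    Integrable f ν ∧ inner ℂ ψ (cc H f ψ) = ∫ x, f x ∂ν := by
  have h1 : Continuous fun x => (f x).re := Complex.continuous_re.comp hf
  have h2 : Continuous fun x => (f x).im := Complex.continuous_im.comp hf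
  obtain ⟨i1, e1⟩ := hν.2 _ h1
  obtain ⟨i2, e2⟩ := hν.2 _ h2
  have hi : Integrable f ν := by
    have h3 : Integrable (fun x => ((f x).re : ℂ) + Complex.I * ((f x).im : ℂ)) ν :=
      i1.ofReal.add (i2.ofReal.const_mul Complex.I)
    refine h3.congr (Filter.Eventually.of_forall fun x => ?_)
    show ((f x).re : ℂ) + Complex.I * ((f x).im : ℂ) = f x
    rw [mul_comm]
    exact Complex.re_add_im _
  refine ⟨hi, ?_⟩
  have h4 : f = fun x => ((f x).re : ℂ) + Complex.I * ((f x).im : ℂ) := by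
    funext x
    rw [mul_comm]
    exact (Complex.re_add_im _).symm
  have h5 : cc H f = cfc (fun x => (f x).re) H + Complex.I • cfc (fun x => (f x).im) H := by
    rw [← cc_real hH, ← cc_real hH, ← cc_smul H Complex.I (by fun_prop),
      ← cc_add H (by fun_prop) (by fun_prop)]
    rw [← h4]
  rw [h5, add_apply, smul_apply, inner_add_right,
    inner_smul_right, ← e1, ← e2, ← integral_re_add_im hi, mul_comm Complex.I]
  rfl

lemma norm_cc {H : X →L[ℂ] X} (hH : IsSelfAdjoint H) {ψ : X} {ν : Measure ℝ}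
    (hν : IsSpec H ψ ν) {f : ℝ → ℂ} (hf : Continuous f) :
    inner ℂ (cc H f ψ) (cc H f ψ) = ∫ x, star (f x) * f x ∂ν := by
  have h1 : Continuous fun x => star (f x) * f x := by fun_prop
  rw [← (inner_cc hH hν h1).2, cc_mul H (by fun_prop) hf, cc_star]
  rw [ContinuousLinearMap.star_eq_adjoint]
  exact (ContinuousLinearMap.adjoint_inner_right _ _ _).symm

end sa

section main

variable {X : Type} [NormedAddCommGroup X] [InnerProductSpace ℂ X] [CompleteSpace X]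

/-- the functional calculus at `ψ` on bounded continuous functions -/
noncomputable def U0 (H : X →L[ℂ] X) (ψ : X) : (ℝ →ᵇ ℂ) →ₗ[ℂ] X where
  toFun f := cc H f ψ
  map_add' f g := by
    show cc H (fun x => f x + g x) ψ = _
    rw [cc_add H f.continuous g.continuous, add_apply]
  map_smul' c f := by
    show cc H (fun x => c * f x) ψ = _
    rw [cc_smul H c f.continuous, smul_apply]
    rfl

/-- bounded continuous functions as elements of `L²` -/
noncomputable def ee (ν : Measure ℝ) [IsFiniteMeasure ν] : (ℝ →ᵇ ℂ) →L[ℂ] Lp ℂ 2 ν :=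
  BoundedContinuousFunction.toLp 2 ν ℂ

lemma ee_ae (ν : Measure ℝ) [IsFiniteMeasure ν] (f : ℝ →ᵇ ℂ) : ee ν f =ᵐ[ν] f :=
  BoundedContinuousFunction.coeFn_toLp 2 ν ℂ f

lemma ee_dense (ν : Measure ℝ) [IsFiniteMeasure ν] : DenseRange (ee ν) :=
  BoundedContinuousFunction.toLp_denseRange ℂ ν ℂ (by norm_num)

lemma inner_ee (ν : Measure ℝ) [IsFiniteMeasure ν] (f : ℝ →ᵇ ℂ) (g : Lp ℂ 2 ν) :
    inner ℂ (ee ν f) g = ∫ x, star (f x) * g x ∂ν := by
  rw [L2.inner_def]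
  refine integral_congr_ae ?_
  filter_upwards [ee_ae ν f] with x hx
  rw [hx, RCLike.inner_apply, mul_comm]
  rfl

lemma norm_U0 {H : X →L[ℂ] X} (hH : IsSelfAdjoint H) {ψ : X} {ν : Measure ℝ}
    [IsFiniteMeasure ν] (hν : IsSpec H ψ ν) (f : ℝ →ᵇ ℂ) : ‖U0 H ψ f‖ = ‖ee ν f‖ := by
  have h1 : inner ℂ (U0 H ψ f) (U0 H ψ f) = inner ℂ (ee ν f) (ee ν f) := by
    rw [inner_ee]
    show inner ℂ (cc H f ψ) (cc H f ψ) = _
    rw [norm_cc hH hν f.continuous]
    refine integral_congr_ae ?_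
    filter_upwards [ee_ae ν f] with x hx
    rw [hx]
  rw [inner_self_eq_norm_sq_to_K, inner_self_eq_norm_sq_to_K] at h1
  have h2 : ‖U0 H ψ f‖ ^ 2 = ‖ee ν f‖ ^ 2 := by exact_mod_cast h1
  exact (sq_eq_sq₀ (norm_nonneg _) (norm_nonneg _)).1 h2

/-- the extension to `L²` -/
noncomputable def UU (H : X →L[ℂ] X) (ψ : X) (ν : Measure ℝ) [IsFiniteMeasure ν] :
    Lp ℂ 2 ν →L[ℂ] X :=
  (U0 H ψ).extendOfNorm (ee ν).toLinearMap

lemma UU_ee {H : X →L[ℂ] X} (hH : IsSelfAdjoint H) {ψ : X} {ν : Measure ℝ}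
    [IsFiniteMeasure ν] (hν : IsSpec H ψ ν) (f : ℝ →ᵇ ℂ) :
    UU H ψ ν (ee ν f) = cc H f ψ :=
  LinearMap.extendOfNorm_eq (f := U0 H ψ) (e := (ee ν).toLinearMap) (ee_dense ν)
    ⟨1, fun x => by rw [one_mul]; exact (norm_U0 hH hν x).le⟩ f

lemma UU_norm {H : X →L[ℂ] X} (hH : IsSelfAdjoint H) {ψ : X} {ν : Measure ℝ}
    [IsFiniteMeasure ν] (hν : IsSpec H ψ ν) : ‖UU H ψ ν‖ ≤ 1 :=
  LinearMap.opNorm_extendOfNorm_le (f := U0 H ψ) (e := (ee ν).toLinearMap) (ee_dense ν)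
    zero_le_one fun x => by rw [one_mul]; exact (norm_U0 hH hν x).le

/-- the adjoint -/
noncomputable def VV (H : X →L[ℂ] X) (ψ : X) (ν : Measure ℝ) [IsFiniteMeasure ν] :
    X →L[ℂ] Lp ℂ 2 ν :=
  ContinuousLinearMap.adjoint (UU H ψ ν)

lemma VV_norm {H : X →L[ℂ] X} (hH : IsSelfAdjoint H) {ψ : X} {ν : Measure ℝ}
    [IsFiniteMeasure ν] (hν : IsSpec H ψ ν) (χ : X) : ‖VV H ψ ν χ‖ ≤ ‖χ‖ := by
  refine (ContinuousLinearMap.le_opNorm _ _).trans ?_
  have h1 : ‖VV H ψ ν‖ ≤ 1 := by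
    unfold VV
    rw [LinearIsometryEquiv.norm_map]
    exact UU_norm hH hν
  nlinarith [norm_nonneg χ]

lemma inner_VV {H : X →L[ℂ] X} (hH : IsSelfAdjoint H) {ψ : X} {ν : Measure ℝ}
    [IsFiniteMeasure ν] (hν : IsSpec H ψ ν) (χ : X) (f : ℝ →ᵇ ℂ) :
    ∫ x, star (f x) * VV H ψ ν χ x ∂ν = inner ℂ (cc H f ψ) χ := by
  rw [← inner_ee, VV, ContinuousLinearMap.adjoint_inner_right, UU_ee hH hν]

lemma ae_eq_of {ν : Measure ℝ} [IsFiniteMeasure ν] (g h : Lp ℂ 2 ν)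
    (H : ∀ f : ℝ →ᵇ ℂ, ∫ x, star (f x) * g x ∂ν = ∫ x, star (f x) * h x ∂ν) : g = h := by
  have h1 : ∀ f : ℝ →ᵇ ℂ, inner ℂ (ee ν f) (g - h) = 0 := by
    intro f
    rw [inner_sub_right, inner_ee, inner_ee, H, sub_self]
  have h2 : ∀ y : Lp ℂ 2 ν, inner ℂ y (g - h) = 0 := by
    intro y
    refine (ee_dense ν).induction_on y ?_ h1
    exact isClosed_eq (continuous_id.inner continuous_const) continuous_const
  have h3 := h2 (g - h)
  rw [inner_self_eq_zero] at h3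
  exact sub_eq_zero.1 h3

/-- the truncated identity -/
noncomputable def tr (R : ℝ) : ℝ →ᵇ ℂ :=
  BoundedContinuousFunction.ofNormedAddCommGroup (fun x : ℝ => ((max (-R) (min R x) : ℝ) : ℂ))
    (by fun_prop) |R| (by
      intro x
      rw [Complex.norm_real, Real.norm_eq_abs, abs_le]
      constructor
      · rcases le_total (-R) (min R x) with h | h
        · rw [max_eq_right h]; exact (neg_le_neg (le_abs_self R)).trans h
        · rw [max_eq_left h]; exact neg_le_neg (le_abs_self R)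
      · refine max_le (neg_le_abs R) ((min_le_left _ _).trans (le_abs_self R)))

lemma tr_apply (R x : ℝ) : tr R x = ((max (-R) (min R x) : ℝ) : ℂ) := rfl

lemma spec_abs {H : X →L[ℂ] X} {x : ℝ} (hx : x ∈ spectrum ℝ H) : |x| ≤ ‖H‖ := by
  have h := spectrum.norm_le_norm_mul_of_mem hx
  have h1 : ‖(1 : X →L[ℂ] X)‖ ≤ 1 := ContinuousLinearMap.norm_id_le
  calc |x| = ‖x‖ := rfl
    _ ≤ ‖H‖ * ‖(1 : X →L[ℂ] X)‖ := h
    _ ≤ ‖H‖ * 1 := by gcongr
    _ = ‖H‖ := mul_one _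

lemma clamp_eq {R x : ℝ} (hx : |x| ≤ R) : max (-R) (min R x) = x := by
  rw [min_eq_right (abs_le.1 hx).2, max_eq_right (abs_le.1 hx).1]

lemma cc_tr {H : X →L[ℂ] X} (hH : IsSelfAdjoint H) : cc H (tr ‖H‖) = H := by
  have h1 : cc H (tr ‖H‖) = cfc (fun x : ℝ => max (-‖H‖) (min ‖H‖ x)) H := cc_real hH _
  rw [h1]
  have h2 : cfc (fun x : ℝ => max (-‖H‖) (min ‖H‖ x)) H = cfc (fun x : ℝ => x) H :=
    cfc_congr fun x hx => clamp_eq (spec_abs hx)
  rw [h2, cfc_id' ℝ H]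

lemma out {H : X →L[ℂ] X} {ψ : X} {ν : Measure ℝ} (hν : IsSpec H ψ ν) :
    ∀ᵐ x ∂ν, |x| ≤ ‖H‖ := by
  have hc : Continuous fun x : ℝ => max 0 (|x| - ‖H‖) := by fun_prop
  obtain ⟨h1, h2⟩ := hν.2 _ hc
  have h3 : cfc (fun x : ℝ => max 0 (|x| - ‖H‖)) H = 0 := by
    have : cfc (fun x : ℝ => max 0 (|x| - ‖H‖)) H = cfc (fun _ : ℝ => (0 : ℝ)) H :=
      cfc_congr fun x hx => max_eq_left (by linarith [spec_abs hx])
    rw [this]
    exact cfc_const_zero ℝ H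
  rw [h3, zero_apply, inner_zero_right] at h2
  have h4 : ∫ x, max 0 (|x| - ‖H‖) ∂ν = 0 := by exact_mod_cast h2
  have h7 : (fun x : ℝ => max 0 (|x| - ‖H‖)) =ᵐ[ν] 0 :=
    (integral_eq_zero_iff_of_nonneg (f := fun x : ℝ => max 0 (|x| - ‖H‖))
      (fun x => le_max_left _ _) h1).1 h4
  filter_upwards [h7] with x hx
  have h5 : max 0 (|x| - ‖H‖) = 0 := hx
  have h6 := le_max_right 0 (|x| - ‖H‖)
  linarith

lemma VV_H {H : X →L[ℂ] X} (hH : IsSelfAdjoint H) {ψ : X} {ν : Measure ℝ}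
    [IsFiniteMeasure ν] (hν : IsSpec H ψ ν) (χ : X) :
    ∀ᵐ x ∂ν, VV H ψ ν (H χ) x = (x : ℂ) * VV H ψ ν χ x := by
  have hm : MemLp (fun x => tr ‖H‖ x * VV H ψ ν χ x) 2 ν := by
    refine (Lp.memLp (VV H ψ ν χ)).of_le_mul (c := ‖tr ‖H‖‖) ?_ ?_
    · exact ((tr ‖H‖).continuous.aestronglyMeasurable).mul (Lp.aestronglyMeasurable _)
    · refine Filter.Eventually.of_forall fun x => ?_
      rw [norm_mul]
      exact mul_le_mul_of_nonneg_right ((tr ‖H‖).norm_coe_le_norm x) (norm_nonneg _)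
  have h1 : VV H ψ ν (H χ) = hm.toLp _ := by
    refine ae_eq_of _ _ fun f => ?_
    rw [inner_VV hH hν]
    have h2 : ∫ x, star (f x) * hm.toLp _ x ∂ν = ∫ x, star ((tr ‖H‖ * f) x) * VV H ψ ν χ x ∂ν := by
      refine integral_congr_ae ?_
      filter_upwards [hm.coeFn_toLp] with x hx
      rw [hx, BoundedContinuousFunction.mul_apply, star_mul, tr_apply]
      have : star (((max (-‖H‖) (min ‖H‖ x) : ℝ) : ℂ)) = ((max (-‖H‖) (min ‖H‖ x) : ℝ) : ℂ) :=
        Complex.conj_ofReal _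
      rw [this]
      ring
    rw [h2, inner_VV hH hν]
    have h3 : cc H (⇑(tr ‖H‖ * f)) ψ = H (cc H f ψ) := by
      have h4 : cc H (⇑(tr ‖H‖ * f)) = cc H (tr ‖H‖) * cc H f :=
        cc_mul H (tr ‖H‖).continuous f.continuous
      rw [h4, cc_tr hH]
      rfl
    rw [h3]
    exact ((ContinuousLinearMap.isSelfAdjoint_iff_isSymmetric.1 hH) (cc H f ψ) χ).symm
  filter_upwards [hm.coeFn_toLp, out hν] with x hx hx2
  rw [h1, hx, tr_apply, clamp_eq hx2]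

lemma VV_psi {H : X →L[ℂ] X} (hH : IsSelfAdjoint H) {ψ : X} {ν : Measure ℝ}
    [IsFiniteMeasure ν] (hν : IsSpec H ψ ν) : ∀ᵐ x ∂ν, VV H ψ ν ψ x = 1 := by
  have h1 : VV H ψ ν ψ = ee ν (BoundedContinuousFunction.const ℝ 1) := by
    refine ae_eq_of _ _ fun f => ?_
    rw [inner_VV hH hν]
    have h2 : ∫ x, star (f x) * ee ν (BoundedContinuousFunction.const ℝ 1) x ∂ν =
        ∫ x, star (f x) ∂ν := by
      refine integral_congr_ae ?_
      filter_upwards [ee_ae ν (BoundedContinuousFunction.const ℝ 1)] with x hx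
      rw [hx]
      show star (f x) * 1 = _
      rw [mul_one]
    rw [h2, ← inner_conj_symm, (inner_cc hH hν f.continuous).2]
    exact (integral_conj).symm
  filter_upwards [ee_ae ν (BoundedContinuousFunction.const ℝ 1)] with x hx
  rw [h1, hx]
  rfl

lemma VV_int {H : X →L[ℂ] X} (hH : IsSelfAdjoint H) {ψ : X} {ν : Measure ℝ}
    [IsFiniteMeasure ν] (hν : IsSpec H ψ ν) (χ : X) :
    ∫⁻ x, ENNReal.ofReal (‖VV H ψ ν χ x‖ ^ 2) ∂ν ≤ ENNReal.ofReal (‖χ‖ ^ 2) := by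
  have h0 : Integrable (fun x => ‖VV H ψ ν χ x‖ ^ 2) ν :=
    (memLp_two_iff_integrable_sq_norm (Lp.aestronglyMeasurable _)).1 (Lp.memLp _)
  rw [← ofReal_integral_eq_lintegral_ofReal h0 (Filter.Eventually.of_forall fun x => by positivity)]
  apply ENNReal.ofReal_le_ofReal
  have h1 : (‖VV H ψ ν χ‖ : ℂ) ^ 2 = ((∫ x, ‖VV H ψ ν χ x‖ ^ 2 ∂ν : ℝ) : ℂ) := by
    have h2 := inner_self_eq_norm_sq_to_K (𝕜 := ℂ) (VV H ψ ν χ)
    rw [L2.inner_def] at h2
    rw [← integral_complex_ofReal]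
    refine Eq.trans h2.symm ?_
    refine integral_congr_ae (Filter.Eventually.of_forall fun x => ?_)
    show inner ℂ (VV H ψ ν χ x) (VV H ψ ν χ x) = ((‖VV H ψ ν χ x‖ ^ 2 : ℝ) : ℂ)
    rw [inner_self_eq_norm_sq_to_K]
    push_cast
    rfl
  have h3 : ‖VV H ψ ν χ‖ ^ 2 = ∫ x, ‖VV H ψ ν χ x‖ ^ 2 ∂ν := by exact_mod_cast h1
  rw [← h3]
  exact pow_le_pow_left₀ (norm_nonneg _) (VV_norm hH hν χ) 2

end main

/-- **Task T1.** -/
theorem t1 : Pool.Agent.H508R3.AT.T1 := by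
  intro X _ _ _ H hH ψ ν hν
  have : IsFiniteMeasure ν := hν.1
  refine ⟨fun χ => VV H ψ ν χ, fun χ => (Lp.stronglyMeasurable _).measurable,
    VV_int hH hν, ?_, ?_, VV_psi hH hν, VV_H hH hν⟩
  · intro χ χ'
    show ∀ᵐ x ∂ν, VV H ψ ν (χ + χ') x = VV H ψ ν χ x + VV H ψ ν χ' x
    rw [map_add]
    exact Lp.coeFn_add _ _
  · intro c χ
    show ∀ᵐ x ∂ν, VV H ψ ν (c • χ) x = c * VV H ψ ν χ x
    rw [map_smul]
    exact Lp.coeFn_smul _ _

end Pool.Agent.H337R3.AT1
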