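import Pool.Agent.H375R3.FP.Stmts

set_option autoImplicit false

/-!
Task PARS of the project H375-FP.
-/

namespace Pool.Agent.H337R3.FPPars

open H375.FP Finset
open scoped ComplexConjugate

theorem parseval (N : ℕ) [NeZero N] (S : Finset ℕ) (c : ℕ → ℝ) (hS : ∀ y ∈ S, y < N) :
    ∑ x : ZMod N, ‖∑ y ∈ S, (c y : ℂ) * (ZMod.stdAddChar ((y : ZMod N) * x) : ℂ)‖ ^ 2 =
      N * ∑ y ∈ S, c y ^ 2 := by
  have key : ((∑ x : ZMod N, ‖∑ y ∈ S, (c y : ℂ) * (ZMod.stdAddChar ((y : ZMod N) * x) : ℂ)‖ ^ 2 :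
      ℝ) : ℂ) = ((N * ∑ y ∈ S, c y ^ 2 : ℝ) : ℂ) := by
    have h1 : ∀ x : ZMod N,
        ((‖∑ y ∈ S, (c y : ℂ) * (ZMod.stdAddChar ((y : ZMod N) * x) : ℂ)‖ ^ 2 : ℝ) : ℂ) =
        ∑ y ∈ S, ∑ y' ∈ S, ((c y : ℂ) * (c y' : ℂ)) *
          (ZMod.stdAddChar (x * ((y : ZMod N) - (y' : ZMod N))) : ℂ) := by
      intro x
      rw [← Complex.normSq_eq_norm_sq, ← Complex.mul_conj, map_sum, Finset.sum_mul_sum]
      refine Finset.sum_congr rfl fun y _ => Finset.sum_congr rfl fun y' _ => ?_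
      rw [map_mul (starRingEnd ℂ), Complex.conj_ofReal, ← AddChar.map_neg_eq_conj]
      have h2 : (ZMod.stdAddChar (x * ((y : ZMod N) - (y' : ZMod N))) : ℂ) =
          (ZMod.stdAddChar ((y : ZMod N) * x) : ℂ) * (ZMod.stdAddChar (-((y' : ZMod N) * x)) : ℂ) := by
        rw [← AddChar.map_add_eq_mul]
        congr 1
        ring
      rw [h2]
      ring
    rw [Complex.ofReal_sum]
    simp only [h1]
    rw [Finset.sum_comm]
    have h3 : ∀ y ∈ S, ∑ x : ZMod N, ∑ y' ∈ S, ((c y : ℂ) * (c y' : ℂ)) *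
          (ZMod.stdAddChar (x * ((y : ZMod N) - (y' : ZMod N))) : ℂ) = (N : ℂ) * (c y : ℂ) ^ 2 := by
      intro y hy
      rw [Finset.sum_comm]
      have h4 : ∀ y' ∈ S, ∑ x : ZMod N, ((c y : ℂ) * (c y' : ℂ)) *
          (ZMod.stdAddChar (x * ((y : ZMod N) - (y' : ZMod N))) : ℂ) =
          if y' = y then (N : ℂ) * (c y : ℂ) ^ 2 else 0 := by
        intro y' hy'
        rw [← Finset.mul_sum, AddChar.sum_mulShift _ (ZMod.isPrimitive_stdAddChar N)]
        by_cases h : y' = y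
        · rw [if_pos h, h, sub_self, if_pos rfl, ZMod.card]
          ring
        · rw [if_neg h, if_neg, Nat.cast_zero, mul_zero]
          intro h5
          apply h
          have h6 : (y : ZMod N) = (y' : ZMod N) := sub_eq_zero.1 h5
          rw [ZMod.natCast_eq_natCast_iff'] at h6
          rw [Nat.mod_eq_of_lt (hS y hy), Nat.mod_eq_of_lt (hS y' hy')] at h6
          exact h6.symm
      rw [Finset.sum_congr rfl h4, Finset.sum_ite_eq', if_pos hy]
    rw [Finset.sum_congr rfl h3, ← Finset.mul_sum]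
    push_cast
    rfl
  exact_mod_cast key

theorem map_sum_prod {G ι : Type} [AddCommGroup G] (ψ : AddChar G ℂ) (s : Finset ι) (g : ι → G) :
    ψ (∑ i ∈ s, g i) = ∏ i ∈ s, ψ (g i) := by
  classical
  induction s using Finset.induction_on with
  | empty => simp
  | insert a s ha ih => rw [Finset.sum_insert ha, Finset.prod_insert ha, AddChar.map_add_eq_mul, ih]

theorem pars : TaskPars := by
  intro N k _ T A f hk hAT hf hN
  have hk0 : k ≠ 0 := by omega
  -- the power of the norm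
  have e1 : (Sq N k T f) ^ k = (∑ x : ZMod N, ‖Fs N T f x‖ ^ (2 * k)) / N := by
    unfold Sq
    rw [one_div]
    exact Real.rpow_inv_natCast_pow (by positivity) hk0
  rw [e1]
  set P : Finset (Fin k → ℕ) := Fintype.piFinset (fun _ : Fin k => A) with hP
  set c : ℕ → ℝ := fun y => ∑ φ ∈ P.filter (fun φ => ∑ i, φ i = y), ∏ i, f (φ i) with hc
  have hmaps : ∀ φ ∈ P, ∑ i, φ i ∈ ksum k A := fun φ hφ => Finset.mem_image_of_mem _ hφ
  have hlt : ∀ y ∈ ksum k A, y < N := by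
    intro y hy
    obtain ⟨φ, hφ, rfl⟩ := Finset.mem_image.1 hy
    have hφ' : ∀ i, φ i ∈ A := fun i => Fintype.mem_piFinset.1 hφ i
    have : Nonempty (Fin k) := ⟨⟨0, by omega⟩⟩
    obtain ⟨i0, -, hi0⟩ := Finset.exists_max_image (Finset.univ : Finset (Fin k)) φ
      Finset.univ_nonempty
    have h1 : ∑ i, φ i ≤ ∑ _i : Fin k, φ i0 := Finset.sum_le_sum fun i hi => hi0 i hi
    rw [Finset.sum_const, Finset.card_univ, Fintype.card_fin, smul_eq_mul] at h1
    exact h1.trans_lt (hN _ (hφ' i0))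
  have s1 : ∑ n ∈ T, f n = ∑ n ∈ A, f n :=
    (Finset.sum_subset hAT fun n _ hn => hf n hn).symm
  have s2 : (∑ n ∈ T, f n) ^ k = ∑ y ∈ ksum k A, c y := by
    rw [s1]
    have h1 : (∑ n ∈ A, f n) ^ k = ∏ _i : Fin k, ∑ n ∈ A, f n := by
      rw [Finset.prod_const, Finset.card_univ, Fintype.card_fin]
    rw [h1, Finset.prod_univ_sum]
    exact (Finset.sum_fiberwise_of_maps_to hmaps _).symm
  have s3 : ∀ x : ZMod N, (Fs N T f x) ^ k =
      ∑ y ∈ ksum k A, (c y : ℂ) * (ZMod.stdAddChar ((y : ZMod N) * x) : ℂ) := by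
    intro x
    have h0 : Fs N T f x = ∑ n ∈ A, (f n : ℂ) * (ZMod.stdAddChar ((n : ZMod N) * x) : ℂ) := by
      unfold Fs
      exact (Finset.sum_subset hAT fun n _ hn => by rw [hf n hn]; simp).symm
    rw [h0]
    have h1 : (∑ n ∈ A, (f n : ℂ) * (ZMod.stdAddChar ((n : ZMod N) * x) : ℂ)) ^ k =
        ∏ _i : Fin k, ∑ n ∈ A, (f n : ℂ) * (ZMod.stdAddChar ((n : ZMod N) * x) : ℂ) := by
      rw [Finset.prod_const, Finset.card_univ, Fintype.card_fin]
    rw [h1, Finset.prod_univ_sum, ← Finset.sum_fiberwise_of_maps_to hmaps]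
    refine Finset.sum_congr rfl fun y _ => ?_
    rw [hc]
    simp only
    rw [Complex.ofReal_sum, Finset.sum_mul]
    refine Finset.sum_congr rfl fun φ hφ => ?_
    rw [Finset.prod_mul_distrib, Complex.ofReal_prod]
    congr 1
    rw [← (Finset.mem_filter.1 hφ).2, Nat.cast_sum, Finset.sum_mul]
    exact (map_sum_prod _ _ _).symm
  have s4 : ∑ x : ZMod N, ‖Fs N T f x‖ ^ (2 * k) = N * ∑ y ∈ ksum k A, c y ^ 2 := by
    rw [← parseval N (ksum k A) c hlt]
    refine Finset.sum_congr rfl fun x _ => ?_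
    rw [← s3, norm_pow, ← pow_mul, mul_comm]
  have hN0 : (N : ℝ) ≠ 0 := by
    have := NeZero.ne N
    exact_mod_cast this
  rw [s4, mul_div_cancel_left₀ _ hN0, mul_comm 2 k, pow_mul, s2]
  exact sq_sum_le_card_mul_sum_sq

end Pool.Agent.H337R3.FPPars

namespace H375.FP

/-- **Task PARS.** -/
theorem pars : TaskPars := Pool.Agent.H337R3.FPPars.pars

end H375.FP
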