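import Pool.Agent.H777R4.DM.Stmts

/-!
Task LEAD1 of the project H777-DSH.
-/

set_option autoImplicit false

namespace Pool.Agent.H337R3.Lead1

open Pool.Agent.H777R4.DM

section basics

variable {α : Type}

theorem wd_single (l : List α) : (wd l : Al α) = MonoidAlgebra.single (FreeMonoid.ofList l) 1 := rfl

theorem wd_mul (a b : List α) : (wd a : Al α) * wd b = wd (a ++ b) := by
  unfold wd
  rw [← map_mul]
  rfl

theorem wd_nil : (wd [] : Al α) = 1 := rfl

theorem lext_wd {V : Type} [AddCommGroup V] [Module ℚ V] (F : List α → V) (l : List α) :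
    lext F (wd l) = F l := by
  have h : lext F (wd l) = Finsupp.linearCombination ℚ
      (fun m : FreeMonoid α => F (FreeMonoid.toList m))
      (Finsupp.single (FreeMonoid.ofList l) (1 : ℚ)) := rfl
  rw [h, Finsupp.linearCombination_single, one_smul]
  rfl

theorem lin_ext {V : Type} [AddCommGroup V] [Module ℚ V] {φ ψ : Al α →ₗ[ℚ] V}
    (h : ∀ l : List α, φ (wd l) = ψ (wd l)) (P : Al α) : φ P = ψ P := by
  refine MonoidAlgebra.induction_linear P (by rw [map_zero, map_zero]) ?_ ?_
  · intro f g hf hg
    rw [map_add, map_add, hf, hg]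
  · intro m r
    have e : (MonoidAlgebra.single m r : Al α) = r • wd (FreeMonoid.toList m) := by
      rw [wd_single]
      show _ = r • MonoidAlgebra.single m (1 : ℚ)
      rw [MonoidAlgebra.smul_single, smul_eq_mul, mul_one]
    rw [e, map_smul, map_smul, h]

theorem co_add (P Q : Al α) (l : List α) : co (P + Q) l = co P l + co Q l := rfl

theorem co_sub (P Q : Al α) (l : List α) : co (P - Q) l = co P l - co Q l := by
  rfl

theorem co_wd_ne (l l' : List α) (h : co (wd l : Al α) l' ≠ 0) : l' = l := by
  unfold co at h
  rw [wd_single, MonoidAlgebra.coeff_single] at h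
  by_contra hne
  apply h
  apply Finsupp.single_eq_of_ne
  intro h'
  exact hne (FreeMonoid.ofList.injective h')

end basics

section words

theorem fin2 (i : Fin 2) (h : i ≠ 1) : i = 0 := by
  omega

theorem strip_one (z : List (Fin 2)) : strip (1 :: z) = (0 :: (strip z).1, (strip z).2) := by
  simp [strip]

theorem strip_zero_nil (z : List (Fin 2)) (h : (strip z).1 = []) :
    strip (0 :: z) = ([], (strip z).2 + 1) := by
  simp [strip, h]

theorem strip_zero_cons (z : List (Fin 2)) (a : ℕ) (l : List ℕ) (h : (strip z).1 = a :: l) :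
    strip (0 :: z) = ((a + 1) :: l, (strip z).2) := by
  simp [strip, h]

theorem strip_rep (k : ℕ) (z : List (Fin 2)) :
    strip (List.replicate k 0 ++ 1 :: z) = (k :: (strip z).1, (strip z).2) := by
  induction k with
  | zero => exact strip_one z
  | succ k ih =>
    rw [List.replicate_succ, List.cons_append, strip_zero_cons _ k (strip z).1 (by rw [ih]), ih]

theorem strip_wordX (l : List ℕ) (w : List (Fin 2)) :
    strip (wordX l ++ w) = (l ++ (strip w).1, (strip w).2) := by
  induction l with
  | nil => rfl
  | cons k l ih =>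
    show strip ((List.replicate k 0 ++ 1 :: wordX l) ++ w) = _
    rw [List.append_assoc, List.cons_append, strip_rep, ih]
    rfl

theorem strip_zeros (k : ℕ) : strip (List.replicate k 0) = ([], k) := by
  induction k with
  | zero => rfl
  | succ k ih =>
    rw [List.replicate_succ, strip_zero_nil _ (by rw [ih]), ih]

theorem eq_strip (u : List (Fin 2)) :
    u = wordX (strip u).1 ++ List.replicate (strip u).2 0 := by
  induction u with
  | nil => rfl
  | cons i u ih =>
    by_cases hi : i = 1
    · subst hi
      rw [strip_one]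
      show 1 :: u = (List.replicate 0 0 ++ 1 :: wordX (strip u).1) ++ _
      rw [List.replicate_zero, List.nil_append, List.cons_append, ← ih]
    · have hi0 := fin2 i hi
      subst hi0
      rcases h : (strip u).1 with _ | ⟨a, l⟩
      · rw [strip_zero_nil u h]
        rw [h] at ih
        show 0 :: u = List.replicate ((strip u).2 + 1) 0
        rw [List.replicate_succ]
        congr 1
      · rw [strip_zero_cons u a l h]
        rw [h] at ih
        show 0 :: u = (List.replicate (a + 1) 0 ++ 1 :: wordX l) ++ _
        rw [List.replicate_succ, List.cons_append, List.cons_append]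
        congr 1

theorem cw_append (q : ℕ) (a b : List (Fin 2)) : cw q (a ++ b) = cw q a + cw q b := by
  simp [cw]

theorem cw_wordX (q : ℕ) (l : List ℕ) : cw q (wordX l) = vw q l := by
  induction l with
  | nil => rfl
  | cons k l ih =>
    show cw q (List.replicate k 0 ++ 1 :: wordX l) = _
    have h : List.replicate k (0 : Fin 2) ++ 1 :: wordX l =
        List.replicate k 0 ++ ([1] ++ wordX l) := rfl
    rw [h, cw_append, cw_append, ih]
    simp [cw, vw]
    ring

/-- words ending in `x₁` -/
theorem strip_last (w : List (Fin 2)) : (strip (w ++ [1])).2 = 0 := by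
  have h : (strip (w ++ [1])).2 = 0 ∧ (strip (w ++ [1])).1 ≠ [] := by
    induction w with
    | nil => simp [strip]
    | cons i w ih =>
      by_cases hi : i = 1
      · subst hi
        rw [List.cons_append, strip_one]
        exact ⟨ih.1, by simp⟩
      · have hi0 := fin2 i hi
        subst hi0
        rcases h : (strip (w ++ [1])).1 with _ | ⟨a, l⟩
        · exact absurd h ih.2
        · rw [List.cons_append, strip_zero_cons _ a l h]
          exact ⟨ih.1, by simp⟩
  exact h.1

theorem vw_strip (q : ℕ) (w : List (Fin 2)) :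
    vw q (strip (w ++ [1])).1 = cw q (w ++ [1]) := by
  conv_rhs => rw [eq_strip (w ++ [1])]
  rw [strip_last, List.replicate_zero, List.append_nil, cw_wordX]

theorem strip_snoc (u : List (Fin 2)) (k : ℕ) :
    (strip (u ++ List.replicate k 0)).1 = (strip u).1 := by
  conv_lhs => rw [eq_strip u]
  rw [List.append_assoc, List.replicate_append_replicate, strip_wordX, strip_zeros]
  simp

end words

section der

theorem th_wd (u : List (Fin 2)) : θ (wd u) = wd (strip u).1 := lext_wd _ _

theorem der_wd (f : A) (u : List (Fin 2)) : der f (wd u) = derW f u := lext_wd _ _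

theorem derW_add (f g : A) (u : List (Fin 2)) : derW (f + g) u = derW f u + derW g u := by
  induction u with
  | nil => simp [derW]
  | cons i u ih =>
    simp only [derW]
    rw [ih]
    by_cases hi : i = 1
    · rw [if_pos hi, if_pos hi, if_pos hi]
      noncomm_ring
    · rw [if_neg hi, if_neg hi, if_neg hi]
      noncomm_ring

theorem derW_smul (c : ℚ) (f : A) (u : List (Fin 2)) : derW (c • f) u = c • derW f u := by
  induction u with
  | nil => simp [derW]
  | cons i u ih =>
    simp only [derW]
    rw [ih]
    by_cases hi : i = 1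
    · rw [if_pos hi, if_pos hi, mul_smul_comm, smul_mul_assoc, ← smul_sub, smul_mul_assoc,
        mul_smul_comm, ← smul_add]
    · rw [if_neg hi, if_neg hi, zero_mul, zero_add, zero_add, mul_smul_comm]

theorem derW_snoc (f : A) (u : List (Fin 2)) : derW f (u ++ [0]) = derW f u * x 0 := by
  induction u with
  | nil =>
    have h : ((0 : Fin 2) = 1) ↔ False := by simp
    simp [derW]
  | cons i u ih =>
    rw [List.cons_append]
    simp only [derW]
    rw [ih, ← wd_mul, add_mul, mul_assoc, mul_assoc]
    rfl

theorem derW_zeros (f : A) (u : List (Fin 2)) (k : ℕ) :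
    derW f (u ++ List.replicate k 0) = derW f u * wd (List.replicate k 0) := by
  induction k with
  | zero => simp [wd_nil]
  | succ k ih =>
    rw [List.replicate_succ', ← List.append_assoc, derW_snoc, ih, mul_assoc, ← wd_mul]
    rfl

theorem th_zeros (h : A) (k : ℕ) : θ (h * wd (List.replicate k 0)) = θ h := by
  have e := lin_ext (φ := θ ∘ₗ LinearMap.mulRight ℚ (wd (List.replicate k 0) : A)) (ψ := θ)
    (fun l => by
      rw [LinearMap.comp_apply, LinearMap.mulRight_apply, wd_mul, th_wd, th_wd, strip_snoc]) h
  rw [LinearMap.comp_apply, LinearMap.mulRight_apply] at e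
  exact e

/-- the embedding of `ℚ⟨Y⟩` -/
noncomputable def emb : AY →ₗ[ℚ] A := lext fun l => wd (wordX l)

theorem emb_wd (l : List ℕ) : emb (wd l) = wd (wordX l) := lext_wd _ _

theorem s_apply (f g : A) : s f g = f * g + der f g := rfl

theorem th_s (f g : A) : θ (s f g) = θ (s f (emb (θ g))) := by
  have e := lin_ext (φ := θ ∘ₗ s f) (ψ := θ ∘ₗ s f ∘ₗ emb ∘ₗ θ) (fun u => by
    rw [LinearMap.comp_apply, LinearMap.comp_apply, LinearMap.comp_apply, LinearMap.comp_apply]
    rw [th_wd, emb_wd, s_apply, s_apply, der_wd, der_wd]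
    conv_lhs => rw [eq_strip u]
    rw [derW_zeros, ← wd_mul, ← mul_assoc, ← add_mul, th_zeros]) g
  exact e

/-- the correction term -/
noncomputable def EE : A →ₗ[ℚ] AY →ₗ[ℚ] AY :=
  LinearMap.mk₂ ℚ (fun f P => θ (s f (emb P)) - P * θ f)
    (by
      intro f g P
      have h : s (f + g) (emb P) = s f (emb P) + s g (emb P) := by
        rw [s_apply, s_apply, s_apply]
        have h1 : der (f + g) (emb P) = der f (emb P) + der g (emb P) := by
          exact lin_ext (φ := der (f + g)) (ψ := der f + der g) (fun u => by
            rw [LinearMap.add_apply, der_wd, der_wd, der_wd, derW_add]) _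
        rw [h1]
        noncomm_ring
      rw [h, map_add, map_add, mul_add]
      abel)
    (by
      intro c f P
      have h : s (c • f) (emb P) = c • s f (emb P) := by
        rw [s_apply, s_apply]
        have h1 : der (c • f) (emb P) = c • der f (emb P) := by
          exact lin_ext (φ := der (c • f)) (ψ := c • der f) (fun u => by
            rw [LinearMap.smul_apply, der_wd, der_wd, derW_smul]) _
        rw [h1, smul_add, smul_mul_assoc]
      rw [h, map_smul, map_smul, mul_smul_comm, smul_sub])
    (by
      intro f P Q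
      rw [map_add, map_add, map_add, add_mul]
      abel)
    (by
      intro c f P
      rw [map_smul, map_smul, map_smul, smul_mul_assoc, smul_sub])

theorem EE_apply (f : A) (P : AY) : EE f P = θ (s f (emb P)) - P * θ f := rfl

end der

section hom

/-- homogeneous of weight `n` -/
def Hom (q n : ℕ) (P : AY) : Prop := ∀ l', co P l' ≠ 0 → vw q l' = n

theorem Hom.add {q n : ℕ} {P Q : AY} (hP : Hom q n P) (hQ : Hom q n Q) : Hom q n (P + Q) := by
  intro l' h
  rw [co_add] at h
  by_cases h1 : co P l' = 0
  · rw [h1, zero_add] at h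
    exact hQ l' h
  · exact hP l' h1

theorem Hom.sub {q n : ℕ} {P Q : AY} (hP : Hom q n P) (hQ : Hom q n Q) : Hom q n (P - Q) := by
  intro l' h
  rw [co_sub] at h
  by_cases h1 : co P l' = 0
  · rw [h1, zero_sub] at h
    exact hQ l' (fun h2 => h (by rw [h2, neg_zero]))
  · exact hP l' h1

theorem Hom.word {q n : ℕ} (w : List (Fin 2)) (h : cw q (w ++ [1]) = n) :
    Hom q n (θ (wd (w ++ [1]))) := by
  intro l' hl
  rw [th_wd] at hl
  rw [co_wd_ne _ _ hl, vw_strip, h]

theorem cw_cons (q : ℕ) (i : Fin 2) (w : List (Fin 2)) : cw q (i :: w) = cw q [i] + cw q w :=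
  cw_append q [i] w

theorem hom_der (q : ℕ) (u v p : List (Fin 2)) :
    Hom q (cw q p + cw q u + cw q (v ++ [1]))
      (θ (wd p * derW (wd u) (v ++ [1])) - θ (wd (p ++ (v ++ [1]) ++ u))) := by
  induction v generalizing p with
  | nil =>
    have e : wd p * derW (wd u) ([] ++ [1]) = wd (p ++ ([] ++ [1]) ++ u) - wd (p ++ u ++ [1]) := by
      simp only [List.nil_append, derW, if_true, mul_zero, add_zero]
      rw [wd_nil, mul_one]
      unfold x
      rw [wd_mul, wd_mul, mul_sub, wd_mul, wd_mul, List.append_assoc, List.append_assoc]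
    rw [e, map_sub]
    have h : Hom q (cw q p + cw q u + cw q ([] ++ [1])) (θ (wd (p ++ u ++ [1]))) :=
      Hom.word _ (by rw [cw_append, cw_append]; rfl)
    intro l' hl
    rw [co_sub, co_sub] at hl
    apply h l'
    intro h0
    rw [h0] at hl
    apply hl
    ring
  | cons i v ih =>
    have h1 := ih (p ++ [i])
    have e1 : cw q (p ++ [i]) + cw q u + cw q (v ++ [1]) =
        cw q p + cw q u + cw q (i :: v ++ [1]) := by
      rw [List.cons_append, cw_cons q i, cw_append]
      ring
    have e2 : p ++ [i] ++ (v ++ [1]) ++ u = p ++ (i :: v ++ [1]) ++ u := by simp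
    rw [e1, e2] at h1
    by_cases hi : i = 1
    · subst hi
      have e3 : wd p * derW (wd u) (1 :: v ++ [1]) =
          wd (p ++ [1] ++ u ++ v ++ [1]) - wd (p ++ u ++ [1] ++ v ++ [1]) +
            wd (p ++ [1]) * derW (wd u) (v ++ [1]) := by
        rw [List.cons_append]
        simp only [derW, if_true]
        unfold x
        rw [wd_mul, wd_mul, sub_mul, wd_mul, wd_mul, mul_add, mul_sub, wd_mul, wd_mul,
          ← mul_assoc, wd_mul]
        simp only [List.append_assoc]
      rw [e3, map_add, map_sub]
      have h2 : Hom q (cw q p + cw q u + cw q (1 :: v ++ [1]))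
          (θ (wd (p ++ [1] ++ u ++ v ++ [1]))) :=
        Hom.word _ (by
          rw [List.cons_append, cw_cons q 1]
          simp only [cw_append]
          ring)
      have h3 : Hom q (cw q p + cw q u + cw q (1 :: v ++ [1]))
          (θ (wd (p ++ u ++ [1] ++ v ++ [1]))) :=
        Hom.word _ (by
          rw [List.cons_append, cw_cons q 1]
          simp only [cw_append]
          ring)
      have h4 := (h2.sub h3).add h1
      rw [← add_sub_assoc] at h4
      exact h4
    · have e3 : wd p * derW (wd u) (i :: v ++ [1]) =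
          wd (p ++ [i]) * derW (wd u) (v ++ [1]) := by
        rw [List.cons_append]
        simp only [derW, if_neg hi, zero_mul, zero_add]
        unfold x
        rw [← mul_assoc, wd_mul]
      rw [e3]
      exact h1

theorem wordX_last (k : ℕ) (l : List ℕ) : ∃ v, wordX (k :: l) = v ++ [1] := by
  induction l generalizing k with
  | nil => exact ⟨List.replicate k 0, rfl⟩
  | cons a l ih =>
    obtain ⟨v, hv⟩ := ih a
    refine ⟨List.replicate k 0 ++ 1 :: v, ?_⟩
    show List.replicate k 0 ++ 1 :: wordX (a :: l) = _
    rw [hv]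
    simp

theorem EE_hom (q : ℕ) (u : List (Fin 2)) (l : List ℕ) :
    Hom q (cw q u + vw q l) (EE (wd u) (wd l)) := by
  rcases l with _ | ⟨k, l⟩
  · intro l' h
    exfalso
    apply h
    have e : EE (wd u) (wd []) = 0 := by
      rw [EE_apply, emb_wd]
      show θ (s (wd u) (wd [])) - _ = 0
      rw [s_apply, der_wd]
      simp [derW, wd_nil]
    rw [e]
    rfl
  · obtain ⟨v, hv⟩ := wordX_last k l
    have e : EE (wd u) (wd (k :: l)) = θ (wd (u ++ v ++ [1])) +
        (θ (wd [] * derW (wd u) (v ++ [1])) - θ (wd ([] ++ (v ++ [1]) ++ u))) := by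
      have g1 : θ (wd ([] ++ (v ++ [1]) ++ u)) = wd (k :: l) * θ (wd u) := by
        rw [List.nil_append, ← hv, th_wd, strip_wordX, th_wd, wd_mul]
      have g2 : s (wd u) (wd (wordX (k :: l))) = wd (u ++ v ++ [1]) + derW (wd u) (v ++ [1]) := by
        rw [s_apply, der_wd, wd_mul, hv, List.append_assoc]
      rw [EE_apply, emb_wd, g1, g2, map_add, wd_nil, one_mul, add_sub_assoc]
    rw [e]
    have hvw : vw q (k :: l) = cw q (v ++ [1]) := by rw [← hv, cw_wordX]
    refine Hom.add (Hom.word _ ?_) ?_
    · rw [List.append_assoc, cw_append, hvw]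
    · have h := hom_der q u v []
      rw [hvw]
      have e0 : cw q [] = 0 := rfl
      rw [e0, zero_add] at h
      exact h

end hom

/-- **Task LEAD1.** -/
theorem lead1 : TaskLead1 := by
  refine ⟨EE, fun f g => ?_, fun q u l l' h => EE_hom q u l l' h⟩
  rw [EE_apply, th_s]
  abel

end Pool.Agent.H337R3.Lead1
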