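import Mathlib

set_option autoImplicit false

open MeasureTheory Matrix Filter Topology

namespace Pool.Agent.H337R3.Ovl

/-- cast of an integer vector -/
def zr {d : ℕ} (b : Fin d → ℤ) : Fin d → ℝ := fun i => (b i : ℝ)

/-- the affine maps -/
noncomputable def phi {d : ℕ} (A : Matrix (Fin d) (Fin d) ℝ) (b : Fin d → ℤ) (x : Fin d → ℝ) :
    Fin d → ℝ := A *ᵥ (x + zr b)

/-- compositions -/
noncomputable def phiL {d : ℕ} (A : Matrix (Fin d) (Fin d) ℝ) :
    List (Fin d → ℤ) → (Fin d → ℝ) → (Fin d → ℝ)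
  | [] => id
  | b :: l => phi A b ∘ phiL A l

/-- the integer translation of a word -/
def beta {d : ℕ} (R : Matrix (Fin d) (Fin d) ℤ) : List (Fin d → ℤ) → (Fin d → ℤ)
  | [] => 0
  | b :: l => (R ^ l.length) *ᵥ b + beta R l

/-- words of length `k` -/
def words {d : ℕ} (B : Finset (Fin d → ℤ)) : ℕ → Finset (List (Fin d → ℤ))
  | 0 => {[]}
  | k + 1 => (B ×ˢ words B k).image fun p => p.1 :: p.2

variable {d : ℕ}

lemma mem_words {B : Finset (Fin d → ℤ)} {k : ℕ} {l : List (Fin d → ℤ)} :
    l ∈ words B k ↔ l.length = k ∧ ∀ b ∈ l, b ∈ B := by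
  induction k generalizing l with
  | zero =>
    simp only [words, Finset.mem_singleton]
    constructor
    · rintro rfl; simp
    · rintro ⟨h, -⟩; exact List.length_eq_zero_iff.mp h
  | succ k ih =>
    simp only [words, Finset.mem_image, Finset.mem_product, Prod.exists]
    constructor
    · rintro ⟨b, m, ⟨hb, hm⟩, rfl⟩
      rw [ih] at hm
      refine ⟨by simp [hm.1], ?_⟩
      intro c hc
      rcases List.mem_cons.mp hc with h | h
      · rw [h]; exact hb
      · exact hm.2 c h
    · rintro ⟨h1, h2⟩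
      cases l with
      | nil => simp at h1
      | cons b m =>
        refine ⟨b, m, ⟨h2 b (by simp), ?_⟩, rfl⟩
        rw [ih]
        exact ⟨by simpa using h1, fun c hc => h2 c (by simp [hc])⟩

lemma card_words (B : Finset (Fin d → ℤ)) (k : ℕ) : (words B k).card = B.card ^ k := by
  induction k with
  | zero => simp [words]
  | succ k ih =>
    simp only [words]
    rw [Finset.card_image_of_injective, Finset.card_product, ih, pow_succ, mul_comm]
    rintro ⟨a, l⟩ ⟨b, m⟩ h
    simp at h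
    rw [h.1, h.2]

lemma append_mem_words {B : Finset (Fin d → ℤ)} {k m : ℕ} {l l' : List (Fin d → ℤ)}
    (h : l ∈ words B k) (h' : l' ∈ words B m) : l ++ l' ∈ words B (k + m) := by
  rw [mem_words] at *
  refine ⟨by simp [h.1, h'.1], ?_⟩
  intro b hb
  rcases List.mem_append.mp hb with h1 | h1
  · exact h.2 b h1
  · exact h'.2 b h1

lemma phiL_append (A : Matrix (Fin d) (Fin d) ℝ) (l l' : List (Fin d → ℤ)) (x : Fin d → ℝ) :
    phiL A (l ++ l') x = phiL A l (phiL A l' x) := by
  induction l with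
  | nil => rfl
  | cons b l ih => simp only [List.cons_append, phiL, Function.comp, ih]

lemma phi_cont (A : Matrix (Fin d) (Fin d) ℝ) (b : Fin d → ℤ) : Continuous (phi A b) := by
  unfold phi
  exact Continuous.matrix_mulVec continuous_const (continuous_id.add continuous_const)

lemma phiL_cont (A : Matrix (Fin d) (Fin d) ℝ) (l : List (Fin d → ℤ)) : Continuous (phiL A l) := by
  induction l with
  | nil => exact continuous_id
  | cons b l ih => exact (phi_cont A b).comp ih

lemma zr_mulVec (R : Matrix (Fin d) (Fin d) ℤ) (b : Fin d → ℤ) :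
    zr (R *ᵥ b) = (R.map (Int.castRingHom ℝ)) *ᵥ zr b := by
  funext i
  simp [zr, Matrix.mulVec, dotProduct]

lemma zr_add (a b : Fin d → ℤ) : zr (a + b) = zr a + zr b := by
  funext i; simp [zr]

lemma zr_sub (a b : Fin d → ℤ) : zr (a - b) = zr a - zr b := by
  funext i; simp [zr]

lemma zr_inj {a b : Fin d → ℤ} (h : zr a = zr b) : a = b := by
  funext i
  have := congrFun h i
  simpa [zr] using this

lemma phiL_eq (R : Matrix (Fin d) (Fin d) ℤ) (A : Matrix (Fin d) (Fin d) ℝ)
    (hAR : A * (R.map (Int.castRingHom ℝ)) = 1) (hRA : (R.map (Int.castRingHom ℝ)) * A = 1)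
    (l : List (Fin d → ℤ)) (x : Fin d → ℝ) :
    phiL A l x = A ^ l.length *ᵥ (x + zr (beta R l)) := by
  have hc : ∀ n, A ^ n * (R.map (Int.castRingHom ℝ)) ^ n = 1 := by
    intro n
    rw [← Commute.mul_pow (by rw [Commute, SemiconjBy, hAR, hRA]), hAR, one_pow]
  induction l with
  | nil =>
    simp only [phiL, beta, List.length_nil, pow_zero, one_mulVec, id]
    funext i; simp [zr]
  | cons b l ih =>
    simp only [phiL, beta, List.length_cons, Function.comp, ih, phi]
    rw [zr_add, zr_mulVec]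
    have h1 : (R ^ l.length).map (Int.castRingHom ℝ) = (R.map (Int.castRingHom ℝ)) ^ l.length := by
      have := map_pow (Int.castRingHom ℝ).mapMatrix R l.length
      simpa [RingHom.mapMatrix_apply] using this
    rw [h1, pow_succ']
    have h2 : zr b = A ^ l.length *ᵥ ((R.map (Int.castRingHom ℝ)) ^ l.length *ᵥ zr b) := by
      rw [mulVec_mulVec, hc, one_mulVec]
    conv_lhs => rw [h2]
    rw [← mulVec_add, mulVec_mulVec]
    congr 1
    abel

lemma phiL_inj (R : Matrix (Fin d) (Fin d) ℤ) (A : Matrix (Fin d) (Fin d) ℝ)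
    (hAR : A * (R.map (Int.castRingHom ℝ)) = 1) (hRA : (R.map (Int.castRingHom ℝ)) * A = 1)
    (l : List (Fin d → ℤ)) : Function.Injective (phiL A l) := by
  have h0 : Function.Injective (fun x : Fin d → ℝ => A *ᵥ x) := by
    intro x y h
    have := congrArg (fun z => (R.map (Int.castRingHom ℝ)) *ᵥ z) h
    simp only [mulVec_mulVec, hRA, one_mulVec] at this
    exact this
  induction l with
  | nil => exact Function.injective_id
  | cons b l ih =>
    intro x y h
    simp only [phiL, Function.comp, phi] at h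
    have h1 := h0 h
    exact ih (add_right_cancel h1)

/-- the self-similarity iterated -/
lemma words_measure {B : Finset (Fin d → ℤ)} {A : Matrix (Fin d) (Fin d) ℝ}
    {μ : Measure (Fin d → ℝ)} {c : ENNReal}
    (hμ : ∀ E : Set (Fin d → ℝ), MeasurableSet E → μ E = c * ∑ b ∈ B, μ (phi A b ⁻¹' E)) (k : ℕ) :
    ∀ E : Set (Fin d → ℝ), MeasurableSet E → μ E = c ^ k * ∑ l ∈ words B k, μ (phiL A l ⁻¹' E) := by
  induction k with
  | zero => intro E _; simp [words, phiL]
  | succ k ih =>
    intro E hE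
    rw [hμ E hE]
    have h1 : ∀ b ∈ B, μ (phi A b ⁻¹' E) = c ^ k * ∑ l ∈ words B k, μ (phiL A (b :: l) ⁻¹' E) := by
      intro b _
      rw [ih _ ((phi_cont A b).measurable hE)]
      rfl
    rw [Finset.sum_congr rfl h1, ← Finset.mul_sum, ← mul_assoc, ← pow_succ']
    congr 1
    simp only [words]
    rw [Finset.sum_image, Finset.sum_product]
    rintro ⟨a, l⟩ _ ⟨b, m⟩ _ h
    simp at h
    rw [h.1, h.2]

/-- the attractor is covered by the pieces of level `k` -/
lemma T_words {B : Finset (Fin d → ℤ)} {A : Matrix (Fin d) (Fin d) ℝ} {T : Set (Fin d → ℝ)}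
    (hT : T = ⋃ b ∈ B, phi A b '' T) (k : ℕ) : T = ⋃ l ∈ words B k, phiL A l '' T := by
  induction k with
  | zero => simp [words, phiL]
  | succ k ih =>
    ext x
    simp only [Set.mem_iUnion, Set.mem_image, exists_prop]
    constructor
    · intro hx
      rw [hT] at hx
      simp only [Set.mem_iUnion, Set.mem_image, exists_prop] at hx
      obtain ⟨b, hb, y, hy, rfl⟩ := hx
      rw [ih] at hy
      simp only [Set.mem_iUnion, Set.mem_image, exists_prop] at hy
      obtain ⟨l, hl, z, hz, rfl⟩ := hy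
      refine ⟨b :: l, ?_, z, hz, rfl⟩
      simp only [words, Finset.mem_image, Finset.mem_product, Prod.exists]
      exact ⟨b, l, ⟨hb, hl⟩, rfl⟩
    · rintro ⟨l, hl, y, hy, rfl⟩
      simp only [words, Finset.mem_image, Finset.mem_product, Prod.exists] at hl
      obtain ⟨b, m, ⟨hb, hm⟩, rfl⟩ := hl
      rw [hT]
      simp only [Set.mem_iUnion, Set.mem_image, exists_prop]
      refine ⟨b, hb, phiL A m y, ?_, rfl⟩
      rw [ih]
      simp only [Set.mem_iUnion, Set.mem_image, exists_prop]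
      exact ⟨m, hm, y, hy, rfl⟩

lemma phiL_mem {B : Finset (Fin d → ℤ)} {A : Matrix (Fin d) (Fin d) ℝ} {T : Set (Fin d → ℝ)}
    (hT : T = ⋃ b ∈ B, phi A b '' T) {k : ℕ} {l : List (Fin d → ℤ)} (hl : l ∈ words B k)
    {y : Fin d → ℝ} (hy : y ∈ T) : phiL A l y ∈ T := by
  rw [T_words hT k]
  simp only [Set.mem_iUnion, Set.mem_image, exists_prop]
  exact ⟨l, hl, y, hy, rfl⟩

lemma exists_word {B : Finset (Fin d → ℤ)} {A : Matrix (Fin d) (Fin d) ℝ} {T : Set (Fin d → ℝ)}
    (hT : T = ⋃ b ∈ B, phi A b '' T) (k : ℕ) {x : Fin d → ℝ} (hx : x ∈ T) :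
    ∃ l ∈ words B k, ∃ y ∈ T, phiL A l y = x := by
  rw [T_words hT k] at hx
  simp only [Set.mem_iUnion, Set.mem_image, exists_prop] at hx
  exact hx

/-- uniqueness of the word of a point maximising a generic linear functional -/
lemma word_unique {B : Finset (Fin d → ℤ)} {A : Matrix (Fin d) (Fin d) ℝ} {T : Set (Fin d → ℝ)}
    (hT : T = ⋃ b ∈ B, phi A b '' T) (hA : Function.Injective (fun x : Fin d → ℝ => A *ᵥ x)) (k : ℕ) :
    ∀ (f : (Fin d → ℝ) →ₗ[ℝ] ℝ),
      (∀ j : ℕ, ∀ b ∈ B, ∀ b' ∈ B, b ≠ b' → f (A ^ (j + 1) *ᵥ (zr b - zr b')) ≠ 0) →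
    ∀ x₀ : Fin d → ℝ, (∀ x ∈ T, f x ≤ f x₀) →
    ∀ l ∈ words B k, ∀ l' ∈ words B k, ∀ y ∈ T, ∀ y' ∈ T, phiL A l y = x₀ → phiL A l' y' = x₀ →
      l = l' := by
  induction k with
  | zero =>
    intro f _ x₀ _ l hl l' hl' _ _ _ _ _ _
    simp only [words, Finset.mem_singleton] at hl hl'
    rw [hl, hl']
  | succ k ih =>
    intro f hf x₀ hmax l hl l' hl' y hy y' hy' h h'
    simp only [words, Finset.mem_image, Finset.mem_product, Prod.exists] at hl hl'
    obtain ⟨b, m, ⟨hb, hm⟩, rfl⟩ := hl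
    obtain ⟨b', m', ⟨hb', hm'⟩, rfl⟩ := hl'
    simp only [phiL, Function.comp] at h h'
    set z := phiL A m y with hz
    set z' := phiL A m' y' with hz'
    have hzT : z ∈ T := phiL_mem hT hm hy
    have hzT' : z' ∈ T := phiL_mem hT hm' hy'
    have hin : ∀ c ∈ B, ∀ w ∈ T, phi A c w ∈ T := by
      intro c hc w hw
      rw [hT]
      simp only [Set.mem_iUnion, Set.mem_image, exists_prop]
      exact ⟨c, hc, w, hw, rfl⟩
    have e1 : f (phi A b' z) = f x₀ + f (A *ᵥ (zr b' - zr b)) := by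
      rw [← h, ← map_add]
      congr 1
      unfold phi
      rw [← mulVec_add]
      congr 1
      abel
    have e2 : f (phi A b z') = f x₀ - f (A *ᵥ (zr b' - zr b)) := by
      rw [← h', ← map_sub]
      congr 1
      unfold phi
      rw [← mulVec_sub]
      congr 1
      abel
    have h1 := hmax _ (hin b' hb' z hzT)
    have h2 := hmax _ (hin b hb z' hzT')
    have h3 : f (A *ᵥ (zr b' - zr b)) = 0 := by linarith
    have hbb : b' = b := by
      by_contra hne
      apply hf 0 b' hb' b hb hne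
      simpa using h3
    subst hbb
    have hzz : z = z' := by
      have h4 : phi A b' z = phi A b' z' := by rw [h, h']
      unfold phi at h4
      have h5 := hA h4
      exact add_right_cancel h5
    have h6 := ih (f.comp (Matrix.mulVecLin A)) (by
      intro j c hc c' hc' hne
      have := hf (j + 1) c hc c' hc' hne
      rw [pow_succ', ← mulVec_mulVec] at this
      exact this) z (by
        intro x hx
        have h7 := hmax _ (hin b' hb' x hx)
        rw [← h] at h7
        unfold phi at h7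
        rw [mulVec_add, mulVec_add, map_add, map_add] at h7
        show f (A *ᵥ x) ≤ f (A *ᵥ z)
        linarith) m hm m' hm' y hy y' hy' rfl hzz.symm
    rw [h6]

/-- the functional `u ↦ u ⬝ v` -/
def dotL (v : Fin d → ℝ) : (Fin d → ℝ) →ₗ[ℝ] ℝ where
  toFun u := u ⬝ᵥ v
  map_add' a b := add_dotProduct a b v
  map_smul' c a := smul_dotProduct c a v

/-- a generic functional exists -/
lemma exists_generic (B : Finset (Fin d → ℤ)) (A : Matrix (Fin d) (Fin d) ℝ)
    (hA : Function.Injective (fun x : Fin d → ℝ => A *ᵥ x)) :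
    ∃ f : (Fin d → ℝ) →ₗ[ℝ] ℝ,
      ∀ j : ℕ, ∀ b ∈ B, ∀ b' ∈ B, b ≠ b' → f (A ^ (j + 1) *ᵥ (zr b - zr b')) ≠ 0 := by
  have hAn : ∀ n : ℕ, Function.Injective (fun x : Fin d → ℝ => A ^ n *ᵥ x) := by
    intro n
    induction n with
    | zero => intro x y h; simpa using h
    | succ n ih =>
      intro x y h
      simp only [pow_succ', ← mulVec_mulVec] at h
      exact ih (hA h)
  set N : Set (Fin d → ℝ) := ⋃ j : ℕ, ⋃ b ∈ B, ⋃ b' ∈ B, ⋃ (_ : b ≠ b'),
    {u : Fin d → ℝ | u ⬝ᵥ (A ^ (j + 1) *ᵥ (zr b - zr b')) = 0} with hN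
  have hnull : ∀ v : Fin d → ℝ, v ≠ 0 → volume {u : Fin d → ℝ | u ⬝ᵥ v = 0} = 0 := by
    intro v hv
    have h1 : {u : Fin d → ℝ | u ⬝ᵥ v = 0} =
        ((LinearMap.ker (dotL v) : Submodule ℝ (Fin d → ℝ)) : Set (Fin d → ℝ)) := by
      ext u; simp [LinearMap.mem_ker, dotL]
    rw [h1]
    apply Measure.addHaar_submodule
    intro htop
    have h2 : v ∈ LinearMap.ker (dotL v) := by
      rw [htop]; trivial
    rw [LinearMap.mem_ker] at h2
    have h3 : v ⬝ᵥ v = 0 := h2
    exact hv (dotProduct_self_eq_zero.mp h3)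
  have hN0 : volume N = 0 := by
    rw [hN]
    refine measure_iUnion_null fun j => ?_
    refine (measure_biUnion_null_iff B.countable_toSet).mpr fun b _ => ?_
    refine (measure_biUnion_null_iff B.countable_toSet).mpr fun b' _ => ?_
    refine measure_iUnion_null fun hne => ?_
    apply hnull
    intro h
    have h1 : A ^ (j + 1) *ᵥ (zr b - zr b') = A ^ (j + 1) *ᵥ 0 := by rw [h, mulVec_zero]
    have h2 := hAn (j + 1) h1
    exact hne (zr_inj (sub_eq_zero.mp h2))
  have hne : N ≠ Set.univ := by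
    intro h
    rw [h] at hN0
    exact (Measure.measure_univ_ne_zero.mpr (by
      intro h0
      have := NeZero.ne (volume : Measure (Fin d → ℝ))
      exact this h0)) hN0
  obtain ⟨u, hu⟩ := (Set.ne_univ_iff_exists_notMem N).mp hne
  refine ⟨dotL u, ?_⟩
  intro j b hb b' hb' hbb h0
  apply hu
  rw [hN]
  simp only [Set.mem_iUnion]
  refine ⟨j, b, hb, b', hb', hbb, ?_⟩
  show u ⬝ᵥ _ = 0
  rw [dotProduct_comm]
  exact h0

end Pool.Agent.H337R3.Ovl
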