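import Pool.Agent.H337R3.Ovl1

set_option autoImplicit false

open MeasureTheory Matrix Filter Topology

namespace Pool.Agent.H337R3.Ovl

variable {d : ℕ}

/-- powers of the inverse of an expanding matrix are small -/
theorem pow_small (R : Matrix (Fin d) (Fin d) ℤ)
    (hR : ∀ z : ℂ, (R.map (Int.castRingHom ℂ)).charpoly.IsRoot z → 1 < ‖z‖) :
    (R.map (Int.castRingHom ℝ))⁻¹ * (R.map (Int.castRingHom ℝ)) = 1 ∧
    (R.map (Int.castRingHom ℝ)) * (R.map (Int.castRingHom ℝ))⁻¹ = 1 ∧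
    ∀ r δ : ℝ, 0 < δ → ∃ n0 : ℕ, ∀ n ≥ n0, ∀ x : Fin d → ℝ, ‖x‖ ≤ r →
      ‖((R.map (Int.castRingHom ℝ))⁻¹) ^ n *ᵥ x‖ < δ := by
  set Rr := R.map (Int.castRingHom ℝ) with hRr
  set Rc := R.map (Int.castRingHom ℂ) with hRc
  -- the determinants do not vanish
  have hdetc : Rc.det ≠ 0 := by
    intro h
    rw [det_eq_sign_charpoly_coeff] at h
    have h1 : Rc.charpoly.coeff 0 = 0 := by
      rcases mul_eq_zero.mp h with h2 | h2
      · exact absurd h2 (pow_ne_zero _ (by norm_num))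
      · exact h2
    have h2 : Rc.charpoly.IsRoot 0 := by
      rw [Polynomial.IsRoot, ← Polynomial.coeff_zero_eq_eval_zero]; exact h1
    have := hR 0 h2
    simp at this
    linarith
  have hmap : Rc = Rr.map (algebraMap ℝ ℂ) := by
    ext i j; simp [hRr, hRc]
  have hdetr : Rr.det ≠ 0 := by
    intro h
    apply hdetc
    have h1 : (Rr.map (algebraMap ℝ ℂ)).det = algebraMap ℝ ℂ Rr.det :=
      ((algebraMap ℝ ℂ).map_det Rr).symm
    rw [hmap, h1, h, map_zero]
  have hAR : Rr⁻¹ * Rr = 1 := nonsing_inv_mul _ (isUnit_iff_ne_zero.mpr hdetr)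
  have hRA : Rr * Rr⁻¹ = 1 := mul_nonsing_inv _ (isUnit_iff_ne_zero.mpr hdetr)
  refine ⟨hAR, hRA, ?_⟩
  intro r δ hδ
  rcases Nat.eq_zero_or_pos d with hd | hd
  · subst hd
    refine ⟨0, fun n _ x _ => ?_⟩
    have : Rr⁻¹ ^ n *ᵥ x = 0 := Subsingleton.elim _ _
    rw [this, norm_zero]; exact hδ
  haveI : Nonempty (Fin d) := ⟨⟨0, hd⟩⟩
  letI := Matrix.linftyOpNormedRing (n := Fin d) (α := ℂ)
  letI := Matrix.linftyOpNormedAlgebra (n := Fin d) (R := ℂ) (α := ℂ)
  -- the spectral radius of the complex inverse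
  have hspec : spectralRadius ℂ (Rc⁻¹) < (1 : NNReal) := by
    apply spectrum.spectralRadius_lt_of_forall_lt
    intro z hz
    let u : (Matrix (Fin d) (Fin d) ℂ)ˣ := Matrix.nonsingInvUnit Rc (isUnit_iff_ne_zero.mpr hdetc)
    have hu1 : (u : Matrix (Fin d) (Fin d) ℂ) = Rc := rfl
    have hu2 : ((u⁻¹ : (Matrix (Fin d) (Fin d) ℂ)ˣ) : Matrix (Fin d) (Fin d) ℂ) = Rc⁻¹ := by
      rw [Matrix.coe_units_inv, hu1]
    rw [← hu2] at hz
    have h1 := spectrum.inv₀_mem_iff.mpr hz
    rw [hu1, Matrix.mem_spectrum_iff_isRoot_charpoly] at h1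
    have h2 := hR _ h1
    have hz0 : z ≠ 0 := by
      intro h; rw [h] at h2; simp at h2; linarith
    rw [norm_inv] at h2
    have h3 : 0 < ‖z‖ := norm_pos_iff.mpr hz0
    have h4 : ‖z‖ < 1 := by
      by_contra h5
      push Not at h5
      have := inv_le_one_of_one_le₀ h5
      linarith
    exact_mod_cast h4
  obtain ⟨q, hq1, hq2⟩ := exists_between hspec
  have hlim := spectrum.pow_norm_pow_one_div_tendsto_nhds_spectralRadius (Rc⁻¹)
  have hev : ∀ᶠ n : ℕ in atTop, ENNReal.ofReal (‖Rc⁻¹ ^ n‖ ^ (1 / n : ℝ)) < q :=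
    hlim.eventually (gt_mem_nhds hq1)
  have hq3 : q ≠ ⊤ := ne_top_of_lt hq2
  set q' : ℝ := q.toReal with hq'
  have hq'0 : 0 ≤ q' := ENNReal.toReal_nonneg
  have hq'1 : q' < 1 := by
    have := (ENNReal.toReal_lt_toReal hq3 (by simp)).mpr hq2
    simpa using this
  have hnorm : ∀ᶠ n : ℕ in atTop, ‖Rc⁻¹ ^ n‖ ≤ q' ^ n := by
    filter_upwards [hev, eventually_gt_atTop 0] with n hn hn0
    have h1 : ‖Rc⁻¹ ^ n‖ ^ (1 / n : ℝ) < q' := by
      rw [ENNReal.ofReal_lt_iff_lt_toReal (by positivity) hq3] at hn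
      exact hn
    have hn' : (n : ℝ) ≠ 0 := by exact_mod_cast hn0.ne'
    have h2 : ‖Rc⁻¹ ^ n‖ = (‖Rc⁻¹ ^ n‖ ^ (1 / n : ℝ)) ^ n := by
      rw [← Real.rpow_natCast, ← Real.rpow_mul (norm_nonneg _), one_div_mul_cancel hn', Real.rpow_one]
    rw [h2]
    exact pow_le_pow_left₀ (by positivity) h1.le n
  have hzero : Tendsto (fun n : ℕ => q' ^ n * (|r| + 1)) atTop (𝓝 0) := by
    have := (tendsto_pow_atTop_nhds_zero_of_lt_one hq'0 hq'1).mul_const (|r| + 1)
    simpa using this
  have hfin : ∀ᶠ n : ℕ in atTop, q' ^ n * (|r| + 1) < δ := hzero.eventually (gt_mem_nhds hδ)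
  obtain ⟨n0, hn0⟩ := eventually_atTop.mp (hnorm.and hfin)
  refine ⟨n0, fun n hn x hx => ?_⟩
  obtain ⟨h1, h2⟩ := hn0 n hn
  -- complexify
  have hinv : Rc⁻¹ = Rr⁻¹.map (algebraMap ℝ ℂ) := by
    apply Matrix.inv_eq_left_inv
    rw [hmap, ← Matrix.map_mul, hAR]
    simp
  have hpow : Rc⁻¹ ^ n = (Rr⁻¹ ^ n).map (algebraMap ℝ ℂ) := by
    rw [hinv]
    have := map_pow (algebraMap ℝ ℂ).mapMatrix (Rr⁻¹) n
    simpa [RingHom.mapMatrix_apply] using this.symm
  set y : Fin d → ℂ := fun i => (x i : ℂ) with hy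
  have hyx : ‖y‖ = ‖x‖ := by
    rw [Pi.norm_def, Pi.norm_def]
    congr 1
    apply Finset.sup_congr rfl
    intro i _
    rw [hy]
    ext
    simp
  have hmul : Rc⁻¹ ^ n *ᵥ y = fun i => (((Rr⁻¹ ^ n *ᵥ x) i : ℝ) : ℂ) := by
    rw [hpow]
    funext i
    simp [Matrix.mulVec, dotProduct, hy]
  have hnm : ‖Rc⁻¹ ^ n *ᵥ y‖ = ‖Rr⁻¹ ^ n *ᵥ x‖ := by
    rw [hmul, Pi.norm_def, Pi.norm_def]
    congr 1
    apply Finset.sup_congr rfl
    intro i _
    ext
    simp
  rw [← hnm]
  have h3 := Matrix.linfty_opNorm_mulVec (Rc⁻¹ ^ n) y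
  calc ‖Rc⁻¹ ^ n *ᵥ y‖ ≤ ‖Rc⁻¹ ^ n‖ * ‖y‖ := h3
    _ ≤ q' ^ n * (|r| + 1) := by
        rw [hyx]
        gcongr
        linarith [le_abs_self r]
    _ < δ := h2

/-- If the exponentials with frequencies in `Λ` form an orthonormal basis of `L²(μ)`, then a set
whose translate is at least twice as heavy everywhere has measure zero. -/
theorem lemmaU (μ : Measure (Fin d → ℝ)) [IsProbabilityMeasure μ]
    (Λ : Set (Fin d → ℝ)) (e : Λ → Lp ℂ 2 μ)
    (he : ∀ l : Λ, (e l : (Fin d → ℝ) → ℂ) =ᵐ[μ]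
        fun x => Complex.exp (2 * Real.pi * Complex.I
          * ((∑ i, (l : Fin d → ℝ) i * x i : ℝ) : ℂ)))
    (ho : Orthonormal ℂ e)
    (hs : (Submodule.span ℂ (Set.range e)).topologicalClosure = ⊤)
    (S : Set (Fin d → ℝ)) (hS : MeasurableSet S) (t : Fin d → ℝ)
    (h : ∀ E ⊆ S, MeasurableSet E → 2 * μ E ≤ μ ((fun x => x - t) ⁻¹' E)) : μ S = 0 := by
  set ν : Measure (Fin d → ℝ) := (μ.restrict S).map (fun x => x + t) with hν
  have hmeas : Measurable (fun x : Fin d → ℝ => x + t) := measurable_add_const t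
  have hmeas' : Measurable (fun x : Fin d → ℝ => x - t) := measurable_sub_const t
  have hνapp : ∀ E, MeasurableSet E → ν E = μ ((fun x => x + t) ⁻¹' E ∩ S) := by
    intro E hE
    rw [hν, Measure.map_apply hmeas hE, Measure.restrict_apply (hmeas hE)]
  have h2ν : (2 : ENNReal) • ν ≤ μ := by
    rw [Measure.le_iff]
    intro E hE
    rw [Measure.smul_apply, hνapp E hE, smul_eq_mul]
    refine (h _ Set.inter_subset_right ((hmeas hE).inter hS)).trans ?_
    apply measure_mono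
    intro x hx
    have := hx.1
    simpa using this
  haveI hνfin : IsFiniteMeasure ν := by
    rw [hν]; infer_instance
  have hac : ν ≪ μ := by
    refine Measure.AbsolutelyContinuous.mk fun E hE h0 => ?_
    have h1 := (Measure.le_iff.mp h2ν) E hE
    rw [h0, Measure.smul_apply, smul_eq_mul] at h1
    have h2 : 2 * ν E = 0 := le_antisymm h1 bot_le
    simpa using h2
  haveI hleb : ν.HaveLebesgueDecomposition μ := Measure.haveLebesgueDecomposition_of_sigmaFinite ν μ
  set g : (Fin d → ℝ) → ℝ := fun x => (ν.rnDeriv μ x).toReal with hg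
  have hgm : Measurable g := (Measure.measurable_rnDeriv ν μ).ennreal_toReal
  have hg0 : ∀ x, 0 ≤ g x := fun x => ENNReal.toReal_nonneg
  have hg1 : ∀ᵐ x ∂μ, g x ≤ 1 / 2 := by
    have h1 := Measure.rnDeriv_le_one_of_le h2ν
    have h2 := Measure.rnDeriv_smul_left_of_ne_top ν μ (r := 2) (by simp)
    filter_upwards [h1, h2] with x hx1 hx2
    rw [hx2, Pi.smul_apply, smul_eq_mul, Pi.one_apply] at hx1
    have h3 : ν.rnDeriv μ x ≤ 1 / 2 := by
      rw [ENNReal.le_div_iff_mul_le (by simp) (by simp), mul_comm]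
      exact hx1
    have h4 := ENNReal.toReal_mono (by simp) h3
    simpa using h4
  -- the two functions of `L²`
  have hG : MemLp (fun x => (g x : ℂ)) 2 μ := by
    apply MemLp.of_bound (C := 1 / 2)
    · exact (Complex.measurable_ofReal.comp hgm).aestronglyMeasurable
    · filter_upwards [hg1] with x hx
      rw [Complex.norm_real, Real.norm_of_nonneg (hg0 x)]; exact hx
  have hI : MemLp (S.indicator fun _ => (1 : ℂ)) 2 μ :=
    memLp_indicator_const 2 hS 1 (Or.inr (measure_ne_top _ _))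
  set G : Lp ℂ 2 μ := hG.toLp _ with hGdef
  set I : Lp ℂ 2 μ := hI.toLp _ with hIdef
  -- the coefficients
  set E : (Fin d → ℝ) → (Fin d → ℝ) → ℂ := fun l x =>
    Complex.exp (2 * Real.pi * Complex.I * ((∑ i, l i * x i : ℝ) : ℂ)) with hE
  have hEnorm : ∀ l x, ‖E l x‖ = 1 := by
    intro l x
    have e1 : 2 * (Real.pi : ℂ) * Complex.I * ((∑ i, l i * x i : ℝ) : ℂ) =
        ((2 * Real.pi * (∑ i, l i * x i) : ℝ) : ℂ) * Complex.I := by push_cast; ring
    rw [hE]
    show ‖Complex.exp _‖ = 1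
    rw [e1]
    exact Complex.norm_exp_ofReal_mul_I _
  have hEadd : ∀ l x y, E l (x + y) = E l x * E l y := by
    intro l x y
    rw [hE]
    show Complex.exp _ = Complex.exp _ * Complex.exp _
    rw [← Complex.exp_add]
    congr 1
    simp only [Pi.add_apply, mul_add, Finset.sum_add_distrib]
    push_cast
    ring
  have hcG : ∀ l : Λ, inner ℂ (e l) G = (starRingEnd ℂ) (E l t) * inner ℂ (e l) I := by
    intro l
    rw [MeasureTheory.L2.inner_def, MeasureTheory.L2.inner_def]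
    have h1 : ∫ x, inner ℂ ((e l : (Fin d → ℝ) → ℂ) x) ((G : (Fin d → ℝ) → ℂ) x) ∂μ =
        ∫ x, g x • (starRingEnd ℂ) (E l x) ∂μ := by
      apply integral_congr_ae
      filter_upwards [he l, hG.coeFn_toLp] with x hx1 hx2
      rw [hx1, hGdef, hx2]
      simp [hE, RCLike.inner_apply]
    have h2 : ∫ x, inner ℂ ((e l : (Fin d → ℝ) → ℂ) x) ((I : (Fin d → ℝ) → ℂ) x) ∂μ =
        ∫ x in S, (starRingEnd ℂ) (E l x) ∂μ := by
      rw [← integral_indicator hS]
      apply integral_congr_ae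
      filter_upwards [he l, hI.coeFn_toLp] with x hx1 hx2
      rw [hx1, hIdef, hx2]
      by_cases hxS : x ∈ S
      · simp [hE, RCLike.inner_apply, hxS]
      · simp [RCLike.inner_apply, hxS]
    rw [h1, h2, integral_rnDeriv_smul hac, hν, integral_map hmeas.aemeasurable]
    · rw [← integral_const_mul]
      congr 1
      funext x
      rw [hEadd, map_mul]
      ring
    · have hEc : Continuous (fun x => (starRingEnd ℂ) (E l x)) := by
        apply Complex.continuous_conj.comp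
        rw [hE]
        fun_prop
      exact hEc.aestronglyMeasurable
  -- Parseval
  let b : HilbertBasis Λ ℂ (Lp ℂ 2 μ) := HilbertBasis.mk ho hs.ge
  have hb : ∀ l, b l = e l := fun l => by
    show (⇑(HilbertBasis.mk ho hs.ge)) l = e l
    rw [HilbertBasis.coe_mk]
  have hnorm : inner ℂ G G = inner ℂ I I := by
    rw [← b.tsum_inner_mul_inner G G, ← b.tsum_inner_mul_inner I I]
    apply tsum_congr
    intro l
    rw [hb, hcG l, ← inner_conj_symm G (e l), hcG l, map_mul, Complex.conj_conj,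
      inner_conj_symm]
    have h1 : E l t * (starRingEnd ℂ) (E l t) = 1 := by
      rw [Complex.mul_conj, Complex.normSq_eq_norm_sq, hEnorm]; simp
    linear_combination (inner ℂ I (e l) * inner ℂ (e l) I) * h1
  -- compute both sides
  have hGG : inner ℂ G G = ((∫ x, g x * g x ∂μ : ℝ) : ℂ) := by
    rw [MeasureTheory.L2.inner_def, ← integral_complex_ofReal]
    apply integral_congr_ae
    filter_upwards [hG.coeFn_toLp] with x hx
    rw [hGdef, hx]
    simp [RCLike.inner_apply]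
    rw [abs_of_nonneg (hg0 x), sq]
  have hII : inner ℂ I I = (((μ S).toReal : ℝ) : ℂ) := by
    rw [MeasureTheory.L2.inner_def]
    have h1 : ∫ x, inner ℂ ((I : (Fin d → ℝ) → ℂ) x) ((I : (Fin d → ℝ) → ℂ) x) ∂μ =
        ∫ x, S.indicator (fun _ => (1 : ℂ)) x ∂μ := by
      apply integral_congr_ae
      filter_upwards [hI.coeFn_toLp] with x hx
      rw [hIdef, hx]
      by_cases hxS : x ∈ S
      · simp [RCLike.inner_apply, hxS]
      · simp [RCLike.inner_apply, hxS]
    rw [h1, integral_indicator hS]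
    simp [Measure.real]
  have hkey : ∫ x, g x * g x ∂μ = (μ S).toReal := by
    have := hnorm
    rw [hGG, hII] at this
    exact_mod_cast this
  have hgint : Integrable g μ := by
    apply Integrable.of_bound (C := 1 / 2) hgm.aestronglyMeasurable
    filter_upwards [hg1] with x hx
    rw [Real.norm_of_nonneg (hg0 x)]; exact hx
  have hgi : ∫ x, g x ∂μ = (μ S).toReal := by
    have h1 := Measure.integral_toReal_rnDeriv hac
    rw [hg, h1, measureReal_def, hνapp Set.univ MeasurableSet.univ]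
    simp
  have hle : ∫ x, g x * g x ∂μ ≤ ∫ x, 1 / 2 * g x ∂μ := by
    apply integral_mono_ae
    · apply Integrable.of_bound (C := 1 / 2 * (1 / 2)) (hgm.mul hgm).aestronglyMeasurable
      filter_upwards [hg1] with x hx
      rw [Pi.mul_apply, Real.norm_of_nonneg (mul_nonneg (hg0 x) (hg0 x))]
      exact mul_le_mul hx hx (hg0 x) (by norm_num)
    · exact hgint.const_mul _
    · filter_upwards [hg1] with x hx
      exact mul_le_mul_of_nonneg_right hx (hg0 x)
  rw [integral_const_mul, hgi, hkey] at hle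
  have h0 : (μ S).toReal = 0 := by
    have := ENNReal.toReal_nonneg (a := μ S)
    linarith
  rcases (ENNReal.toReal_eq_zero_iff _).mp h0 with h1 | h1
  · exact h1
  · exact absurd h1 (measure_ne_top _ _)

end Pool.Agent.H337R3.Ovl
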