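import Pool.Agent.H337R3.Ovl2

set_option autoImplicit false

open MeasureTheory Matrix Filter Topology

namespace Pool.Agent.H337R3.Ovl

variable {d : ℕ}

/-- The standing data. -/
structure Data (R : Matrix (Fin d) (Fin d) ℤ) (A : Matrix (Fin d) (Fin d) ℝ)
    (B : Finset (Fin d → ℤ)) (μ : Measure (Fin d → ℝ)) (T : Set (Fin d → ℝ)) : Prop where
  hAR : A * (R.map (Int.castRingHom ℝ)) = 1
  hRA : (R.map (Int.castRingHom ℝ)) * A = 1
  hsmall : ∀ r δ : ℝ, 0 < δ → ∃ n0 : ℕ, ∀ n ≥ n0, ∀ x : Fin d → ℝ, ‖x‖ ≤ r → ‖A ^ n *ᵥ x‖ < δ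
  hB : B.Nonempty
  hprob : μ Set.univ = 1
  hμ : ∀ E : Set (Fin d → ℝ), MeasurableSet E →
    μ E = (B.card : ENNReal)⁻¹ * ∑ b ∈ B, μ (phi A b ⁻¹' E)
  hTc : IsCompact T
  hTn : T.Nonempty
  hT : T = ⋃ b ∈ B, phi A b '' T

variable {R : Matrix (Fin d) (Fin d) ℤ} {A : Matrix (Fin d) (Fin d) ℝ}
    {B : Finset (Fin d → ℤ)} {μ : Measure (Fin d → ℝ)} {T : Set (Fin d → ℝ)}

lemma Data.hA (D : Data R A B μ T) : Function.Injective (fun x : Fin d → ℝ => A *ᵥ x) := by
  intro x y h
  have := congrArg (fun z => (R.map (Int.castRingHom ℝ)) *ᵥ z) h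
  simp only [mulVec_mulVec, D.hRA, one_mulVec] at this
  exact this

lemma Data.hAn (D : Data R A B μ T) (n : ℕ) : Function.Injective (fun x : Fin d → ℝ => A ^ n *ᵥ x) := by
  induction n with
  | zero => intro x y h; simpa using h
  | succ n ih =>
    intro x y h
    simp only [pow_succ', ← mulVec_mulVec] at h
    exact ih (D.hA h)

lemma Data.isProb (D : Data R A B μ T) : IsProbabilityMeasure μ := ⟨D.hprob⟩

lemma Data.eq (D : Data R A B μ T) (l : List (Fin d → ℤ)) (x : Fin d → ℝ) :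
    phiL A l x = A ^ l.length *ᵥ (x + zr (beta R l)) := phiL_eq R A D.hAR D.hRA l x

lemma Data.diff (D : Data R A B μ T) (l : List (Fin d → ℤ)) (x y : Fin d → ℝ) :
    phiL A l x - phiL A l y = A ^ l.length *ᵥ (x - y) := by
  rw [D.eq, D.eq, ← mulVec_sub]; congr 1; abel

lemma Data.card_ne (D : Data R A B μ T) : (B.card : ENNReal) ≠ 0 := by
  have := D.hB.card_pos
  exact_mod_cast this.ne'

lemma Data.cN (D : Data R A B μ T) (k : ℕ) :
    ((B.card : ENNReal)⁻¹) ^ k * (B.card : ENNReal) ^ k = 1 := by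
  rw [← mul_pow, ENNReal.inv_mul_cancel D.card_ne (ENNReal.natCast_ne_top _), one_pow]

/-- the measure lives on the attractor -/
lemma Data.supp (D : Data R A B μ T) : μ Tᶜ = 0 := by
  haveI := D.isProb
  obtain ⟨y₀, hy₀⟩ := D.hTn
  have hball : Tendsto (fun n : ℕ => μ ((Metric.closedBall (0 : Fin d → ℝ) n)ᶜ)) atTop (𝓝 0) := by
    have h1 : Tendsto (fun n : ℕ => μ ((Metric.closedBall (0 : Fin d → ℝ) n)ᶜ)) atTop
        (𝓝 (μ (⋂ n : ℕ, (Metric.closedBall (0 : Fin d → ℝ) n)ᶜ))) := by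
      apply tendsto_measure_iInter_atTop
      · intro n; exact Metric.isClosed_closedBall.measurableSet.compl.nullMeasurableSet
      · intro m n hmn
        apply Set.compl_subset_compl.mpr
        apply Metric.closedBall_subset_closedBall
        exact_mod_cast hmn
      · exact ⟨0, measure_ne_top _ _⟩
    have h2 : (⋂ n : ℕ, (Metric.closedBall (0 : Fin d → ℝ) n)ᶜ) = ∅ := by
      ext x
      simp only [Set.mem_iInter, Set.mem_compl_iff, Metric.mem_closedBall, dist_zero_right,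
        Set.mem_empty_iff_false, iff_false, not_forall, not_not]
      obtain ⟨n, hn⟩ := exists_nat_ge ‖x‖
      exact ⟨n, hn⟩
    rwa [h2, measure_empty] at h1
  have hthick : ∀ δ : ℝ, 0 < δ → μ ((Metric.thickening δ T)ᶜ) = 0 := by
    intro δ hδ
    have h1 : ∀ n : ℕ, μ ((Metric.thickening δ T)ᶜ) ≤ μ ((Metric.closedBall (0 : Fin d → ℝ) n)ᶜ) := by
      intro n
      obtain ⟨k, hk⟩ := D.hsmall (n + ‖y₀‖) δ hδ
      have hmeas : MeasurableSet ((Metric.thickening δ T)ᶜ) :=
        Metric.isOpen_thickening.measurableSet.compl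
      rw [words_measure D.hμ k _ hmeas]
      have h2 : ∀ l ∈ words B k, μ (phiL A l ⁻¹' (Metric.thickening δ T)ᶜ) ≤
          μ ((Metric.closedBall (0 : Fin d → ℝ) n)ᶜ) := by
        intro l hl
        apply measure_mono
        intro x hx
        simp only [Set.mem_compl_iff, Metric.mem_closedBall, dist_zero_right]
        intro hxn
        apply hx
        rw [Metric.mem_thickening_iff]
        refine ⟨phiL A l y₀, phiL_mem D.hT hl hy₀, ?_⟩
        rw [dist_eq_norm, D.diff, (mem_words.mp hl).1]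
        apply hk k le_rfl
        exact (norm_sub_le _ _).trans (by gcongr)
      calc ((B.card : ENNReal)⁻¹) ^ k * ∑ l ∈ words B k, μ (phiL A l ⁻¹' (Metric.thickening δ T)ᶜ)
          ≤ ((B.card : ENNReal)⁻¹) ^ k * ∑ l ∈ words B k, μ ((Metric.closedBall (0 : Fin d → ℝ) n)ᶜ) := by
            exact mul_le_mul' le_rfl (Finset.sum_le_sum h2)
        _ = μ ((Metric.closedBall (0 : Fin d → ℝ) n)ᶜ) := by
            rw [Finset.sum_const, card_words, nsmul_eq_mul, ← mul_assoc]
            push_cast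
            rw [D.cN, one_mul]
    exact le_antisymm (ge_of_tendsto' hball h1) bot_le
  have h3 : Tᶜ ⊆ ⋃ n : ℕ, (Metric.thickening (1 / ((n : ℝ) + 1)) T)ᶜ := by
    intro x hx
    have h4 : 0 < Metric.infDist x T := (D.hTc.isClosed.notMem_iff_infDist_pos ⟨y₀, hy₀⟩).mp hx
    obtain ⟨n, hn⟩ := exists_nat_one_div_lt h4
    rw [Set.mem_iUnion]
    refine ⟨n, ?_⟩
    intro hmem
    rw [Metric.mem_thickening_iff_infDist_lt ⟨y₀, hy₀⟩] at hmem
    linarith
  exact measure_mono_null h3 (measure_iUnion_null fun n => hthick _ (by positivity))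

lemma Data.diam (D : Data R A B μ T) : ∃ r : ℝ, ∀ x ∈ T, ∀ y ∈ T, ‖x - y‖ ≤ r := by
  obtain ⟨C, hC⟩ := D.hTc.isBounded.exists_norm_le
  refine ⟨C + C, fun x hx y hy => (norm_sub_le _ _).trans ?_⟩
  exact add_le_add (hC x hx) (hC y hy)

/-- some cylinder is isolated from the other ones of its level -/
lemma Data.isolated (D : Data R A B μ T) (k : ℕ) : ∃ w ∈ words B k, ∃ K : ℕ, ∃ s ∈ words B K,
    ∀ u ∈ words B k, u ≠ w → ∀ x ∈ T, ∀ y ∈ T, phiL A (w ++ s) x ≠ phiL A u y := by
  obtain ⟨f, hf⟩ := exists_generic B A D.hA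
  have hfc : Continuous f := f.continuous_of_finiteDimensional
  obtain ⟨x₀, hx₀, hmax⟩ := D.hTc.exists_isMaxOn D.hTn hfc.continuousOn
  obtain ⟨w, hw, z, hz, hwz⟩ := exists_word D.hT k hx₀
  set C : Set (Fin d → ℝ) := ⋃ u ∈ (words B k).filter (fun u => u ≠ w), phiL A u '' T with hC
  have hCclosed : IsClosed C := by
    rw [hC]
    apply Set.Finite.isClosed_biUnion (Finset.finite_toSet _)
    intro u _
    exact (D.hTc.image (phiL_cont A u)).isClosed
  have hxC : x₀ ∉ C := by
    intro h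
    rw [hC] at h
    simp only [Set.mem_iUnion, Set.mem_image, exists_prop, Finset.mem_filter] at h
    obtain ⟨u, ⟨hu, hne⟩, y, hy, huy⟩ := h
    exact hne (word_unique D.hT D.hA k f hf x₀ (fun x hx => hmax hx) u hu w hw y hy z hz huy hwz)
  obtain ⟨ε, hε, hball⟩ := Metric.isOpen_iff.mp hCclosed.isOpen_compl x₀ hxC
  obtain ⟨r, hr⟩ := D.diam
  obtain ⟨K, hK⟩ := D.hsmall r ε hε
  obtain ⟨s, hs, y₁, hy₁, hsy⟩ := exists_word D.hT K hz
  refine ⟨w, hw, K, s, hs, ?_⟩
  intro u hu hne x hx y hy h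
  have h1 : phiL A (w ++ s) x ∈ Metric.ball x₀ ε := by
    rw [mem_ball_iff_norm]
    have h2 : x₀ = phiL A (w ++ s) y₁ := by rw [phiL_append, hsy, hwz]
    conv_lhs => rw [h2]
    rw [D.diff]
    apply hK
    · rw [List.length_append, (mem_words.mp hs).1]; omega
    · exact hr x hx y₁ hy₁
  apply hball h1
  rw [h, hC]
  simp only [Set.mem_iUnion, Set.mem_image, exists_prop, Finset.mem_filter]
  exact ⟨u, ⟨hu, hne⟩, y, hy, rfl⟩

/-- spectrality, in the form used below -/
def TwoFree (μ : Measure (Fin d → ℝ)) : Prop :=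
  ∀ (S : Set (Fin d → ℝ)), MeasurableSet S → ∀ t : Fin d → ℝ,
    (∀ E ⊆ S, MeasurableSet E → 2 * μ E ≤ μ ((fun x => x - t) ⁻¹' E)) → μ S = 0

/-- distinct words of the same length have distinct integer translations -/
lemma Data.distinct (D : Data R A B μ T) (hU : TwoFree μ) (k : ℕ) :
    ∀ l ∈ words B k, ∀ l' ∈ words B k, beta R l = beta R l' → l = l' := by
  intro l hl l' hl' hβ
  by_contra hne
  haveI := D.isProb
  obtain ⟨w, hw, K, s, hs, hiso⟩ := D.isolated k
  set F : Set (Fin d → ℝ) := phiL A (w ++ s) '' T with hF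
  have hFm : MeasurableSet F := (D.hTc.image (phiL_cont A _)).isClosed.measurableSet
  set t : Fin d → ℝ := A ^ k *ᵥ (zr (beta R l) - zr (beta R w)) with ht
  have hlk := (mem_words.mp hl).1
  have hlk' := (mem_words.mp hl').1
  have hwk := (mem_words.mp hw).1
  have hlw : ∀ x, phiL A l x - t = phiL A w x := by
    intro x
    rw [D.eq, D.eq, hlk, hwk, ht, ← mulVec_sub]
    congr 1; abel
  have hlw' : ∀ x, phiL A l' x - t = phiL A w x := by
    intro x
    rw [D.eq, D.eq, hlk', hwk, ← hβ, ht, ← mulVec_sub]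
    congr 1; abel
  have h0 := hU F hFm t (by
    intro E hEF hE
    have hmeas' : Measurable (fun x : Fin d → ℝ => x - t) := measurable_sub_const t
    rw [words_measure D.hμ k E hE, words_measure D.hμ k _ (hmeas' hE)]
    have h1 : ∑ u ∈ words B k, μ (phiL A u ⁻¹' E) = μ (phiL A w ⁻¹' E) := by
      rw [Finset.sum_eq_single w]
      · intro u hu hne
        apply measure_mono_null _ D.supp
        intro x hx hxT
        obtain ⟨y, hy, hyx⟩ := hEF hx
        exact hiso u hu hne y hy x hxT hyx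
      · intro h; exact absurd hw h
    have h2 : 2 * μ (phiL A w ⁻¹' E) ≤ ∑ u ∈ words B k, μ (phiL A u ⁻¹' ((fun x => x - t) ⁻¹' E)) := by
      have h3 : ∑ u ∈ ({l, l'} : Finset (List (Fin d → ℤ))), μ (phiL A u ⁻¹' ((fun x => x - t) ⁻¹' E)) =
          2 * μ (phiL A w ⁻¹' E) := by
        rw [Finset.sum_pair hne, two_mul]
        congr 1
        · congr 1; ext x; simp only [Set.mem_preimage, hlw]
        · congr 1; ext x; simp only [Set.mem_preimage, hlw']
      rw [← h3]
      apply Finset.sum_le_sum_of_subset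
      intro u hu
      rcases Finset.mem_insert.mp hu with h | h
      · rw [h]; exact hl
      · rw [Finset.mem_singleton.mp h]; exact hl'
    rw [h1]
    calc 2 * (((B.card : ENNReal)⁻¹) ^ k * μ (phiL A w ⁻¹' E))
        = ((B.card : ENNReal)⁻¹) ^ k * (2 * μ (phiL A w ⁻¹' E)) := by ring
      _ ≤ _ := by gcongr)
  have hws : w ++ s ∈ words B (k + K) := append_mem_words hw hs
  have h4 : ((B.card : ENNReal)⁻¹) ^ (k + K) * 1 ≤ μ F := by
    rw [words_measure D.hμ (k + K) F hFm]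
    gcongr
    refine le_trans ?_ (Finset.single_le_sum (f := fun u => μ (phiL A u ⁻¹' F)) (fun _ _ => bot_le) hws)
    have h5 : T ⊆ phiL A (w ++ s) ⁻¹' F := fun x hx => ⟨x, hx, rfl⟩
    refine le_trans ?_ (measure_mono h5)
    have h6 : μ T + μ Tᶜ = 1 := by
      rw [measure_add_measure_compl D.hTc.isClosed.measurableSet, D.hprob]
    rw [D.supp, add_zero] at h6
    exact h6.ge
  rw [h0, mul_one] at h4
  have h7 : ((B.card : ENNReal)⁻¹) ^ (k + K) ≠ 0 :=
    pow_ne_zero _ (ENNReal.inv_ne_zero.mpr (ENNReal.natCast_ne_top _))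
  exact h7 (le_antisymm h4 bot_le)

/-- the integer vectors which are differences of points of `T` -/
def Zf (T : Set (Fin d → ℝ)) : Set (Fin d → ℤ) := {z | ∃ a ∈ T, ∃ a' ∈ T, a - a' = zr z}

lemma Data.Zf_finite (D : Data R A B μ T) : (Zf T).Finite := by
  obtain ⟨r, hr⟩ := D.diam
  refine (Set.finite_Icc (fun _ : Fin d => -⌈r⌉) (fun _ : Fin d => ⌈r⌉)).subset ?_
  rintro z ⟨a, ha, a', ha', h⟩
  have h1 : ∀ i, |(z i : ℝ)| ≤ r := by
    intro i
    have h2 := norm_le_pi_norm (a - a') i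
    have h3 := hr a ha a' ha'
    rw [h] at h2 h3
    simpa [zr] using h2.trans h3
  constructor
  · intro i
    have h2 := (abs_le.mp (h1 i)).1
    have h3 := Int.le_ceil r
    have h4 : -((⌈r⌉ : ℤ) : ℝ) ≤ z i := by linarith
    exact_mod_cast h4
  · intro i
    have h2 := (abs_le.mp (h1 i)).2
    have h3 := Int.le_ceil r
    have h4 : (z i : ℝ) ≤ ((⌈r⌉ : ℤ) : ℝ) := by linarith
    exact_mod_cast h4

open Classical in
/-- words whose cylinder contains the point `phiL A p y` -/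
noncomputable def Nb (A : Matrix (Fin d) (Fin d) ℝ) (B : Finset (Fin d → ℤ)) (T : Set (Fin d → ℝ))
    (p : List (Fin d → ℤ)) (y : Fin d → ℝ) : Finset (List (Fin d → ℤ)) :=
  (words B p.length).filter fun u => ∃ a ∈ T, phiL A u a = phiL A p y

lemma mem_Nb {p u : List (Fin d → ℤ)} {y : Fin d → ℝ} :
    u ∈ Nb A B T p y ↔ u ∈ words B p.length ∧ ∃ a ∈ T, phiL A u a = phiL A p y := by
  simp only [Nb, Finset.mem_filter]

lemma Data.key (D : Data R A B μ T) {p u : List (Fin d → ℤ)} (hlen : u.length = p.length)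
    {a y : Fin d → ℝ} : phiL A u a = phiL A p y ↔ y - a = zr (beta R u - beta R p) := by
  rw [D.eq, D.eq, hlen, zr_sub]
  constructor
  · intro h
    have := D.hAn _ h
    have h2 : a + zr (beta R u) = y + zr (beta R p) := this
    rw [sub_eq_sub_iff_add_eq_add, add_comm (zr (beta R u)), ← h2]
  · intro h
    congr 1
    rw [sub_eq_sub_iff_add_eq_add] at h
    rw [h, add_comm]

lemma Data.Nb_card (D : Data R A B μ T) (hU : TwoFree μ) (p : List (Fin d → ℤ)) {y : Fin d → ℝ}
    (hy : y ∈ T) : (Nb A B T p y).card ≤ D.Zf_finite.toFinset.card := by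
  apply Finset.card_le_card_of_injOn (fun u => beta R u - beta R p)
  · intro u hu
    rw [Finset.mem_coe, mem_Nb] at hu
    obtain ⟨hu1, a, ha, h⟩ := hu
    rw [D.key (mem_words.mp hu1).1] at h
    rw [Finset.mem_coe, Set.Finite.mem_toFinset]
    exact ⟨y, hy, a, ha, h⟩
  · intro u hu u' hu' h
    rw [Finset.mem_coe, mem_Nb] at hu hu'
    simp only [sub_left_inj] at h
    exact D.distinct hU _ u hu.1 u' hu'.1 h

/-- The main theorem: the pieces overlap in measure zero. -/
theorem Data.main (D : Data R A B μ T) (hU : TwoFree μ) (b : Fin d → ℤ) (hb : b ∈ B)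
    (b' : Fin d → ℤ) (hb' : b' ∈ B) (hbb : b ≠ b') : μ (phi A b '' T ∩ phi A b' '' T) = 0 := by
  classical
  haveI := D.isProb
  -- choose a word and a point with the maximal number of neighbours
  let P : ℕ → Prop := fun n => ∃ k, ∃ p ∈ words B k, ∃ y ∈ T, (Nb A B T p y).card = n
  obtain ⟨y₀, hy₀⟩ := D.hTn
  have hP0 : ∃ n, P n := ⟨_, 0, [], by simp [words], y₀, hy₀, rfl⟩
  obtain ⟨n0, hn0⟩ := hP0
  have hbd : ∀ n, P n → n ≤ D.Zf_finite.toFinset.card := by
    rintro n ⟨k, p, hp, y, hy, rfl⟩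
    exact D.Nb_card hU p hy
  set n := Nat.findGreatest P D.Zf_finite.toFinset.card with hn
  have hPn : P n := Nat.findGreatest_spec (hbd n0 hn0) hn0
  have hmaxn : ∀ n', P n' → n' ≤ n := fun n' h => Nat.le_findGreatest (hbd n' h) h
  obtain ⟨m, p, hp, y, hy, hcard⟩ := hPn
  have hpm := (mem_words.mp hp).1
  -- claim 1
  have claim1 : ∀ j, ∀ q ∈ words B j, Nb A B T (q ++ p) y = (Nb A B T p y).image (fun u => q ++ u) := by
    intro j q hq
    symm
    apply Finset.eq_of_subset_of_card_le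
    · intro u hu
      rw [Finset.mem_image] at hu
      obtain ⟨v, hv, rfl⟩ := hu
      rw [mem_Nb] at hv ⊢
      obtain ⟨hv1, a, ha, h⟩ := hv
      refine ⟨?_, a, ha, ?_⟩
      · rw [List.length_append, (mem_words.mp hq).1]
        exact append_mem_words hq hv1
      · rw [phiL_append, phiL_append, h]
    · rw [Finset.card_image_of_injective _ (List.append_right_injective q), hcard]
      exact hmaxn _ ⟨j + m, q ++ p, append_mem_words hq hp, y, hy, rfl⟩
  -- claim 2
  have claim2 : ∀ᶠ y' in 𝓝 y, ∀ z ∈ Zf T, (y' - zr z ∈ T → y - zr z ∈ T) := by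
    rw [Filter.eventually_all_finite D.Zf_finite]
    intro z _
    by_cases h : y - zr z ∈ T
    · exact Eventually.of_forall fun _ _ => h
    · have h1 : IsOpen {y' : Fin d → ℝ | y' - zr z ∈ Tᶜ} :=
        D.hTc.isClosed.isOpen_compl.preimage (continuous_id.sub continuous_const)
      filter_upwards [h1.mem_nhds h] with y' hy' h2
      exact absurd h2 hy'
  obtain ⟨δ, hδ, hδb⟩ := Metric.eventually_nhds_iff.mp claim2
  -- claim 3
  have claim3 : ∀ j, ∀ q ∈ words B j, ∀ y' ∈ T, dist y' y < δ → ∀ u ∈ words B (j + m),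
      (∃ a ∈ T, phiL A u a = phiL A (q ++ p) y') → ∃ v, u = q ++ v := by
    intro j q hq y' hy' hd u hu ⟨a, ha, h⟩
    have hlen : u.length = (q ++ p).length := by
      rw [(mem_words.mp hu).1, List.length_append, (mem_words.mp hq).1, hpm]
    rw [D.key hlen] at h
    have hz : beta R u - beta R (q ++ p) ∈ Zf T := ⟨y', hy', a, ha, h⟩
    have h2 : y' - zr (beta R u - beta R (q ++ p)) ∈ T := by
      rw [← h]; simpa using ha
    have h3 := hδb hd _ hz h2
    have h4 : u ∈ Nb A B T (q ++ p) y := by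
      rw [mem_Nb]
      refine ⟨?_, _, h3, ?_⟩
      · rw [← hlen]; exact mem_words.mpr ⟨rfl, (mem_words.mp hu).2⟩
      · rw [D.key hlen]; simp
    rw [claim1 j q hq, Finset.mem_image] at h4
    obtain ⟨v, _, hv⟩ := h4
    exact ⟨v, hv.symm⟩
  -- claim 4
  obtain ⟨r, hr⟩ := D.diam
  obtain ⟨K, hK⟩ := D.hsmall r δ hδ
  obtain ⟨s, hs, a₀, ha₀, hsa⟩ := exists_word D.hT K hy
  have claim4 : ∀ x ∈ T, dist (phiL A s x) y < δ := by
    intro x hx
    rw [dist_eq_norm, ← hsa, D.diff]
    exact hK _ (by rw [(mem_words.mp hs).1]) _ (hr x hx a₀ ha₀)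
  -- claim 5
  have claim5 : ∀ j, ∀ q ∈ words B (j + 1), ∀ x ∈ T,
      phiL A (q ++ (p ++ s)) x ∉ phi A b '' T ∩ phi A b' '' T := by
    intro j q hq x hx hmem
    have h1 : phiL A (q ++ (p ++ s)) x = phiL A (q ++ p) (phiL A s x) := by
      rw [← List.append_assoc, phiL_append]
    rw [h1] at hmem
    have hsx : phiL A s x ∈ T := phiL_mem D.hT hs hx
    have h2 : ∀ c ∈ B, phiL A (q ++ p) (phiL A s x) ∈ phi A c '' T → ∃ v, q = c :: v := by
      intro c hc ⟨a₁, ha₁, hca⟩
      obtain ⟨v, hv, a₂, ha₂, hva⟩ := exists_word D.hT (j + m) ha₁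
      have h3 : c :: v ∈ words B (j + 1 + m) := by
        rw [mem_words] at hv ⊢
        refine ⟨by simp [hv.1]; omega, ?_⟩
        intro e he
        rcases List.mem_cons.mp he with h | h
        · rw [h]; exact hc
        · exact hv.2 e h
      obtain ⟨v', hv'⟩ := claim3 (j + 1) q hq _ hsx (claim4 x hx) (c :: v) h3
        ⟨a₂, ha₂, by simp only [phiL, Function.comp]; rw [hva, hca]⟩
      cases q with
      | nil =>
        have := (mem_words.mp hq).1
        simp at this
      | cons e q' =>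
        simp only [List.cons_append, List.cons.injEq] at hv'
        exact ⟨q', by rw [hv'.1]⟩
    obtain ⟨v, hv⟩ := h2 b hb hmem.1
    obtain ⟨v', hv'⟩ := h2 b' hb' hmem.2
    rw [hv] at hv'
    exact hbb (List.cons.inj hv').1
  -- claim 6
  set U : Set (Fin d → ℝ) := ⋃ j : ℕ, ⋃ q ∈ words B (j + 1), phiL A (q ++ (p ++ s)) '' T with hUdef
  have hUm : MeasurableSet U := by
    apply MeasurableSet.iUnion
    intro j
    apply Finset.measurableSet_biUnion
    intro q _
    exact (D.hTc.image (phiL_cont A _)).isClosed.measurableSet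
  have hsub : phi A b '' T ∩ phi A b' '' T ⊆ Uᶜ := by
    intro x hx hxU
    rw [hUdef] at hxU
    simp only [Set.mem_iUnion, Set.mem_image, exists_prop] at hxU
    obtain ⟨j, q, hq, x', hx', rfl⟩ := hxU
    exact claim5 j q hq x' hx' hx
  apply measure_mono_null hsub
  set L : ℕ := 1 + (m + K) with hL
  have hps : p ++ s ∈ words B (m + K) := append_mem_words hp hs
  set l₀ : List (Fin d → ℤ) := [b] ++ (p ++ s) with hl₀
  have hb1 : [b] ∈ words B (0 + 1) := by
    rw [mem_words]; simp [hb]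
  have hl₀w : l₀ ∈ words B L := by
    rw [hl₀, hL]; exact append_mem_words (k := 1) hb1 hps
  have h1 := words_measure D.hμ L Uᶜ hUm.compl
  have h2 : ∀ l ∈ words B L, μ (phiL A l ⁻¹' Uᶜ) ≤ μ Uᶜ := by
    intro l hl
    apply measure_mono
    intro x hx hxU
    apply hx
    rw [hUdef] at hxU ⊢
    simp only [Set.mem_iUnion, Set.mem_image, exists_prop] at hxU ⊢
    obtain ⟨j, q, hq, x', hx', rfl⟩ := hxU
    refine ⟨L + j, l ++ q, ?_, x', hx', ?_⟩
    · exact append_mem_words (k := L) (m := j + 1) hl hq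
    · rw [List.append_assoc, phiL_append]
  have h3 : μ (phiL A l₀ ⁻¹' Uᶜ) = 0 := by
    apply measure_mono_null _ D.supp
    intro x hx hxT
    apply hx
    rw [hUdef]
    simp only [Set.mem_iUnion, Set.mem_image, exists_prop]
    exact ⟨0, [b], hb1, x, hxT, rfl⟩
  have h4 : ∑ l ∈ words B L, μ (phiL A l ⁻¹' Uᶜ) ≤ ((words B L).erase l₀).card * μ Uᶜ := by
    rw [← Finset.add_sum_erase _ _ hl₀w, h3, zero_add, ← nsmul_eq_mul, ← Finset.sum_const]
    apply Finset.sum_le_sum
    intro l hl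
    exact h2 l (Finset.mem_of_mem_erase hl)
  have h5 : (B.card : ENNReal) ^ L * μ Uᶜ ≤ ((words B L).erase l₀).card * μ Uᶜ := by
    calc (B.card : ENNReal) ^ L * μ Uᶜ
        = (((B.card : ENNReal)⁻¹) ^ L * (B.card : ENNReal) ^ L) *
          ∑ l ∈ words B L, μ (phiL A l ⁻¹' Uᶜ) := by rw [h1]; ring
      _ = ∑ l ∈ words B L, μ (phiL A l ⁻¹' Uᶜ) := by rw [D.cN, one_mul]
      _ ≤ _ := h4
  by_contra hne
  have h6 : (B.card : ENNReal) ^ L ≤ ((words B L).erase l₀).card := by
    rwa [ENNReal.mul_le_mul_iff_left hne (measure_ne_top _ _)] at h5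
  have h7 : B.card ^ L ≤ ((words B L).erase l₀).card := by exact_mod_cast h6
  rw [Finset.card_erase_of_mem hl₀w, card_words] at h7
  have h8 : 0 < B.card ^ L := Nat.pow_pos D.hB.card_pos
  omega

end Pool.Agent.H337R3.Ovl
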