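import Pool.Agent.H952R3.Ext.Stmts

/-!
Task D of the project H952-RADON.
-/

set_option autoImplicit false

namespace Pool.Agent.H337R3.RadonD

open Pool.Agent.Helper766.Rad
open Pool.Agent.H952R3.Ext

theorem arith_choose' (Q r n : ℕ) (hr : 4 ≤ r) (hQ : 4 ≤ Q) (h : Q * r + 1 ≤ 2 * n) :
    ∃ j : ℕ, (Q : ℤ) * (Q - 1) < (j : ℤ) * (2 * ((n : ℤ) - 1) - (j + 1) * ((r : ℤ) - 1)) := by
  have hr' : (4 : ℤ) ≤ r := by exact_mod_cast hr
  obtain ⟨s, hs | hs⟩ : ∃ s, Q = 2 * s ∨ Q = 2 * s + 1 := ⟨Q / 2, by omega⟩
  · refine ⟨s, ?_⟩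
    subst hs
    have hs2 : (2 : ℤ) ≤ s := by
      have : 2 ≤ s := by omega
      exact_mod_cast this
    have h1 : s * r + 1 ≤ n := by nlinarith
    have h2 : (s : ℤ) * r + 1 ≤ n := by exact_mod_cast h1
    push_cast
    have h6 : 0 < (s : ℤ) * (((s : ℤ) - 1) * ((r : ℤ) - 3)) :=
      mul_pos (by linarith) (mul_pos (by linarith) (by linarith))
    have h7 : 0 ≤ (s : ℤ) * ((n : ℤ) - 1 - s * r) := mul_nonneg (by linarith) (by linarith)
    nlinarith
  · subst hs
    have hs2' : 2 ≤ s := by omega
    have hs2 : (2 : ℤ) ≤ s := by exact_mod_cast hs2'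
    refine ⟨s, ?_⟩
    have h7 : (2 * (s : ℤ) + 1) * r + 1 ≤ 2 * n := by exact_mod_cast h
    by_cases hex : s = 2 ∧ r = 4
    · obtain ⟨rfl, rfl⟩ := hex
      have h8 : (11 : ℤ) ≤ n := by
        have : 11 ≤ n := by omega
        exact_mod_cast this
      push_cast
      linarith
    · have h3 : (2 : ℤ) < s * (r - 3) := by
        rcases Nat.lt_or_ge r 5 with h5 | h5
        · have hr4 : r = 4 := by omega
          have hs3 : 3 ≤ s := by
            by_contra hlt
            exact hex ⟨by omega, hr4⟩
          have hs3' : (3 : ℤ) ≤ s := by exact_mod_cast hs3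
          rw [hr4]
          push_cast
          linarith
        · have h5' : (5 : ℤ) ≤ r := by exact_mod_cast h5
          nlinarith
      push_cast
      have h9 : 0 ≤ (s : ℤ) * (2 * (n : ℤ) - 1 - (2 * s + 1) * r) :=
        mul_nonneg (by linarith) (by linarith)
      have h10 : 0 < (s : ℤ) * (s * (r - 3) - 2) := mul_pos (by linarith) (by linarith)
      nlinarith

/-- **Task D.** -/
theorem t (hC : TaskC) : TaskD := by
  intro ι _ M E hs hc hr q hq
  have hrc := r_le_card M E
  have h2 : 2 ≤ E.card := by omega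
  obtain ⟨x, hx⟩ : E.Nonempty := by rw [← Finset.card_pos]; omega
  have hce := Finset.card_erase_add_one hx
  have hcx := card_circs_del M E x
  have hrx := (hc.nl h2 hx).2
  have hrc1 := r_le_card M (E.erase x)
  have hnu := hc.nullity_le hx
  have hsx := hs.subset (Finset.erase_subset x E)
  have hcZ : ((E.erase x).card : ℤ) = E.card - 1 := by
    have : ((E.erase x).card : ℤ) + 1 = E.card := by exact_mod_cast hce
    linarith
  have hcxZ : ((circs M E).card : ℤ) = (circs M (E.erase x)).card + cx M E x := by
    exact_mod_cast hcx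
  have hr' : (4 : ℤ) ≤ M.r E := by exact_mod_cast hr
  induction q, hq using Nat.le_induction with
  | base =>
    have hnn : (0 : ℤ) ≤ (circs M E).card := by positivity
    rcases Nat.lt_or_ge E.card (M.r E + 2) with h | h
    · have h1 : (E.card : ℤ) = M.r E + 1 := by
        have : E.card = M.r E + 1 := by omega
        exact_mod_cast this
      rw [h1]
      push_cast
      linarith
    rcases Nat.lt_or_ge E.card (M.r E + 3) with h | h
    · have h1 : E.card = M.r E + 2 := by omega
      have h1' : (E.card : ℤ) = M.r E + 2 := by exact_mod_cast h1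
      have h3 := main_even hsx 2 (M := M)
      rw [hrx, hcZ, h1'] at h3
      have h4 : (2 : ℤ) ≤ cx M E x := by
        have : 2 ≤ cx M E x := by omega
        exact_mod_cast this
      rw [h1']
      push_cast at h3 ⊢
      rw [hcxZ]
      linarith
    rcases Nat.lt_or_ge E.card (M.r E + 4) with h | h
    · have h1 : E.card = M.r E + 3 := by omega
      have h1' : (E.card : ℤ) = M.r E + 3 := by exact_mod_cast h1
      have h3 : (6 : ℤ) ≤ (circs M E).card := by exact_mod_cast hC ι M E hs hc h1
      rw [h1']
      push_cast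
      linarith
    · have h3 := main_even hsx 3 (M := M)
      rw [hrx, hcZ] at h3
      have h4 : (4 : ℤ) ≤ cx M E x := by
        have : 4 ≤ cx M E x := by omega
        exact_mod_cast this
      rw [hcxZ]
      push_cast at h3 ⊢
      linarith
  | succ q hq ihq =>
    rcases Nat.lt_or_ge (2 * E.card) ((q + 1) * M.r E + 1) with hsm | hbg
    · refine lt_of_le_of_lt ?_ ihq
      push_cast
      apply arith_even_red q E.card (M.r E) (by positivity)
      have : 2 * E.card ≤ (q + 1) * M.r E := by omega
      exact_mod_cast this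
    · clear ihq
      obtain ⟨j, hj⟩ := arith_choose' (q + 1) (M.r E) E.card hr (by omega) (by omega)
      have i1 := main_even hsx (q + 1) (M := M)
      have i2 := lemmaA hs hc h2 hx j
      have i3 := hj.trans_le i2
      rw [hrx, hcZ] at i1
      rw [hcxZ]
      push_cast at i1 i3 ⊢
      nlinarith

end Pool.Agent.H337R3.RadonD
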