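import Mathlib

set_option autoImplicit false

namespace Pool.Agent.H337R3.Ritt

open Finset

/-- one convolution step -/
noncomputable def T (p : ℤ → ℝ) (f : ℤ → ℝ) : ℤ → ℝ := fun m => ∑' j : ℤ, f j * p (m - j)

/-- the character -/
noncomputable def ee (t : ℝ) (n : ℤ) : ℂ := Complex.exp (Complex.I * (t : ℂ) * (n : ℂ))

lemma norm_ee (t : ℝ) (n : ℤ) : ‖ee t n‖ = 1 := by
  unfold ee
  have : Complex.I * (t : ℂ) * (n : ℂ) = ((t * n : ℝ) : ℂ) * Complex.I := by
    push_cast; ring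
  rw [this]
  exact Complex.norm_exp_ofReal_mul_I _

lemma ee_add (t : ℝ) (m n : ℤ) : ee t (m + n) = ee t m * ee t n := by
  unfold ee
  rw [← Complex.exp_add]
  congr 1
  push_cast
  ring

/-- the Fourier transform -/
noncomputable def FT (f : ℤ → ℝ) (t : ℝ) : ℂ := ∑' n : ℤ, (f n : ℂ) * ee t n

/-- the change of variables `(m, j) ↦ (j, m - j)` -/
def σ : ℤ × ℤ ≃ ℤ × ℤ where
  toFun x := (x.2, x.1 - x.2)
  invFun y := (y.1 + y.2, y.1)
  left_inv x := by simp
  right_inv y := by simp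

lemma summable_pair {p f : ℤ → ℝ} (hp : Summable fun n => |p n|) (hf : Summable fun n => |f n|) :
    Summable fun x : ℤ × ℤ => |f x.2| * |p (x.1 - x.2)| := by
  have h1 : Summable fun x : ℤ × ℤ => |f x.1| * |p x.2| :=
    hf.mul_of_nonneg hp (fun _ => abs_nonneg _) (fun _ => abs_nonneg _)
  exact (σ.summable_iff (f := fun x : ℤ × ℤ => |f x.1| * |p x.2|)).mpr h1

lemma T_summable {p f : ℤ → ℝ} (hp : Summable fun n => |p n|) (hf : Summable fun n => |f n|) :
    Summable fun n => |T p f n| := by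
  have h1 := summable_pair hp hf
  refine Summable.of_nonneg_of_le (fun _ => abs_nonneg _) (fun m => ?_) h1.prod
  unfold T
  have h2 := h1.prod_factor m
  have h3 : Summable fun j => ‖f j * p (m - j)‖ := by
    simpa [abs_mul] using h2
  have h4 := norm_tsum_le_tsum_norm h3
  simpa [abs_mul] using h4

lemma FT_summable {f : ℤ → ℝ} (hf : Summable fun n => |f n|) (t : ℝ) :
    Summable fun n : ℤ => ‖(f n : ℂ) * ee t n‖ := by
  refine hf.congr fun n => ?_
  rw [norm_mul, norm_ee, mul_one, Complex.norm_real, Real.norm_eq_abs]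

lemma FT_T {p f : ℤ → ℝ} (hp : Summable fun n => |p n|) (hf : Summable fun n => |f n|) (t : ℝ) :
    FT (T p f) t = FT f t * FT p t := by
  unfold FT
  rw [tsum_mul_tsum_of_summable_norm (FT_summable hf t) (FT_summable hp t)]
  set F : ℤ × ℤ → ℂ := fun z => ((f z.1 : ℂ) * ee t z.1) * ((p z.2 : ℂ) * ee t z.2) with hF
  have hs : Summable F :=
    summable_mul_of_summable_norm (f := fun n : ℤ => (f n : ℂ) * ee t n)
      (g := fun n : ℤ => (p n : ℂ) * ee t n) (FT_summable hf t) (FT_summable hp t)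
  have hs' : Summable (F ∘ σ) := σ.summable_iff.mpr hs
  have h0 : ∑' z, F z = ∑' z, (F ∘ σ) z := (σ.tsum_eq F).symm
  rw [h0, hs'.tsum_prod]
  apply tsum_congr
  intro m
  have h1 : ∀ j : ℤ, (F ∘ σ) (m, j) = ((f j * p (m - j) : ℝ) : ℂ) * ee t m := by
    intro j
    have h2 : ee t m = ee t j * ee t (m - j) := by rw [← ee_add]; congr 1; ring
    show ((f j : ℂ) * ee t j) * ((p (m - j) : ℂ) * ee t (m - j)) = _
    rw [h2]; push_cast; ring
  rw [tsum_congr h1, tsum_mul_right]
  congr 1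
  unfold T
  rw [Complex.ofReal_tsum]

/-- the unit mass at `0` -/
def δ0 : ℤ → ℝ := fun m => if m = 0 then 1 else 0

lemma δ0_summable : Summable fun n => |δ0 n| := by
  apply summable_of_ne_finset_zero (s := {0})
  intro n hn
  simp at hn
  simp [δ0, hn]

lemma iter_summable {p : ℤ → ℝ} (hp : Summable fun n => |p n|) (n : ℕ) :
    Summable fun k => |(T p)^[n] δ0 k| := by
  induction n with
  | zero => exact δ0_summable
  | succ n ih =>
    rw [Function.iterate_succ', Function.comp]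
    exact T_summable hp ih

lemma iter_FT {p : ℤ → ℝ} (hp : Summable fun n => |p n|) (n : ℕ) (t : ℝ) :
    FT ((T p)^[n] δ0) t = FT p t ^ n := by
  induction n with
  | zero =>
    simp only [Function.iterate_zero, id, pow_zero]
    unfold FT
    rw [tsum_eq_single 0]
    · simp [δ0, ee]
    · intro n hn; simp [δ0, hn]
  | succ n ih =>
    rw [Function.iterate_succ', Function.comp, FT_T hp (iter_summable hp n), ih, pow_succ]

/-- The crude bound `‖q_n‖ ≤ ‖p‖^n`. -/
lemma T_norm_le {p f : ℤ → ℝ} (hp : Summable fun n => |p n|) (hp1 : ∑' n, |p n| = 1)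
    (hf : Summable fun n => |f n|) : ∑' n, |T p f n| ≤ ∑' n, |f n| := by
  have h1 := summable_pair hp hf
  have h2 : ∀ m, |T p f m| ≤ ∑' j, |f j| * |p (m - j)| := by
    intro m
    unfold T
    have h2 := h1.prod_factor m
    have h3 : Summable fun j => ‖f j * p (m - j)‖ := by
      simpa [abs_mul] using h2
    have h4 := norm_tsum_le_tsum_norm h3
    simpa [abs_mul] using h4
  have h3 := (T_summable hp hf).tsum_le_tsum h2 h1.prod
  refine h3.trans (le_of_eq ?_)
  rw [← h1.tsum_prod]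
  have h4 : Summable fun x : ℤ × ℤ => |f x.1| * |p x.2| :=
    hf.mul_of_nonneg hp (fun _ => abs_nonneg _) (fun _ => abs_nonneg _)
  have h5 := σ.tsum_eq (fun x : ℤ × ℤ => |f x.1| * |p x.2|)
  have h6 : (∑' x : ℤ × ℤ, |f x.2| * |p (x.1 - x.2)|) = ∑' x : ℤ × ℤ, |f x.1| * |p x.2| := h5
  rw [h6, h4.tsum_prod]
  simp_rw [tsum_mul_left, hp1, mul_one]

lemma iter_norm_le {p : ℤ → ℝ} (hp : Summable fun n => |p n|) (hp1 : ∑' n, |p n| = 1) (n : ℕ) :
    ∑' k, |(T p)^[n] δ0 k| ≤ 1 := by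
  induction n with
  | zero =>
    simp only [Function.iterate_zero, id]
    rw [tsum_eq_single 0]
    · simp [δ0]
    · intro n hn; simp [δ0, hn]
  | succ n ih =>
    rw [Function.iterate_succ', Function.comp]
    exact (T_norm_le hp hp1 (iter_summable hp n)).trans ih

/-- Testing against a bounded trigonometric polynomial. -/
lemma test_bound {p : ℤ → ℝ} (hp : Summable fun n => |p n|) {ι : Type} (S : Finset ι)
    (c : ι → ℂ) (θ : ι → ℝ) (B : ℝ) (hB : ∀ k : ℤ, ‖∑ e ∈ S, c e * ee (θ e) k‖ ≤ B) (n : ℕ) :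
    ‖∑ e ∈ S, c e * (FT p (θ e) ^ n - FT p (θ e) ^ (n + 1))‖ ≤
      B * ∑' k, |(T p)^[n] δ0 k - (T p)^[n + 1] δ0 k| := by
  set q : ℤ → ℝ := fun k => (T p)^[n] δ0 k - (T p)^[n + 1] δ0 k with hq
  have h0 := iter_summable hp n
  have h1 := iter_summable hp (n + 1)
  have hqs : Summable fun k => |q k| := by
    refine Summable.of_nonneg_of_le (fun _ => abs_nonneg _) (fun k => ?_) (h0.add h1)
    exact abs_sub _ _
  have h2 : ∀ t, FT q t = FT p t ^ n - FT p t ^ (n + 1) := by
    intro t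
    rw [← iter_FT hp, ← iter_FT hp]
    unfold FT
    rw [← ((FT_summable h0 t).of_norm).tsum_sub ((FT_summable h1 t).of_norm)]
    apply tsum_congr
    intro k
    rw [hq]; push_cast; ring
  simp_rw [← h2]
  have h3 : ∑ e ∈ S, c e * FT q (θ e) = ∑' k : ℤ, (q k : ℂ) * ∑ e ∈ S, c e * ee (θ e) k := by
    unfold FT
    simp_rw [← tsum_mul_left, Finset.mul_sum]
    rw [Summable.tsum_finsetSum]
    · apply Finset.sum_congr rfl
      intro e _
      apply tsum_congr
      intro k
      ring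
    · intro e _
      have := ((FT_summable hqs (θ e)).of_norm).mul_left (c e)
      refine this.congr fun k => ?_
      ring
  rw [h3]
  have h4 : Summable fun k : ℤ => ‖(q k : ℂ) * ∑ e ∈ S, c e * ee (θ e) k‖ := by
    refine Summable.of_nonneg_of_le (fun _ => norm_nonneg _) (fun k => ?_) (hqs.mul_left B)
    rw [norm_mul, Complex.norm_real, Real.norm_eq_abs, mul_comm]
    exact mul_le_mul_of_nonneg_right (hB k) (abs_nonneg _)
  refine (norm_tsum_le_tsum_norm h4).trans ?_
  rw [← tsum_mul_left]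
  refine h4.tsum_le_tsum (fun k => ?_) (hqs.mul_left B)
  rw [norm_mul, Complex.norm_real, Real.norm_eq_abs, mul_comm]
  exact mul_le_mul_of_nonneg_right (hB k) (abs_nonneg _)

/-- The Poissonised consequence of the Ritt property. -/
lemma poisson_bound {p : ℤ → ℝ} (hp : Summable fun n => |p n|) (hp1 : ∑' n, |p n| = 1)
    (C : ℝ) (hC : ∀ n : ℕ, (n : ℝ) * ∑' k, |(T p)^[n] δ0 k - (T p)^[n + 1] δ0 k| ≤ C)
    {ι : Type} (S : Finset ι)
    (c : ι → ℂ) (θ : ι → ℝ) (B : ℝ) (hB0 : 0 ≤ B)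
    (hB : ∀ k : ℤ, ‖∑ e ∈ S, c e * ee (θ e) k‖ ≤ B) (t : ℝ) (ht : 0 < t) :
    t * ‖∑ e ∈ S, c e * ((1 - FT p (θ e)) * Complex.exp (-(t * (1 - FT p (θ e)))))‖ ≤ B * (C + 2) := by
  -- the norm of the differences
  have hdiff : ∀ n : ℕ, ((n : ℝ) + 1) * ∑' k, |(T p)^[n] δ0 k - (T p)^[n + 1] δ0 k| ≤ C + 2 := by
    intro n
    have h0 := iter_summable hp n
    have h1 := iter_summable hp (n + 1)
    have h2 : ∑' k, |(T p)^[n] δ0 k - (T p)^[n + 1] δ0 k| ≤ 2 := by
      have h3 : ∑' k, |(T p)^[n] δ0 k - (T p)^[n + 1] δ0 k| ≤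
          ∑' k, (|(T p)^[n] δ0 k| + |(T p)^[n + 1] δ0 k|) := by
        refine Summable.tsum_le_tsum (fun k => abs_sub _ _) ?_ (h0.add h1)
        exact Summable.of_nonneg_of_le (fun _ => abs_nonneg _) (fun k => abs_sub _ _) (h0.add h1)
      rw [h0.tsum_add h1] at h3
      have h4 := iter_norm_le hp hp1 n
      have h5 := iter_norm_le hp hp1 (n + 1)
      linarith
    have := hC n
    linarith
  set D : ℕ → ℂ := fun n => ∑ e ∈ S, c e * (FT p (θ e) ^ n - FT p (θ e) ^ (n + 1)) with hD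
  have hDn : ∀ n : ℕ, ((n : ℝ) + 1) * ‖D n‖ ≤ B * (C + 2) := by
    intro n
    have h1 := test_bound hp S c θ B hB n
    have h2 := hdiff n
    have h3 : (0 : ℝ) < (n : ℝ) + 1 := by positivity
    calc ((n : ℝ) + 1) * ‖D n‖ ≤ ((n : ℝ) + 1) * (B * ∑' k, |(T p)^[n] δ0 k - (T p)^[n + 1] δ0 k|) := by
          gcongr
      _ = B * (((n : ℝ) + 1) * ∑' k, |(T p)^[n] δ0 k - (T p)^[n + 1] δ0 k|) := by ring
      _ ≤ B * (C + 2) := by gcongr
  -- the exponential series
  have hser : HasSum (fun n : ℕ => ((t : ℂ) ^ n / n.factorial) * D n)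
      (∑ e ∈ S, c e * ((1 - FT p (θ e)) * Complex.exp (t * FT p (θ e)))) := by
    have h1 : ∀ e ∈ S, HasSum (fun n : ℕ => c e * (((t : ℂ) ^ n / n.factorial) *
        (FT p (θ e) ^ n - FT p (θ e) ^ (n + 1))))
        (c e * ((1 - FT p (θ e)) * Complex.exp (t * FT p (θ e)))) := by
      intro e _
      apply HasSum.mul_left
      have h2 := NormedSpace.expSeries_div_hasSum_exp ((t : ℂ) * FT p (θ e))
      have h3 := h2.mul_left (1 - FT p (θ e))
      rw [← Complex.exp_eq_exp_ℂ] at h3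
      refine h3.congr_fun ?_ |> fun h => h
      intro n
      rw [mul_pow]
      ring
    have h4 := hasSum_sum h1
    refine h4.congr_fun ?_ |> fun h => h
    intro n
    rw [hD, Finset.mul_sum]
    apply Finset.sum_congr rfl
    intro e _
    ring
  have hexp : HasSum (fun n : ℕ => t ^ n / (n.factorial : ℝ)) (Real.exp t) := by
    have := NormedSpace.expSeries_div_hasSum_exp t
    rwa [← Real.exp_eq_exp_ℝ] at this
  have hexp1 : HasSum (fun n : ℕ => t ^ (n + 1) / ((n + 1).factorial : ℝ)) (Real.exp t - 1) := by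
    have h1 := (hasSum_nat_add_iff' 1).mpr hexp
    simpa using h1
  have hbound : ‖∑ e ∈ S, c e * ((1 - FT p (θ e)) * Complex.exp (t * FT p (θ e)))‖ ≤
      (B * (C + 2)) * ((Real.exp t - 1) / t) := by
    rw [← hser.tsum_eq]
    have h1 : HasSum (fun n : ℕ => (B * (C + 2)) * ((t ^ (n + 1) / ((n + 1).factorial : ℝ)) / t))
        ((B * (C + 2)) * ((Real.exp t - 1) / t)) := (hexp1.div_const t).mul_left _
    refine tsum_of_norm_bounded h1 (fun n => ?_)
    rw [norm_mul, norm_div, norm_pow, Complex.norm_real, Real.norm_of_nonneg ht.le, Complex.norm_natCast]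
    have h2 := hDn n
    have h3 : (0 : ℝ) < (n : ℝ) + 1 := by positivity
    have h4 : ‖D n‖ ≤ B * (C + 2) / ((n : ℝ) + 1) := by
      rw [le_div_iff₀ h3]; linarith
    have h5 : (0 : ℝ) < (n.factorial : ℝ) := by positivity
    calc t ^ n / (n.factorial : ℝ) * ‖D n‖ ≤ t ^ n / (n.factorial : ℝ) * (B * (C + 2) / ((n : ℝ) + 1)) := by
          gcongr
      _ = B * (C + 2) * (t ^ (n + 1) / ((n + 1).factorial : ℝ) / t) := by
          rw [Nat.factorial_succ, pow_succ]; push_cast
          field_simp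
  have hmul : ∀ z : ℂ, Complex.exp (-(t * (1 - z))) = Complex.exp (-t) * Complex.exp (t * z) := by
    intro z; rw [← Complex.exp_add]; congr 1; ring
  have h6 : ∑ e ∈ S, c e * ((1 - FT p (θ e)) * Complex.exp (-(t * (1 - FT p (θ e))))) =
      Complex.exp (-t) * ∑ e ∈ S, c e * ((1 - FT p (θ e)) * Complex.exp (t * FT p (θ e))) := by
    rw [Finset.mul_sum]
    apply Finset.sum_congr rfl
    intro e _
    rw [hmul]; ring
  rw [h6, norm_mul]
  have h7 : ‖Complex.exp (-(t : ℂ))‖ = Real.exp (-t) := by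
    rw [Complex.norm_exp]; simp
  rw [h7]
  have hBC : 0 ≤ B * (C + 2) := by
    refine le_trans ?_ (hDn 0)
    positivity
  calc t * (Real.exp (-t) * ‖∑ e ∈ S, c e * ((1 - FT p (θ e)) * Complex.exp (t * FT p (θ e)))‖)
      ≤ t * (Real.exp (-t) * ((B * (C + 2)) * ((Real.exp t - 1) / t))) := by gcongr
    _ = (B * (C + 2)) * (1 - Real.exp (-t)) := by
        have h9 : Real.exp (-t) * Real.exp t = 1 := by rw [← Real.exp_add]; simp
        field_simp
        linear_combination (B * (C + 2)) * h9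
    _ ≤ B * (C + 2) := by
        have := Real.exp_pos (-t)
        nlinarith

end Pool.Agent.H337R3.Ritt
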