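import Pool.Agent.H337R3.Ritt1

set_option autoImplicit false

namespace Pool.Agent.H337R3.Ritt

open Finset

/-- the jumps -/
def Mm (i : ℕ) : ℕ := 2 ^ (8 * i ^ 2)

/-- the weights -/
noncomputable def v (i : ℕ) : ℝ := 1 / (2 * ((i : ℝ) + 1) * (i + 2))

lemma Mm_pos (i : ℕ) : 0 < Mm i := by unfold Mm; positivity

lemma Mm_lt {i k : ℕ} (h : i < k) : Mm i < Mm k := by
  unfold Mm
  apply Nat.pow_lt_pow_right (by norm_num)
  have : i ^ 2 < k ^ 2 := Nat.pow_lt_pow_left h (by norm_num)
  omega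

lemma Mm_inj {i k : ℕ} (h : Mm i = Mm k) : i = k := by
  rcases lt_trichotomy i k with h1 | h1 | h1
  · exact absurd h (Mm_lt h1).ne
  · exact h1
  · exact absurd h (Mm_lt h1).ne'

lemma v_pos (i : ℕ) : 0 < v i := by unfold v; positivity

lemma v_hasSum : HasSum v (1 / 2) := by
  rw [hasSum_iff_tendsto_nat_of_nonneg (fun i => (v_pos i).le)]
  have h1 : ∀ n : ℕ, ∑ i ∈ range n, v i = 1 / 2 - 1 / 2 * (1 / ((n : ℝ) + 1)) := by
    intro n
    induction n with
    | zero => simp
    | succ n ih =>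
      rw [sum_range_succ, ih]
      unfold v
      push_cast
      field_simp
      ring
  simp_rw [h1]
  have h2 := tendsto_one_div_add_atTop_nhds_zero_nat (𝕜 := ℝ)
  have h3 := (h2.const_mul (1 / 2 : ℝ)).const_sub (1 / 2 : ℝ)
  simpa using h3

/-- enumeration of the support -/
def g : ℤ → ℤ
  | Int.ofNat 0 => 0
  | Int.ofNat (k + 1) => (Mm k : ℤ)
  | Int.negSucc k => -(Mm k : ℤ)

/-- the weights along the enumeration -/
noncomputable def W : ℤ → ℝ
  | Int.ofNat 0 => 1 / 2
  | Int.ofNat (k + 1) => v k / 2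
  | Int.negSucc k => v k / 2

lemma g_inj : Function.Injective g := by
  intro x y h
  rcases x with (_ | k) | k <;> rcases y with (_ | l) | l <;> simp only [g] at h
  · rfl
  · have := Mm_pos l; omega
  · have := Mm_pos l; omega
  · have := Mm_pos k; omega
  · have : Mm k = Mm l := by exact_mod_cast h
    rw [Mm_inj this]
  · have := Mm_pos k; have := Mm_pos l; omega
  · have := Mm_pos k; omega
  · have := Mm_pos k; have := Mm_pos l; omega
  · have : Mm k = Mm l := by omega
    rw [Mm_inj this]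

/-- the measure -/
noncomputable def pp : ℤ → ℝ := Function.extend g W 0

lemma pp_g (j : ℤ) : pp (g j) = W j := g_inj.extend_apply _ _ _

lemma pp_out (n : ℤ) (h : n ∉ Set.range g) : pp n = 0 := by
  unfold pp
  rw [Function.extend_apply']
  · rfl
  · intro ⟨a, ha⟩; exact h ⟨a, ha⟩

lemma W_nonneg (j : ℤ) : 0 ≤ W j := by
  rcases j with (_ | k) | k <;> simp only [W]
  · norm_num
  · exact div_nonneg (v_pos k).le (by norm_num)
  · exact div_nonneg (v_pos k).le (by norm_num)

lemma pp_nonneg (n : ℤ) : 0 ≤ pp n := by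
  by_cases h : n ∈ Set.range g
  · obtain ⟨j, rfl⟩ := h
    rw [pp_g]; exact W_nonneg j
  · rw [pp_out n h]

lemma pp_hasSum (F : ℤ → ℂ) (hF : ∀ n, ‖F n‖ ≤ 1) :
    HasSum (fun n => (pp n : ℂ) * F n)
      (1 / 2 * F 0 + ∑' k, (v k : ℂ) / 2 * F (Mm k) + ∑' k, (v k : ℂ) / 2 * F (-(Mm k : ℤ))) := by
  rw [← g_inj.hasSum_iff (f := fun n => (pp n : ℂ) * F n)]
  · have hs : ∀ G : ℕ → ℂ, (∀ n, ‖G n‖ ≤ 1) → Summable fun k => (v k : ℂ) / 2 * G k := by
      intro G hG
      refine Summable.of_norm_bounded (g := fun k => v k / 2) (v_hasSum.summable.div_const 2) ?_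
      intro k
      rw [norm_mul, norm_div, Complex.norm_real, Real.norm_of_nonneg (v_pos k).le]
      have h1 : ‖(2 : ℂ)‖ = 2 := by simp
      rw [h1]
      have := hG k
      have h2 := v_pos k
      have h3 : 0 ≤ v k / 2 := by positivity
      nlinarith
    apply HasSum.of_nat_of_neg_add_one
    · have h1 := (hs (fun k => F (Mm k)) (fun k => hF _)).hasSum
      have h2 : HasSum (fun n : ℕ => ((fun n => (pp n : ℂ) * F n) ∘ g) ((n + 1 : ℕ) : ℤ))
          (∑' k, (v k : ℂ) / 2 * F (Mm k)) := by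
        convert h1 using 2 with k
        show (pp (g (Int.ofNat (k + 1))) : ℂ) * F (g (Int.ofNat (k + 1))) = _
        rw [pp_g]
        simp only [W, g]
        push_cast; rfl
      have h3 := HasSum.zero_add (f := fun n : ℕ => ((fun n => (pp n : ℂ) * F n) ∘ g) (n : ℤ)) h2
      convert h3 using 2
      show _ = (pp (g (Int.ofNat 0)) : ℂ) * F (g (Int.ofNat 0))
      rw [pp_g]
      simp only [W, g]
      push_cast; rfl
    · have h1 := (hs (fun k => F (-(Mm k : ℤ))) (fun k => hF _)).hasSum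
      convert h1 using 2 with k
      have h2 : (-((k : ℤ) + 1)) = Int.negSucc k := by rw [Int.negSucc_eq]
      rw [h2]
      show (pp (g (Int.negSucc k)) : ℂ) * F (g (Int.negSucc k)) = _
      rw [pp_g]
      simp only [W, g]
      push_cast; rfl
  · intro n hn
    rw [pp_out n hn]; simp

/-- one minus the Fourier transform -/
noncomputable def Z (t : ℝ) : ℝ := ∑' k, v k * (1 - Real.cos (t * Mm k))

lemma Z_summable (t : ℝ) : Summable fun k => v k * (1 - Real.cos (t * Mm k)) := by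
  refine Summable.of_nonneg_of_le (fun k => ?_) (fun k => ?_) (v_hasSum.summable.mul_right 2)
  · have := Real.cos_le_one (t * Mm k)
    have := v_pos k
    apply mul_nonneg <;> linarith
  · have := Real.neg_one_le_cos (t * Mm k)
    have := v_pos k
    apply mul_le_mul_of_nonneg_left <;> linarith

lemma Z_nonneg (t : ℝ) : 0 ≤ Z t := by
  apply tsum_nonneg
  intro k
  have := Real.cos_le_one (t * Mm k)
  have := v_pos k
  apply mul_nonneg <;> linarith

lemma Z_le_one (t : ℝ) : Z t ≤ 1 := by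
  have h1 : Z t ≤ ∑' k, v k * 2 := by
    apply (Z_summable t).tsum_le_tsum _ (v_hasSum.summable.mul_right 2)
    intro k
    have := Real.neg_one_le_cos (t * Mm k)
    have := v_pos k
    apply mul_le_mul_of_nonneg_left <;> linarith
  rw [tsum_mul_right, v_hasSum.tsum_eq] at h1
  linarith

lemma FT_pp (t : ℝ) : FT pp t = ((1 - Z t : ℝ) : ℂ) := by
  unfold FT
  rw [(pp_hasSum (ee t) (fun n => (norm_ee t n).le)).tsum_eq]
  have hs : ∀ G : ℕ → ℂ, (∀ n, ‖G n‖ ≤ 1) → Summable fun k => (v k : ℂ) / 2 * G k := by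
    intro G hG
    refine Summable.of_norm_bounded (g := fun k => v k / 2) (v_hasSum.summable.div_const 2) ?_
    intro k
    rw [norm_mul, norm_div, Complex.norm_real, Real.norm_of_nonneg (v_pos k).le]
    have h1 : ‖(2 : ℂ)‖ = 2 := by simp
    rw [h1]
    have := hG k
    have h2 := v_pos k
    have h3 : 0 ≤ v k / 2 := by positivity
    nlinarith
  rw [add_assoc, ← (hs _ (fun k => (norm_ee t _).le)).tsum_add (hs _ (fun k => (norm_ee t _).le))]
  have h1 : ∀ k, (v k : ℂ) / 2 * ee t (Mm k) + (v k : ℂ) / 2 * ee t (-(Mm k : ℤ)) =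
      ((v k * Real.cos (t * Mm k) : ℝ) : ℂ) := by
    intro k
    unfold ee
    push_cast
    rw [Complex.cos]
    have e1 : Complex.I * (t : ℂ) * (Mm k : ℂ) = (t : ℂ) * (Mm k : ℂ) * Complex.I := by ring
    have e2 : Complex.I * (t : ℂ) * -(Mm k : ℂ) = -((t : ℂ) * (Mm k : ℂ)) * Complex.I := by ring
    rw [e1, e2]
    ring
  simp_rw [h1]
  rw [← Complex.ofReal_tsum]
  have h2 : Summable fun k => v k * Real.cos (t * Mm k) := by
    refine Summable.of_norm_bounded (g := v) v_hasSum.summable ?_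
    intro k
    rw [norm_mul, Real.norm_of_nonneg (v_pos k).le, Real.norm_eq_abs]
    have := Real.abs_cos_le_one (t * Mm k)
    have := v_pos k
    nlinarith
  have h3 : Z t = 1 / 2 - ∑' k, v k * Real.cos (t * Mm k) := by
    unfold Z
    simp_rw [mul_sub, mul_one]
    rw [v_hasSum.summable.tsum_sub h2, v_hasSum.tsum_eq]
  rw [h3]
  have h4 : ee t 0 = 1 := by simp [ee]
  rw [h4]
  push_cast
  ring

lemma pp_hasSum_one : HasSum pp 1 := by
  have h1 := pp_hasSum (fun _ => 1) (fun _ => by simp)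
  have h2 : (1 / 2 * (1 : ℂ) + ∑' k, (v k : ℂ) / 2 * 1 + ∑' k, (v k : ℂ) / 2 * 1) = ((1 : ℝ) : ℂ) := by
    have h3 : (∑' k, (v k : ℂ) / 2 * 1) = ((1 / 4 : ℝ) : ℂ) := by
      have h4 : ∀ k, (v k : ℂ) / 2 * 1 = ((v k / 2 : ℝ) : ℂ) := by intro k; push_cast; ring
      simp_rw [h4]
      rw [← Complex.ofReal_tsum, tsum_div_const, v_hasSum.tsum_eq]
      norm_num
    rw [h3]; push_cast; ring
  rw [h2] at h1
  have h5 : HasSum (fun n => ((pp n : ℝ) : ℂ)) ((1 : ℝ) : ℂ) := by
    convert h1 using 2; simp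
  exact_mod_cast h5

lemma pp_abs : (fun n => |pp n|) = pp := by
  ext n; exact abs_of_nonneg (pp_nonneg n)

lemma Z_pos {t : ℝ} (ht : t ∈ Set.Ioo 0 (2 * Real.pi)) : 0 < Z t := by
  apply (Z_summable t).tsum_pos (fun k => ?_) 0
  · have h1 : Real.cos (t * Mm 0) < 1 := by
      have h2 : Real.cos (t * Mm 0) ≠ 1 := by
        intro h3
        have e : (Mm 0 : ℝ) = 1 := by simp [Mm]
        rw [e, mul_one] at h3
        rw [Real.cos_eq_one_iff_of_lt_of_lt (by linarith [ht.1, Real.pi_pos]) ht.2] at h3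
        linarith [ht.1]
      exact lt_of_le_of_ne (Real.cos_le_one _) h2
    have := v_pos 0
    apply mul_pos <;> linarith
  · have := Real.cos_le_one (t * Mm k)
    have := v_pos k
    apply mul_nonneg <;> linarith

end Pool.Agent.H337R3.Ritt
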