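import Pool.Agent.H337R3.Ritt2

set_option autoImplicit false

namespace Pool.Agent.H337R3.Ritt

open Finset

/-- The index set of the exponentials in the test function. -/
def SS (d : ℕ) : Finset (Fin d → ℤ) := Fintype.piFinset fun _ => ({-1, 0, 1} : Finset ℤ)

/-- one coefficient -/
noncomputable def cc (a : ℝ) (e : ℤ) : ℂ := if e = 0 then 1 else Complex.I * a / 2

/-- the coefficient of a product -/
noncomputable def cx {d : ℕ} (a : ℝ) (x : Fin d → ℤ) : ℂ := ∏ j, cc a (x j)

/-- the frequency -/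
noncomputable def th {d : ℕ} (x : Fin d → ℤ) : ℝ := ∑ j : Fin d, x j * (Real.pi / Mm (d + j))

/-- the ideal value of `Z` at the frequency -/
noncomputable def yy {d : ℕ} (x : Fin d → ℤ) : ℝ := ∑ j : Fin d, 2 * v (d + j) * |(x j : ℝ)|

lemma sum_three {M : Type} [AddCommMonoid M] (f : ℤ → M) :
    ∑ e ∈ ({-1, 0, 1} : Finset ℤ), f e = f (-1) + (f 0 + f 1) := by
  rw [Finset.sum_insert (by decide), Finset.sum_insert (by decide), Finset.sum_singleton]

lemma ee_sum {d : ℕ} (x : Fin d → ℤ) (k : ℤ) :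
    ee (th x) k = ∏ j : Fin d, ee (x j * (Real.pi / Mm (d + j))) k := by
  unfold ee th
  rw [← Complex.exp_sum]
  congr 1
  push_cast
  rw [Finset.mul_sum, Finset.sum_mul]

lemma test_prod {d : ℕ} (a : ℝ) (k : ℤ) :
    ∑ x ∈ SS d, cx a x * ee (th x) k =
      ∏ j : Fin d, (1 + Complex.I * a * Real.cos (Real.pi / Mm (d + j) * k)) := by
  have h1 : ∀ j : Fin d, (1 + Complex.I * a * Real.cos (Real.pi / Mm (d + j) * k) : ℂ) =
      ∑ e ∈ ({-1, 0, 1} : Finset ℤ), cc a e * ee (e * (Real.pi / Mm (d + j))) k := by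
    intro j
    rw [sum_three]
    unfold cc ee
    simp only [if_true, if_neg (show (-1 : ℤ) ≠ 0 by norm_num), if_neg (show (1 : ℤ) ≠ 0 by norm_num)]
    push_cast
    rw [Complex.cos]
    have e1 : Complex.I * (-1 * (Real.pi / (Mm (d + j) : ℂ))) * (k : ℂ) =
      -(Real.pi / (Mm (d + j) : ℂ) * k) * Complex.I := by ring
    have e2 : Complex.I * (1 * (Real.pi / (Mm (d + j) : ℂ))) * (k : ℂ) =
      (Real.pi / (Mm (d + j) : ℂ) * k) * Complex.I := by ring
    rw [e1, e2]
    simp only [zero_mul, mul_zero, Complex.exp_zero, mul_one]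
    ring
  simp_rw [h1]
  rw [Finset.prod_univ_sum]
  apply Finset.sum_congr rfl
  intro x _
  rw [Finset.prod_mul_distrib, ee_sum]
  rfl

lemma norm_one_add_le (a y : ℝ) (hy : |y| ≤ 1) :
    ‖(1 + Complex.I * a * y : ℂ)‖ ≤ Real.exp (a ^ 2 / 2) := by
  have h1 : ‖(1 + Complex.I * a * y : ℂ)‖ ^ 2 = 1 + (a * y) ^ 2 := by
    rw [← Complex.normSq_eq_norm_sq, Complex.normSq_apply]
    simp
    ring
  have h2 : (a * y) ^ 2 ≤ a ^ 2 := by
    rw [mul_pow]
    have : y ^ 2 ≤ 1 := by rw [sq_le_one_iff_abs_le_one]; exact hy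
    nlinarith [sq_nonneg a]
  have h3 : ‖(1 + Complex.I * a * y : ℂ)‖ ^ 2 ≤ Real.exp (a ^ 2 / 2) ^ 2 := by
    rw [h1, ← Real.exp_nat_mul]
    have h4 := Real.add_one_le_exp (a ^ 2)
    have h5 : ((2 : ℕ) : ℝ) * (a ^ 2 / 2) = a ^ 2 := by push_cast; ring
    rw [h5]; linarith
  exact le_of_sq_le_sq h3 (Real.exp_pos _).le

lemma test_norm {d : ℕ} (a : ℝ) (had : (d : ℝ) * a ^ 2 ≤ 1) (k : ℤ) :
    ‖∑ x ∈ SS d, cx a x * ee (th x) k‖ ≤ 2 := by
  rw [test_prod, norm_prod]
  calc ∏ j : Fin d, ‖(1 + Complex.I * a * Real.cos (Real.pi / Mm (d + j) * k) : ℂ)‖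
      ≤ ∏ j : Fin d, Real.exp (a ^ 2 / 2) := by
        apply Finset.prod_le_prod (fun _ _ => norm_nonneg _)
        intro j _
        exact norm_one_add_le a _ (Real.abs_cos_le_one _)
    _ = Real.exp (d * a ^ 2 / 2) := by
        rw [Finset.prod_const, Finset.card_univ, Fintype.card_fin, ← Real.exp_nat_mul]
        congr 1; ring
    _ ≤ Real.exp (1 / 2) := by
        apply Real.exp_le_exp.mpr; linarith
    _ ≤ 2 := by
        have h1 : Real.exp (1 / 2) ^ 2 ≤ 2 ^ 2 := by
          rw [← Real.exp_nat_mul]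
          have h2 : ((2 : ℕ) : ℝ) * (1 / 2) = 1 := by norm_num
          rw [h2]
          linarith [Real.exp_one_lt_d9]
        exact le_of_sq_le_sq h1 (by norm_num)

/-- sum of the absolute values of the coefficients -/
lemma coeff_sum {d : ℕ} (a : ℝ) (ha : 0 ≤ a) : ∑ x ∈ SS d, ‖cx a x‖ = (1 + a) ^ d := by
  unfold cx
  simp_rw [norm_prod]
  have h1 : ∑ x ∈ SS d, ∏ j, ‖cc a (x j)‖ = ∏ j : Fin d, ∑ e ∈ ({-1, 0, 1} : Finset ℤ), ‖cc a e‖ := by
    rw [Finset.prod_univ_sum]; rfl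
  rw [h1]
  have h2 : ∑ e ∈ ({-1, 0, 1} : Finset ℤ), ‖cc a e‖ = 1 + a := by
    rw [sum_three]
    unfold cc
    simp only [if_true, if_neg (show (-1 : ℤ) ≠ 0 by norm_num), if_neg (show (1 : ℤ) ≠ 0 by norm_num)]
    rw [norm_div, norm_mul, Complex.norm_I, Complex.norm_real, Real.norm_of_nonneg ha]
    simp
    ring
  rw [h2, Finset.prod_const, Finset.card_univ, Fintype.card_fin]

/-- the ideal sum in closed form -/
lemma ideal_prod {d : ℕ} (a t : ℝ) :
    ∑ x ∈ SS d, cx a x * Complex.exp (-(t * yy x)) =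
      ∏ j : Fin d, (1 + Complex.I * a * Complex.exp (-(t * (2 * v (d + j))))) := by
  have h1 : ∀ j : Fin d, (1 + Complex.I * a * Complex.exp (-(t * (2 * v (d + j)))) : ℂ) =
      ∑ e ∈ ({-1, 0, 1} : Finset ℤ), cc a e * Complex.exp (-(t * (2 * v (d + j) * |(e : ℝ)|))) := by
    intro j
    rw [sum_three]
    unfold cc
    simp only [if_true, if_neg (show (-1 : ℤ) ≠ 0 by norm_num), if_neg (show (1 : ℤ) ≠ 0 by norm_num)]
    simp
    ring
  simp_rw [h1]
  rw [Finset.prod_univ_sum]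
  apply Finset.sum_congr rfl
  intro x _
  rw [Finset.prod_mul_distrib]
  congr 1
  rw [← Complex.exp_sum]
  congr 1
  unfold yy
  push_cast
  rw [Finset.mul_sum, ← Finset.sum_neg_distrib]

lemma ideal_deriv {d : ℕ} (a t : ℝ) :
    ∑ x ∈ SS d, cx a x * (yy x * Complex.exp (-(t * yy x))) =
      ∑ j : Fin d, (∏ l ∈ univ.erase j, (1 + Complex.I * a * Complex.exp (-(t * (2 * v (d + l)))))) *
        (Complex.I * a * (2 * v (d + j)) * Complex.exp (-(t * (2 * v (d + j))))) := by
  -- differentiate the identity `ideal_prod` in a complex variable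
  have hL : ∀ s : ℂ, HasDerivAt (fun s : ℂ => ∑ x ∈ SS d, cx a x * Complex.exp (-(s * yy x)))
      (∑ x ∈ SS d, cx a x * (-(yy x) * Complex.exp (-(s * yy x)))) s := by
    intro s
    apply HasDerivAt.fun_sum
    intro x _
    apply HasDerivAt.const_mul
    have h1 : HasDerivAt (fun s : ℂ => -(s * yy x)) (-(yy x : ℂ)) s := by
      have h0 := (hasDerivAt_id' s).mul_const (-(yy x : ℂ))
      simp only [one_mul, mul_neg] at h0
      exact h0
    have h2 := h1.cexp
    rwa [mul_comm] at h2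
  have hR : ∀ s : ℂ, HasDerivAt
      (fun s : ℂ => ∏ j : Fin d, (1 + Complex.I * a * Complex.exp (-(s * (2 * v (d + j))))))
      (∑ j : Fin d, (∏ l ∈ univ.erase j, (1 + Complex.I * a * Complex.exp (-(s * (2 * v (d + l)))))) •
        (Complex.I * a * (-(2 * v (d + j)) * Complex.exp (-(s * (2 * v (d + j))))))) s := by
    intro s
    apply HasDerivAt.fun_finsetProd
    intro j _
    have h1 : HasDerivAt (fun s : ℂ => -(s * (2 * v (d + j)))) (-(2 * v (d + j) : ℂ)) s := by
      have h0 := (hasDerivAt_id' s).mul_const (-(2 * v (d + j) : ℂ))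
      simp only [one_mul, mul_neg] at h0
      exact h0
    have h2 := h1.cexp
    have h3 := (h2.const_mul (Complex.I * a)).const_add 1
    rwa [mul_comm (Complex.exp _) _] at h3
  have hEq : (fun s : ℂ => ∑ x ∈ SS d, cx a x * Complex.exp (-(s * yy x))) =
      fun s : ℂ => ∏ j : Fin d, (1 + Complex.I * a * Complex.exp (-(s * (2 * v (d + j))))) := by
    funext s
    have h1 : ∀ j : Fin d, (1 + Complex.I * a * Complex.exp (-(s * (2 * v (d + j)))) : ℂ) =
        ∑ e ∈ ({-1, 0, 1} : Finset ℤ), cc a e * Complex.exp (-(s * (2 * v (d + j) * |(e : ℝ)|))) := by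
      intro j
      rw [sum_three]
      unfold cc
      simp only [if_true, if_neg (show (-1 : ℤ) ≠ 0 by norm_num), if_neg (show (1 : ℤ) ≠ 0 by norm_num)]
      simp
      ring
    simp_rw [h1]
    rw [Finset.prod_univ_sum]
    apply Finset.sum_congr rfl
    intro x _
    rw [Finset.prod_mul_distrib]
    congr 1
    rw [← Complex.exp_sum]
    congr 1
    unfold yy
    push_cast
    rw [Finset.mul_sum, ← Finset.sum_neg_distrib]
  have h1 := hL t
  rw [hEq] at h1
  have h2 := h1.unique (hR t)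
  have h3 : ∑ x ∈ SS d, cx a x * (yy x * Complex.exp (-(t * yy x))) =
      - ∑ x ∈ SS d, cx a x * (-(yy x) * Complex.exp (-(t * yy x))) := by
    rw [← Finset.sum_neg_distrib]
    apply Finset.sum_congr rfl
    intro x _
    ring
  rw [h3, h2, ← Finset.sum_neg_distrib]
  apply Finset.sum_congr rfl
  intro j _
  rw [smul_eq_mul]
  ring

lemma ideal_lower {d : ℕ} (a t : ℝ) (ha : 0 < a) (ha1 : a ≤ 1) (ht : 0 ≤ t) :
    1 / 2 * ∑ j : Fin d, (2 * v (d + j)) * (a * Real.exp (-(t * (2 * v (d + j))))) ≤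
      ‖∑ x ∈ SS d, cx a x * (yy x * Complex.exp (-(t * yy x)))‖ := by
  rw [ideal_deriv]
  set u : Fin d → ℂ := fun l => 1 + Complex.I * a * Complex.exp (-(t * (2 * v (d + l)))) with hu
  set X : Fin d → ℝ := fun j => a * Real.exp (-(t * (2 * v (d + j)))) with hX
  have huX : ∀ j, u j = 1 + Complex.I * X j := by
    intro j; rw [hu, hX]; push_cast; ring
  have hX0 : ∀ j, 0 < X j := fun j => mul_pos ha (Real.exp_pos _)
  have hX1 : ∀ j, X j ≤ 1 := by
    intro j
    have h1 : Real.exp (-(t * (2 * v (d + j)))) ≤ 1 := by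
      apply Real.exp_le_one_iff.mpr
      have := v_pos (d + j)
      have : 0 ≤ t * (2 * v (d + j)) := by positivity
      linarith
    have h2 := Real.exp_pos (-(t * (2 * v (d + j))))
    rw [hX]
    show a * _ ≤ 1
    nlinarith
  have hnorm : ∀ j, 1 ≤ ‖u j‖ := by
    intro j
    have h1 : (u j).re = 1 := by rw [huX]; simp
    have h2 := Complex.abs_re_le_norm (u j)
    rw [h1] at h2; simpa using h2
  have hne : ∀ j, u j ≠ 0 := by
    intro j h; have := hnorm j; rw [h] at this; simp at this; linarith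
  have h1 : ∑ j : Fin d, (∏ l ∈ univ.erase j, (1 + Complex.I * a * Complex.exp (-(t * (2 * v (d + l)))))) *
        (Complex.I * a * (2 * v (d + j)) * Complex.exp (-(t * (2 * v (d + j))))) =
      (∏ l, u l) * (Complex.I * ∑ j : Fin d, ((2 * v (d + j) * X j : ℝ) : ℂ) / u j) := by
    rw [Finset.mul_sum, Finset.mul_sum]
    apply Finset.sum_congr rfl
    intro j _
    have h2 : (∏ l, u l) = u j * ∏ l ∈ univ.erase j, u l := (Finset.mul_prod_erase _ _ (mem_univ j)).symm
    rw [h2]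
    have h3 : (∏ l ∈ univ.erase j, (1 + Complex.I * a * Complex.exp (-(t * (2 * v (d + l)))))) =
      ∏ l ∈ univ.erase j, u l := rfl
    rw [h3]
    have := hne j
    field_simp
    rw [hX]; push_cast; ring_nf
  rw [h1, norm_mul, norm_mul, Complex.norm_I, one_mul]
  have h4 : 1 ≤ ‖∏ l, u l‖ := by
    rw [norm_prod]
    have : ∏ l : Fin d, (1 : ℝ) ≤ ∏ l, ‖u l‖ :=
      Finset.prod_le_prod (fun _ _ => zero_le_one) (fun l _ => hnorm l)
    simpa using this
  have h5 : 1 / 2 * ∑ j : Fin d, (2 * v (d + j)) * X j ≤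
      ‖∑ j : Fin d, ((2 * v (d + j) * X j : ℝ) : ℂ) / u j‖ := by
    refine le_trans ?_ (Complex.re_le_norm _)
    rw [Complex.re_sum, Finset.mul_sum]
    apply Finset.sum_le_sum
    intro j _
    have h6 : (((2 * v (d + j) * X j : ℝ) : ℂ) / u j).re = (2 * v (d + j) * X j) / (1 + X j ^ 2) := by
      rw [Complex.div_re, huX, Complex.normSq_apply]
      simp
      ring
    rw [h6]
    have hv := v_pos (d + j)
    have hx0 := hX0 j
    have hx1 := hX1 j
    rw [le_div_iff₀ (by positivity)]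
    have h7 : 0 < 2 * v (d + j) * X j := by positivity
    have h8 : 1 + X j ^ 2 ≤ 2 := by nlinarith
    nlinarith
  calc 1 / 2 * ∑ j : Fin d, (2 * v (d + j)) * (a * Real.exp (-(t * (2 * v (d + j)))))
      = 1 / 2 * ∑ j : Fin d, (2 * v (d + j)) * X j := rfl
    _ ≤ 1 * ‖∑ j : Fin d, ((2 * v (d + j) * X j : ℝ) : ℂ) / u j‖ := by rw [one_mul]; exact h5
    _ ≤ _ := by gcongr

/-- `z ↦ z e^{-tz}` is 1-Lipschitz -/
lemma lip {t y z : ℝ} (ht : 0 ≤ t) (hy : 0 ≤ y) (hz : 0 ≤ z) :
    |z * Real.exp (-(t * z)) - y * Real.exp (-(t * y))| ≤ |z - y| := by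
  wlog h : y ≤ z with H
  · rw [abs_sub_comm, abs_sub_comm z y]
    exact H ht hz hy (le_of_not_ge h)
  rw [abs_of_nonneg (sub_nonneg.mpr h), abs_le]
  have e1 : Real.exp (-(t * z)) ≤ Real.exp (-(t * y)) := by
    apply Real.exp_le_exp.mpr; nlinarith
  have e2 : Real.exp (-(t * y)) ≤ 1 := by
    apply Real.exp_le_one_iff.mpr; nlinarith
  have e3 := Real.exp_pos (-(t * z))
  have e4 := Real.exp_pos (-(t * y))
  constructor
  · -- y e^{-ty} - z e^{-tz} ≤ z - y
    have h1 : y * Real.exp (-(t * y)) - z * Real.exp (-(t * z)) ≤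
        y * (Real.exp (-(t * y)) - Real.exp (-(t * z))) := by nlinarith
    have h2 : Real.exp (-(t * y)) - Real.exp (-(t * z)) ≤ Real.exp (-(t * y)) * (t * (z - y)) := by
      have h3 : Real.exp (-(t * z)) = Real.exp (-(t * y)) * Real.exp (-(t * (z - y))) := by
        rw [← Real.exp_add]; congr 1; ring
      have h4 := Real.add_one_le_exp (-(t * (z - y)))
      rw [h3]; nlinarith
    have h5 : t * y * Real.exp (-(t * y)) ≤ 1 := by
      have h6 := Real.add_one_le_exp (t * y)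
      have h7 : Real.exp (-(t * y)) * Real.exp (t * y) = 1 := by rw [← Real.exp_add]; simp
      nlinarith
    have h8 : y * (Real.exp (-(t * y)) - Real.exp (-(t * z))) ≤ z - y := by
      calc y * (Real.exp (-(t * y)) - Real.exp (-(t * z)))
          ≤ y * (Real.exp (-(t * y)) * (t * (z - y))) := by gcongr
        _ = (t * y * Real.exp (-(t * y))) * (z - y) := by ring
        _ ≤ 1 * (z - y) := by
            apply mul_le_mul_of_nonneg_right h5; linarith
        _ = z - y := one_mul _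
    linarith
  · nlinarith

end Pool.Agent.H337R3.Ritt
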