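import Pool.Agent.H337R3.Ritt3

set_option autoImplicit false

namespace Pool.Agent.H337R3.Ritt

open Finset

lemma Mm_dvd {i k : ℕ} (h : k < i) : ∃ K : ℕ, Mm i = 2 * K * Mm k := by
  have h1 : 2 ^ (8 * k ^ 2 + 1) ∣ 2 ^ (8 * i ^ 2) := pow_dvd_pow 2 (by nlinarith)
  obtain ⟨K, hK⟩ := h1
  exact ⟨K, by unfold Mm; rw [hK]; ring⟩

lemma Mm_ratio {i k d : ℕ} (hd : 1 ≤ d) (hk : d ≤ k) (h : i < k) :
    Mm i * 2 ^ (4 * d + 3) ≤ Mm k := by
  unfold Mm
  rw [← pow_add]
  apply Nat.pow_le_pow_right (by norm_num)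
  obtain ⟨m, rfl⟩ : ∃ m, k = i + 1 + m := ⟨k - (i + 1), by omega⟩
  nlinarith

lemma term_split {d : ℕ} (hd : 1 ≤ d) (x : ℤ) (hx : |x| ≤ 1) (i k : ℕ) (hk : d ≤ k) :
    ∃ (n : ℤ) (r : ℝ), |r| ≤ Real.pi / 2 ^ (4 * d + 3) ∧
      x * (Real.pi / Mm k) * Mm i = n * (2 * Real.pi) + (if k = i then (x : ℝ) else 0) * Real.pi + r := by
  have hMk : (0 : ℝ) < Mm k := by exact_mod_cast Mm_pos k
  have hpi := Real.pi_pos
  rcases lt_trichotomy k i with h | h | h
  · obtain ⟨K, hK⟩ := Mm_dvd h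
    refine ⟨x * K, 0, by rw [abs_zero]; positivity, ?_⟩
    rw [if_neg h.ne, hK]
    push_cast
    field_simp
    ring
  · refine ⟨0, 0, by rw [abs_zero]; positivity, ?_⟩
    rw [if_pos h, ← h]
    push_cast
    field_simp
    ring
  · refine ⟨0, x * (Real.pi / Mm k) * Mm i, ?_, ?_⟩
    · have h1 := Mm_ratio hd hk h
      have h1' : (Mm i : ℝ) * 2 ^ (4 * d + 3) ≤ Mm k := by exact_mod_cast h1
      have hx' : |(x : ℝ)| ≤ 1 := by exact_mod_cast hx
      have hMi : (0 : ℝ) < Mm i := by exact_mod_cast Mm_pos i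
      rw [abs_mul, abs_mul, abs_of_pos hMi, abs_of_pos (by positivity : 0 < Real.pi / (Mm k : ℝ))]
      calc |(x : ℝ)| * (Real.pi / Mm k) * Mm i ≤ 1 * (Real.pi / Mm k) * Mm i := by gcongr
        _ = Real.pi * Mm i / Mm k := by ring
        _ ≤ Real.pi / 2 ^ (4 * d + 3) := by
            rw [div_le_div_iff₀ hMk (by positivity)]
            nlinarith
    · rw [if_neg h.ne']
      push_cast
      ring

/-- the coordinate of `x` seen by `M_i` -/
def eI {d : ℕ} (x : Fin d → ℤ) (i : ℕ) : ℤ := ∑ j : Fin d, if d + (j : ℕ) = i then x j else 0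

lemma eI_in {d : ℕ} (x : Fin d → ℤ) (j : Fin d) : eI x (d + j) = x j := by
  unfold eI
  rw [Finset.sum_eq_single j]
  · simp
  · intro l _ hl
    rw [if_neg]
    intro h
    apply hl
    ext
    omega
  · intro h; exact absurd (mem_univ j) h

lemma eI_out {d : ℕ} (x : Fin d → ℤ) (i : ℕ) (h : ∀ j : Fin d, d + (j : ℕ) ≠ i) : eI x i = 0 := by
  unfold eI
  apply Finset.sum_eq_zero
  intro j _
  rw [if_neg (h j)]

lemma mem_SS {d : ℕ} {x : Fin d → ℤ} (hx : x ∈ SS d) (j : Fin d) : x j = -1 ∨ x j = 0 ∨ x j = 1 := by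
  unfold SS at hx
  rw [Fintype.mem_piFinset] at hx
  have := hx j
  simpa using this

lemma eI_cases {d : ℕ} {x : Fin d → ℤ} (hx : x ∈ SS d) (i : ℕ) :
    eI x i = -1 ∨ eI x i = 0 ∨ eI x i = 1 := by
  by_cases h : ∃ j : Fin d, d + (j : ℕ) = i
  · obtain ⟨j, rfl⟩ := h
    rw [eI_in]
    exact mem_SS hx j
  · push Not at h
    right; left
    exact eI_out x i h

lemma yy_hasSum {d : ℕ} (x : Fin d → ℤ) :
    HasSum (fun i => v i * (2 * |(eI x i : ℝ)|)) (yy x) := by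
  have hinj : Function.Injective (fun j : Fin d => d + (j : ℕ)) := by
    intro a b h
    ext
    simp at h
    exact_mod_cast h
  rw [← hinj.hasSum_iff]
  · have h1 : ((fun i => v i * (2 * |(eI x i : ℝ)|)) ∘ fun j : Fin d => d + (j : ℕ)) =
        fun j : Fin d => 2 * v (d + j) * |(x j : ℝ)| := by
      funext j
      simp only [Function.comp, eI_in]
      ring
    rw [h1]
    exact hasSum_fintype _
  · intro i hi
    rw [eI_out]
    · simp
    · intro j hj
      exact hi ⟨j, hj⟩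

lemma cos_err {d : ℕ} (hd : 1 ≤ d) {x : Fin d → ℤ} (hx : x ∈ SS d) (i : ℕ) :
    |(1 - Real.cos (th x * Mm i)) - 2 * (|(eI x i : ℝ)|)| ≤ d * (Real.pi / 2 ^ (4 * d + 3)) := by
  have h1 : ∀ j : Fin d, ∃ (n : ℤ) (r : ℝ), |r| ≤ Real.pi / 2 ^ (4 * d + 3) ∧
      x j * (Real.pi / Mm (d + j)) * Mm i =
        n * (2 * Real.pi) + (if d + (j : ℕ) = i then (x j : ℝ) else 0) * Real.pi + r := by
    intro j
    apply term_split hd
    · rcases mem_SS hx j with h | h | h <;> rw [h] <;> norm_num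
    · omega
  choose n r hr hnr using h1
  have h2 : th x * Mm i = ((∑ j, n j : ℤ) : ℝ) * (2 * Real.pi) + (eI x i : ℝ) * Real.pi + ∑ j, r j := by
    unfold th eI
    rw [Finset.sum_mul]
    simp_rw [hnr]
    rw [Finset.sum_add_distrib, Finset.sum_add_distrib]
    push_cast
    rw [Finset.sum_mul, Finset.sum_mul]
  have h3 : |∑ j, r j| ≤ d * (Real.pi / 2 ^ (4 * d + 3)) := by
    refine (Finset.abs_sum_le_sum_abs _ _).trans ?_
    refine (Finset.sum_le_sum (fun j _ => hr j)).trans ?_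
    rw [Finset.sum_const, Finset.card_univ, Fintype.card_fin, nsmul_eq_mul]
  refine le_trans ?_ h3
  set R := ∑ j, r j with hR
  have hcos : |Real.cos R - 1| ≤ |R| := by
    have h4 := Real.one_sub_sq_div_two_le_cos (x := R)
    have h5 := Real.cos_le_one R
    have h6 := Real.neg_one_le_cos R
    rw [abs_of_nonpos (by linarith)]
    by_cases h7 : |R| ≤ 2
    · have h8 : R ^ 2 ≤ 2 * |R| := by
        rw [← sq_abs]; nlinarith [abs_nonneg R]
      linarith
    · push Not at h7; linarith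
  rcases eI_cases hx i with h | h | h
  · rw [h2, h]
    have e : ((∑ j, n j : ℤ) : ℝ) * (2 * Real.pi) + ((-1 : ℤ) : ℝ) * Real.pi + R =
      (R - Real.pi) + ((∑ j, n j : ℤ) : ℝ) * (2 * Real.pi) := by push_cast; ring
    rw [e, Real.cos_add_int_mul_two_pi, Real.cos_sub_pi]
    push_cast
    rw [abs_neg, abs_one]
    have e2 : 1 - -Real.cos R - 2 * 1 = Real.cos R - 1 := by ring
    rw [e2]; exact hcos
  · rw [h2, h]
    have e : ((∑ j, n j : ℤ) : ℝ) * (2 * Real.pi) + ((0 : ℤ) : ℝ) * Real.pi + R =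
      R + ((∑ j, n j : ℤ) : ℝ) * (2 * Real.pi) := by push_cast; ring
    rw [e, Real.cos_add_int_mul_two_pi]
    push_cast
    rw [abs_zero, mul_zero, sub_zero, abs_sub_comm]
    exact hcos
  · rw [h2, h]
    have e : ((∑ j, n j : ℤ) : ℝ) * (2 * Real.pi) + ((1 : ℤ) : ℝ) * Real.pi + R =
      (R + Real.pi) + ((∑ j, n j : ℤ) : ℝ) * (2 * Real.pi) := by push_cast; ring
    rw [e, Real.cos_add_int_mul_two_pi, Real.cos_add_pi]
    push_cast
    rw [abs_one]
    have e2 : 1 - -Real.cos R - 2 * 1 = Real.cos R - 1 := by ring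
    rw [e2]; exact hcos

lemma Z_err {d : ℕ} (hd : 1 ≤ d) {x : Fin d → ℤ} (hx : x ∈ SS d) :
    |Z (th x) - yy x| ≤ 1 / 2 * (d * (Real.pi / 2 ^ (4 * d + 3))) := by
  have h1 := (Z_summable (th x)).hasSum
  have h2 := h1.sub (yy_hasSum x)
  have h3 : HasSum (fun i => v i * ((1 - Real.cos (th x * Mm i)) - 2 * |(eI x i : ℝ)|))
      (Z (th x) - yy x) := by
    refine HasSum.congr_fun ?_ (fun i => ?_) (f := fun i => v i * (1 - Real.cos (th x * Mm i)) - v i * (2 * |(eI x i : ℝ)|))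
    · exact h2
    · ring
  rw [← h3.tsum_eq]
  have h4 := v_hasSum.mul_right (d * (Real.pi / 2 ^ (4 * d + 3)))
  rw [← Real.norm_eq_abs]
  refine tsum_of_norm_bounded h4 (fun i => ?_)
  rw [norm_mul, Real.norm_of_nonneg (v_pos i).le, Real.norm_eq_abs]
  exact mul_le_mul_of_nonneg_left (cos_err hd hx i) (v_pos i).le

lemma yy_nonneg {d : ℕ} (x : Fin d → ℤ) : 0 ≤ yy x := by
  unfold yy
  apply Finset.sum_nonneg
  intro j _
  have := v_pos (d + j)
  positivity

/-- The Ritt property fails. -/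
theorem not_ritt (C : ℝ)
    (hC : ∀ n : ℕ, (n : ℝ) * ∑' k, |(T pp)^[n] δ0 k - (T pp)^[n + 1] δ0 k| ≤ C) : False := by
  have hp : Summable fun n => |pp n| := by rw [pp_abs]; exact pp_hasSum_one.summable
  have hp1 : ∑' n, |pp n| = 1 := by rw [pp_abs]; exact pp_hasSum_one.tsum_eq
  -- choice of the size
  obtain ⟨s, hs⟩ := exists_nat_gt (max 1 (24 * (2 * (C + 2) + 1)))
  have hs1 : (1 : ℝ) < s := lt_of_le_of_lt (le_max_left _ _) hs
  have hs2 : 24 * (2 * (C + 2) + 1) < s := lt_of_le_of_lt (le_max_right _ _) hs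
  have hs0 : 1 ≤ s := by
    have : (1 : ℕ) < s := by exact_mod_cast hs1
    omega
  set d : ℕ := s ^ 2 with hd
  have hd1 : 1 ≤ d := Nat.one_le_pow _ _ hs0
  have hdr : (d : ℝ) = (s : ℝ) ^ 2 := by rw [hd]; push_cast; ring
  set a : ℝ := 1 / s with ha
  have ha0 : 0 < a := by positivity
  have ha1 : a ≤ 1 := by
    rw [ha, div_le_one (by linarith)]; exact hs1.le
  have had : (d : ℝ) * a ^ 2 ≤ 1 := by
    rw [hdr, ha]; field_simp; exact le_refl _
  have hda : (d : ℝ) * a = s := by rw [hdr, ha]; field_simp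
  set t : ℝ := ((d : ℝ) + 1) * (d + 2) with ht
  have ht0 : 0 < t := by positivity
  -- the Ritt bound
  have h1 := poisson_bound hp hp1 C hC (SS d) (cx a) th 2 (by norm_num)
    (fun k => test_norm a had k) t ht0
  -- replace `FT` by `Z`
  have h2 : ∑ x ∈ SS d, cx a x * ((1 - FT pp (th x)) * Complex.exp (-(t * (1 - FT pp (th x))))) =
      ∑ x ∈ SS d, cx a x * ((Z (th x) * Real.exp (-(t * Z (th x))) : ℝ) : ℂ) := by
    apply Finset.sum_congr rfl
    intro x _
    rw [FT_pp]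
    have e : (1 : ℂ) - ((1 - Z (th x) : ℝ) : ℂ) = (Z (th x) : ℂ) := by push_cast; ring
    rw [e]
    push_cast
    rfl
  rw [h2] at h1
  have h3 : ∑ x ∈ SS d, cx a x * (yy x * Complex.exp (-(t * yy x))) =
      ∑ x ∈ SS d, cx a x * ((yy x * Real.exp (-(t * yy x)) : ℝ) : ℂ) := by
    apply Finset.sum_congr rfl
    intro x _
    push_cast
    rfl
  have h4 := ideal_lower (d := d) a t ha0 ha1 ht0.le
  rw [h3] at h4
  -- the difference
  set η : ℝ := 1 / 2 * (d * (Real.pi / 2 ^ (4 * d + 3))) with hη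
  have h5 : ‖∑ x ∈ SS d, cx a x * ((yy x * Real.exp (-(t * yy x)) : ℝ) : ℂ)‖ ≤
      ‖∑ x ∈ SS d, cx a x * ((Z (th x) * Real.exp (-(t * Z (th x))) : ℝ) : ℂ)‖ + (1 + a) ^ d * η := by
    have e : ∑ x ∈ SS d, cx a x * ((yy x * Real.exp (-(t * yy x)) : ℝ) : ℂ) =
        ∑ x ∈ SS d, cx a x * ((Z (th x) * Real.exp (-(t * Z (th x))) : ℝ) : ℂ) -
        ∑ x ∈ SS d, cx a x * ((Z (th x) * Real.exp (-(t * Z (th x))) -
          yy x * Real.exp (-(t * yy x)) : ℝ) : ℂ) := by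
      rw [← Finset.sum_sub_distrib]
      apply Finset.sum_congr rfl
      intro x _
      push_cast
      ring
    rw [e]
    refine (norm_sub_le _ _).trans ?_
    gcongr
    rw [← coeff_sum a ha0.le, Finset.sum_mul]
    refine (norm_sum_le _ _).trans ?_
    apply Finset.sum_le_sum
    intro x hx
    rw [norm_mul]
    gcongr
    rw [Complex.norm_real, Real.norm_eq_abs]
    exact (lip ht0.le (yy_nonneg x) (Z_nonneg _)).trans (Z_err hd1 hx)
  -- numerical estimates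
  have h6 : (s : ℝ) / 24 ≤ t * (1 / 2 * ∑ j : Fin d, (2 * v (d + j)) *
      (a * Real.exp (-(t * (2 * v (d + j)))))) := by
    have h7 : ∀ j : Fin d, a / (12 : ℝ) ≤ t * ((2 * v (d + j)) * (a * Real.exp (-(t * (2 * v (d + j)))))) := by
      intro j
      have hj : ((j : ℕ) : ℝ) ≤ d - 1 := by
        have : (j : ℕ) + 1 ≤ d := j.2
        have : ((j : ℕ) : ℝ) + 1 ≤ d := by exact_mod_cast this
        linarith
      have hj0 : (0 : ℝ) ≤ ((j : ℕ) : ℝ) := by positivity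
      have hdR : (1 : ℝ) ≤ d := by exact_mod_cast hd1
      have hv : 2 * v (d + j) = 1 / (((d : ℝ) + j + 1) * (d + j + 2)) := by
        unfold v; push_cast; field_simp
      have hden : 0 < ((d : ℝ) + j + 1) * (d + j + 2) := by positivity
      have hup : t * (2 * v (d + j)) ≤ 1 := by
        rw [hv, mul_one_div, div_le_one hden, ht]
        nlinarith
      have hlo : 1 / 4 ≤ t * (2 * v (d + j)) := by
        rw [hv, mul_one_div, div_le_div_iff₀ (by norm_num) hden, ht]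
        nlinarith
      have hexp : 1 / 3 ≤ Real.exp (-(t * (2 * v (d + j)))) := by
        have h8 : Real.exp (-1) ≤ Real.exp (-(t * (2 * v (d + j)))) := Real.exp_le_exp.mpr (by linarith)
        have h9 : 1 / 3 ≤ Real.exp (-1) := by
          rw [Real.exp_neg, ← one_div]
          apply one_div_le_one_div_of_le (Real.exp_pos _)
          linarith [Real.exp_one_lt_d9]
        linarith
      calc a / (12 : ℝ) = a * (1 / 4 * (1 / 3)) := by ring
        _ ≤ a * (t * (2 * v (d + j)) * Real.exp (-(t * (2 * v (d + j))))) := by gcongr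
        _ = _ := by ring
    calc (s : ℝ) / 24 = 1 / 2 * ∑ j : Fin d, a / 12 := by
          rw [Finset.sum_const, Finset.card_univ, Fintype.card_fin, nsmul_eq_mul, ← hda]; ring
      _ ≤ 1 / 2 * ∑ j : Fin d, t * ((2 * v (d + j)) * (a * Real.exp (-(t * (2 * v (d + j)))))) := by
          gcongr with j _
          exact h7 j
      _ = _ := by
          rw [← Finset.mul_sum]; ring
  have h7 : t * ((1 + a) ^ d * η) ≤ 1 := by
    have e1 : (1 + a) ^ d ≤ 2 ^ d := by gcongr; linarith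
    have e2 : (d : ℝ) + 1 ≤ 2 ^ d := by
      have : d + 1 ≤ 2 ^ d := Nat.lt_two_pow_self
      exact_mod_cast this
    have e3 : (d : ℝ) ≤ 2 ^ d := by linarith
    have e4 : t ≤ 2 ^ d * (2 * 2 ^ d) := by
      rw [ht]
      have hdR : (1 : ℝ) ≤ d := by exact_mod_cast hd1
      gcongr
      linarith
    have e5 : Real.pi ≤ 4 := Real.pi_le_four
    have e6 : (2 : ℝ) ^ (4 * d + 3) = 2 ^ d * 2 ^ d * 2 ^ d * 2 ^ d * 8 := by
      rw [pow_add, pow_mul']; ring
    have hpos : (0 : ℝ) < 2 ^ d := by positivity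
    rw [hη, e6]
    calc t * ((1 + a) ^ d * (1 / 2 * (d * (Real.pi / (2 ^ d * 2 ^ d * 2 ^ d * 2 ^ d * 8)))))
        ≤ (2 ^ d * (2 * 2 ^ d)) * (2 ^ d * (1 / 2 * (2 ^ d * (4 / (2 ^ d * 2 ^ d * 2 ^ d * 2 ^ d * 8))))) := by
          gcongr
      _ = 1 / 2 := by field_simp; norm_num
      _ ≤ 1 := by norm_num
  have h8 : t * ‖∑ x ∈ SS d, cx a x * ((yy x * Real.exp (-(t * yy x)) : ℝ) : ℂ)‖ ≤
      t * ‖∑ x ∈ SS d, cx a x * ((Z (th x) * Real.exp (-(t * Z (th x))) : ℝ) : ℂ)‖ + t * ((1 + a) ^ d * η) := by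
    rw [← mul_add]; gcongr
  have h9 : t * (1 / 2 * ∑ j : Fin d, (2 * v (d + j)) * (a * Real.exp (-(t * (2 * v (d + j)))))) ≤
      t * ‖∑ x ∈ SS d, cx a x * ((yy x * Real.exp (-(t * yy x)) : ℝ) : ℂ)‖ := by
    gcongr
  linarith

end Pool.Agent.H337R3.Ritt
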