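import Mathlib

set_option autoImplicit false

namespace Pool.Agent.H337R3.Sid

open Finset

section Partition

variable {ι : Type*} [DecidableEq ι]

/-- A Rado type theorem: the lists can be shrunk to single colours. -/
theorem rado (ρ : Finset ι → ℤ)
    (hsub : ∀ P Q, ρ (P ∪ Q) + ρ (P ∩ Q) ≤ ρ P + ρ Q)
    (hmono : ∀ P Q, P ⊆ Q → ρ P ≤ ρ Q) (h0 : ρ ∅ = 0) (k : ℕ) (E : Finset ι) (n : ℕ) :
    ∀ (A : ι → Finset ℕ), (∑ x ∈ E, (A x).card = n) →
      (∀ X ⊆ E, (X.card : ℤ) ≤ ∑ i ∈ range k, ρ (X.filter (fun x => i ∈ A x))) →
      ∃ c : ι → ℕ, (∀ x ∈ E, c x ∈ A x) ∧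
        ∀ X ⊆ E, (X.card : ℤ) ≤ ∑ i ∈ range k, ρ (X.filter (fun x => i = c x)) := by
  induction n using Nat.strong_induction_on with
  | _ n ih =>
    intro A hA hR
    by_cases hbig : ∃ x₀ ∈ E, 2 ≤ (A x₀).card
    · obtain ⟨x₀, hx₀, hcard⟩ := hbig
      obtain ⟨a, ha, b, hb, hab⟩ := Finset.one_lt_card.mp (by omega : 1 < (A x₀).card)
      -- the two shrunk lists
      have hupd : ∀ e ∈ A x₀, ∑ x ∈ E, ((Function.update A x₀ ((A x₀).erase e)) x).card = n - 1 := by
        intro e he
        rw [← Finset.add_sum_erase _ _ hx₀]
        rw [← Finset.add_sum_erase _ _ hx₀] at hA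
        have h1 : ∑ x ∈ E.erase x₀, ((Function.update A x₀ ((A x₀).erase e)) x).card =
            ∑ x ∈ E.erase x₀, (A x).card := by
          apply Finset.sum_congr rfl
          intro x hx
          rw [Function.update_of_ne (Finset.ne_of_mem_erase hx)]
        rw [h1, Function.update_self, Finset.card_erase_of_mem he]
        omega
      have hn : n - 1 < n := by
        have h1 : (A x₀).card ≤ ∑ x ∈ E, (A x).card :=
          Finset.single_le_sum (f := fun x => (A x).card) (fun _ _ => Nat.zero_le _) hx₀
        omega
      have hsubset : ∀ e x, (Function.update A x₀ ((A x₀).erase e)) x ⊆ A x := by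
        intro e x
        by_cases hx : x = x₀
        · rw [hx, Function.update_self]; exact Finset.erase_subset _ _
        · rw [Function.update_of_ne hx]
      by_cases h1 : ∀ X ⊆ E, (X.card : ℤ) ≤ ∑ i ∈ range k,
          ρ (X.filter (fun x => i ∈ (Function.update A x₀ ((A x₀).erase a)) x))
      · obtain ⟨c, hc1, hc2⟩ := ih (n - 1) hn _ (hupd a ha) h1
        exact ⟨c, fun x hx => hsubset a x (hc1 x hx), hc2⟩
      by_cases h2 : ∀ X ⊆ E, (X.card : ℤ) ≤ ∑ i ∈ range k,
          ρ (X.filter (fun x => i ∈ (Function.update A x₀ ((A x₀).erase b)) x))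
      · obtain ⟨c, hc1, hc2⟩ := ih (n - 1) hn _ (hupd b hb) h2
        exact ⟨c, fun x hx => hsubset b x (hc1 x hx), hc2⟩
      exfalso
      push Not at h1 h2
      obtain ⟨X, hXE, hX⟩ := h1
      obtain ⟨Y, hYE, hY⟩ := h2
      have hmem : ∀ e (Z : Finset ι), x₀ ∉ Z → ∀ i,
          Z.filter (fun x => i ∈ (Function.update A x₀ ((A x₀).erase e)) x) =
          Z.filter (fun x => i ∈ A x) := by
        intro e Z hZ i
        apply Finset.filter_congr
        intro x hx
        have hne : x ≠ x₀ := by
          intro h
          rw [h] at hx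
          exact hZ hx
        rw [Function.update_of_ne hne]
      have hxX : x₀ ∈ X := by
        by_contra hne
        simp_rw [hmem a X hne] at hX
        have := hR X hXE
        omega
      have hxY : x₀ ∈ Y := by
        by_contra hne
        simp_rw [hmem b Y hne] at hY
        have := hR Y hYE
        omega
      have hU := hR (X ∪ Y) (Finset.union_subset hXE hYE)
      have hI := hR ((X ∩ Y).erase x₀)
        ((Finset.erase_subset _ _).trans (Finset.inter_subset_left.trans hXE))
      have key : ∀ i ∈ range k, ρ ((X ∪ Y).filter (fun x => i ∈ A x)) +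
          ρ (((X ∩ Y).erase x₀).filter (fun x => i ∈ A x)) ≤
          ρ (X.filter (fun x => i ∈ (Function.update A x₀ ((A x₀).erase a)) x)) +
          ρ (Y.filter (fun x => i ∈ (Function.update A x₀ ((A x₀).erase b)) x)) := by
        intro i _
        refine le_trans ?_ (hsub _ _)
        apply add_le_add
        · apply hmono
          intro x hx
          rw [Finset.mem_filter, Finset.mem_union] at hx
          rw [Finset.mem_union, Finset.mem_filter, Finset.mem_filter]
          by_cases hxx : x = x₀
          · subst hxx
            rw [Function.update_self, Function.update_self]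
            by_cases hia : i = a
            · right
              exact ⟨hxY, Finset.mem_erase.mpr ⟨fun h => hab (hia.symm.trans h), hx.2⟩⟩
            · left
              exact ⟨hxX, Finset.mem_erase.mpr ⟨hia, hx.2⟩⟩
          · rw [Function.update_of_ne hxx, Function.update_of_ne hxx]
            rcases hx.1 with h | h
            · left; exact ⟨h, hx.2⟩
            · right; exact ⟨h, hx.2⟩
        · apply hmono
          intro x hx
          rw [Finset.mem_filter, Finset.mem_erase, Finset.mem_inter] at hx
          rw [Finset.mem_inter, Finset.mem_filter, Finset.mem_filter,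
            Function.update_of_ne hx.1.1, Function.update_of_ne hx.1.1]
          exact ⟨⟨hx.1.2.1, hx.2⟩, ⟨hx.1.2.2, hx.2⟩⟩
      have hsum := Finset.sum_le_sum key
      rw [Finset.sum_add_distrib, Finset.sum_add_distrib] at hsum
      have hc1 : ((X ∪ Y).card : ℤ) + (X ∩ Y).card = X.card + Y.card := by
        exact_mod_cast Finset.card_union_add_card_inter X Y
      have hc2 : (((X ∩ Y).erase x₀).card : ℤ) = (X ∩ Y).card - 1 := by
        have hmemI : x₀ ∈ X ∩ Y := Finset.mem_inter.mpr ⟨hxX, hxY⟩
        rw [Finset.card_erase_of_mem hmemI]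
        have : 0 < (X ∩ Y).card := Finset.card_pos.mpr ⟨x₀, hmemI⟩
        push_cast [Nat.cast_sub (by omega : 1 ≤ (X ∩ Y).card)]
        ring
      linarith
    · push Not at hbig
      have hne : ∀ x ∈ E, (A x).Nonempty := by
        intro x hx
        by_contra hempty
        rw [Finset.not_nonempty_iff_eq_empty] at hempty
        have := hR {x} (Finset.singleton_subset_iff.mpr hx)
        have h1 : ∀ i ∈ range k, ρ (({x} : Finset ι).filter (fun x => i ∈ A x)) = 0 := by
          intro i _
          rw [Finset.filter_eq_empty_iff.mpr, h0]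
          intro y hy
          rw [Finset.mem_singleton.mp hy, hempty]
          simp
        rw [Finset.sum_eq_zero h1] at this
        simp at this
      classical
      let c : ι → ℕ := fun x => if h : (A x).Nonempty then h.choose else 0
      have hc : ∀ x ∈ E, c x ∈ A x := by
        intro x hx
        have h := hne x hx
        show (if h : (A x).Nonempty then h.choose else 0) ∈ A x
        rw [dif_pos h]
        exact h.choose_spec
      have hAc : ∀ x ∈ E, ∀ i, i ∈ A x ↔ i = c x := by
        intro x hx i
        have h1 : (A x).card ≤ 1 := by have := hbig x hx; omega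
        constructor
        · intro hi
          exact Finset.card_le_one.mp h1 i hi (c x) (hc x hx)
        · rintro rfl; exact hc x hx
      refine ⟨c, hc, fun X hX => ?_⟩
      have := hR X hX
      have h2 : ∀ i, X.filter (fun x => i ∈ A x) = X.filter (fun x => i = c x) := by
        intro i
        apply Finset.filter_congr
        intro x hx
        exact hAc x (hX hx) i
      simp_rw [h2] at this
      exact this

/-- The matroid partition theorem (for rank functions). -/
theorem partition (ρ : Finset ι → ℤ)
    (hsub : ∀ P Q, ρ (P ∪ Q) + ρ (P ∩ Q) ≤ ρ P + ρ Q)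
    (hmono : ∀ P Q, P ⊆ Q → ρ P ≤ ρ Q) (h0 : ρ ∅ = 0) (hone : ∀ P, ρ P ≤ P.card)
    (k : ℕ) (E : Finset ι) (h : ∀ X ⊆ E, (X.card : ℤ) ≤ k * ρ X) :
    ∃ c : ι → ℕ, (∀ x ∈ E, c x < k) ∧
      ∀ i, i < k → ρ (E.filter (fun x => i = c x)) = (E.filter (fun x => i = c x)).card := by
  obtain ⟨c, hc1, hc2⟩ := rado ρ hsub hmono h0 k E _ (fun _ => range k) rfl (by
    intro X hX
    have h1 : ∀ i ∈ range k, ρ (X.filter (fun _ => i ∈ range k)) = ρ X := by
      intro i hi
      congr 1
      rw [Finset.filter_eq_self]
      intro _ _; exact hi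
    rw [Finset.sum_congr rfl h1, Finset.sum_const, Finset.card_range, nsmul_eq_mul]
    exact h X hX)
  have hck : ∀ x ∈ E, c x < k := fun x hx => Finset.mem_range.mp (hc1 x hx)
  refine ⟨c, hck, ?_⟩
  have h1 := hc2 E (Finset.Subset.refl _)
  have h2 : (E.card : ℤ) = ∑ i ∈ range k, ((E.filter (fun x => i = c x)).card : ℤ) := by
    have := Finset.card_eq_sum_card_fiberwise (f := c) (s := E) (t := range k)
      (fun x hx => Finset.mem_coe.mpr (hc1 x hx))
    rw [this]
    push_cast
    apply Finset.sum_congr rfl
    intro i _
    congr 2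
    apply Finset.filter_congr
    intro x _
    exact eq_comm
  rw [h2] at h1
  have h3 : ∀ i ∈ range k, ρ (E.filter (fun x => i = c x)) ≤ ((E.filter (fun x => i = c x)).card : ℤ) :=
    fun i _ => hone _
  have h4 := (Finset.sum_eq_sum_iff_of_le h3).mp (le_antisymm (Finset.sum_le_sum h3) h1)
  intro i hi
  exact h4 i (Finset.mem_range.mpr hi)

end Partition

section Group

universe u

/-- multiples of `q` -/
def mulRange (M : Type*) [AddCommGroup M] (q : ℕ) : AddSubgroup M :=
  (nsmulAddMonoidHom (α := M) q).range

/-- the order of a group of exponent dividing `q₁ ... q_r` is at most `∏ |M / q_i M|` -/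
theorem card_le_prod (l : List ℕ) : ∀ (M : Type u) [AddCommGroup M] [Finite M],
    (∀ m : M, l.prod • m = 0) →
    Nat.card M ≤ (l.map fun q => Nat.card (M ⧸ mulRange M q)).prod := by
  induction l with
  | nil =>
    intro M _ _ h
    have : Subsingleton M := ⟨fun a b => by
      have h1 := h a
      have h2 := h b
      simp at h1 h2
      rw [h1, h2]⟩
    simp
  | cons q l ih =>
    intro M _ _ h
    set N : AddSubgroup M := mulRange M q with hN
    have h1 : Nat.card M = Nat.card (M ⧸ N) * Nat.card N := AddSubgroup.card_eq_card_quotient_mul_card_addSubgroup N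
    have h2 := ih N (by
      rintro ⟨m, hm⟩
      obtain ⟨m', rfl⟩ := hm
      ext
      have := h m'
      rw [List.prod_cons, mul_comm, mul_smul] at this
      exact this)
    have h3 : ∀ p : ℕ, Nat.card (N ⧸ mulRange N p) ≤ Nat.card (M ⧸ mulRange M p) := by
      intro p
      -- the map `m ↦ q m` induces a surjection
      let f : M →+ N := (nsmulAddMonoidHom (α := M) q).rangeRestrict
      have hf : Function.Surjective f := AddMonoidHom.rangeRestrict_surjective _
      let g : M ⧸ mulRange M p →+ N ⧸ mulRange N p :=
        QuotientAddGroup.map (mulRange M p) (mulRange N p) f (by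
          rintro m ⟨m', rfl⟩
          refine ⟨f m', ?_⟩
          show p • f m' = f (p • m')
          rw [map_nsmul])
      have hg : Function.Surjective g := by
        intro y
        obtain ⟨y', rfl⟩ := QuotientAddGroup.mk_surjective y
        obtain ⟨x, rfl⟩ := hf y'
        exact ⟨(x : M ⧸ mulRange M p), rfl⟩
      exact Nat.card_le_card_of_surjective g hg
    rw [List.map_cons, List.prod_cons, h1]
    apply Nat.mul_le_mul le_rfl
    refine h2.trans ?_
    apply List.prod_le_prod'
    intro p _
    exact h3 p

end Group

end Pool.Agent.H337R3.Sid
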