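import Pool.Agent.H337R3.Sid1

set_option autoImplicit false
set_option linter.unusedSectionVars false

namespace Pool.Agent.H337R3.Sid

open Finset

universe u

section Rank

variable {ι : Type*} [DecidableEq ι] {q : ℕ} [Fact q.Prime] {V : Type*} [AddCommGroup V]
  [Module (ZMod q) V] [Module.Finite (ZMod q) V]

/-- rank of a finite family of vectors -/
noncomputable def rk (q : ℕ) [Fact q.Prime] {V : Type*} [AddCommGroup V]
    [Module (ZMod q) V] (v : ι → V) (P : Finset ι) : ℤ :=
  (Module.finrank (ZMod q) (Submodule.span (ZMod q) (v '' (P : Set ι))) : ℤ)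

theorem rk_nonneg (v : ι → V) (P : Finset ι) : 0 ≤ rk q v P := Int.natCast_nonneg _

theorem rk_mono (v : ι → V) (P Q : Finset ι) (h : P ⊆ Q) : rk q v P ≤ rk q v Q := by
  unfold rk
  exact_mod_cast Submodule.finrank_mono
    (Submodule.span_mono (Set.image_mono (Finset.coe_subset.mpr h)))

theorem rk_empty (v : ι → V) : rk q v ∅ = 0 := by
  unfold rk
  simp

theorem rk_sub (v : ι → V) (P Q : Finset ι) :
    rk q v (P ∪ Q) + rk q v (P ∩ Q) ≤ rk q v P + rk q v Q := by
  unfold rk
  have h1 : Submodule.span (ZMod q) (v '' ((P ∪ Q : Finset ι) : Set ι)) =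
      Submodule.span (ZMod q) (v '' (P : Set ι)) ⊔ Submodule.span (ZMod q) (v '' (Q : Set ι)) := by
    rw [Finset.coe_union, Set.image_union, Submodule.span_union]
  have h2 : Submodule.span (ZMod q) (v '' ((P ∩ Q : Finset ι) : Set ι)) ≤
      Submodule.span (ZMod q) (v '' (P : Set ι)) ⊓ Submodule.span (ZMod q) (v '' (Q : Set ι)) := by
    apply le_inf
    · exact Submodule.span_mono (Set.image_mono (Finset.coe_subset.mpr Finset.inter_subset_left))
    · exact Submodule.span_mono (Set.image_mono (Finset.coe_subset.mpr Finset.inter_subset_right))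
  have h3 := Submodule.finrank_sup_add_finrank_inf_eq
    (Submodule.span (ZMod q) (v '' (P : Set ι))) (Submodule.span (ZMod q) (v '' (Q : Set ι)))
  have h4 := Submodule.finrank_mono h2
  rw [h1]
  exact_mod_cast (by omega : Module.finrank (ZMod q) ↥(Submodule.span (ZMod q) (v '' (P : Set ι)) ⊔
    Submodule.span (ZMod q) (v '' (Q : Set ι))) + Module.finrank (ZMod q)
      ↥(Submodule.span (ZMod q) (v '' ((P ∩ Q : Finset ι) : Set ι))) ≤ _)

theorem rk_le_card (v : ι → V) (P : Finset ι) : rk q v P ≤ P.card := by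
  classical
  unfold rk
  have h1 : v '' (P : Set ι) = ((P.image v : Finset V) : Set V) := by
    rw [Finset.coe_image]
  rw [h1]
  have h2 := finrank_span_finset_le_card (R := ZMod q) (P.image v)
  have h3 : (P.image v).card ≤ P.card := Finset.card_image_le
  exact_mod_cast h2.trans h3

/-- if `v x` is in the span of `P`, adding `x` does not change the rank -/
theorem rk_insert (v : ι → V) (P : Finset ι) (x : ι)
    (hx : v x ∈ Submodule.span (ZMod q) (v '' (P : Set ι))) : rk q v (insert x P) = rk q v P := by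
  unfold rk
  rw [Finset.coe_insert, Set.image_insert_eq, Submodule.span_insert_eq_span hx]

/-- A relation forces a drop of the rank. -/
theorem rk_drop (v : ι → V) (B D' : Finset ι) (hdis : Disjoint B D') (ξ : ι → ℤ)
    (hrel : ∑ x ∈ B ∪ D', ((ξ x : ℤ) : ZMod q) • v x = 0)
    (hfull : rk q v (B ∪ D') = B.card + rk q v D') :
    ∀ x ∈ B, ((ξ x : ℤ) : ZMod q) = 0 := by
  intro x hx
  by_contra hne
  have hxD : x ∉ D' := fun h => (Finset.disjoint_left.mp hdis) hx h
  have hins : B ∪ D' = insert x ((B.erase x) ∪ D') := by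
    ext y
    simp only [Finset.mem_union, Finset.mem_insert, Finset.mem_erase]
    by_cases hy : y = x
    · subst hy; simp [hx]
    · simp [hy]
  have hxn : x ∉ (B.erase x) ∪ D' := by
    simp [hxD]
  have hspan : v x ∈ Submodule.span (ZMod q) (v '' (((B.erase x) ∪ D' : Finset ι) : Set ι)) := by
    rw [hins, Finset.sum_insert hxn] at hrel
    have h1 : ((ξ x : ℤ) : ZMod q) • v x = -∑ y ∈ (B.erase x) ∪ D', ((ξ y : ℤ) : ZMod q) • v y :=
      eq_neg_of_add_eq_zero_left hrel
    have h2 : v x = ((ξ x : ℤ) : ZMod q)⁻¹ • (((ξ x : ℤ) : ZMod q) • v x) := by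
      rw [smul_smul, inv_mul_cancel₀ hne, one_smul]
    rw [h2, h1]
    apply Submodule.smul_mem
    apply Submodule.neg_mem
    apply Submodule.sum_mem
    intro y hy
    apply Submodule.smul_mem
    exact Submodule.subset_span ⟨y, Finset.mem_coe.mpr hy, rfl⟩
  have h3 := rk_insert v _ x hspan
  rw [← hins, hfull] at h3
  have h4 := rk_sub (q := q) v (B.erase x) D'
  have h5 := rk_le_card (q := q) v (B.erase x)
  have h6 := rk_nonneg (q := q) v ((B.erase x) ∩ D')
  have h7 : ((B.erase x).card : ℤ) = B.card - 1 := by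
    rw [Finset.card_erase_of_mem hx]
    have : 0 < B.card := Finset.card_pos.mpr ⟨x, hx⟩
    push_cast [Nat.cast_sub (by omega : 1 ≤ B.card)]
    ring
  linarith

/-- One step: peel off a nonempty part of `D`, coloured with `k` colours which are independent modulo
the rest. -/
theorem peel (v : ι → V) (D : Finset ι) (hD : D.Nonempty) (k : ℕ)
    (hk : (D.card : ℤ) < k * rk q v D) :
    ∃ D' ⊂ D, ∃ c : ι → ℕ, (∀ x ∈ D \ D', c x < k) ∧ ∀ i < k, ∀ ξ : ι → ℤ,
      ∑ x ∈ ((D \ D').filter (fun x => i = c x)) ∪ D', ((ξ x : ℤ) : ZMod q) • v x = 0 →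
      ∀ x ∈ (D \ D').filter (fun x => i = c x), ((ξ x : ℤ) : ZMod q) = 0 := by
  -- the maximiser
  obtain ⟨D', hD', hmax⟩ := Finset.exists_max_image D.powerset
    (fun P => (P.card : ℤ) - k * rk q v P) ⟨∅, Finset.empty_mem_powerset D⟩
  rw [Finset.mem_powerset] at hD'
  have h0 := hmax ∅ (Finset.empty_mem_powerset D)
  simp only [Finset.card_empty, rk_empty, Nat.cast_zero, mul_zero, sub_zero] at h0
  have hne : D' ≠ D := by
    rintro rfl
    linarith
  have hss : D' ⊂ D := Finset.ssubset_iff_subset_ne.mpr ⟨hD', hne⟩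
  obtain ⟨c, hc1, hc2⟩ := partition (fun X => rk q v (X ∪ D') - rk q v D')
    (by
      intro P Q
      have h1 := rk_sub (q := q) v (P ∪ D') (Q ∪ D')
      have h2 : (P ∪ D') ∪ (Q ∪ D') = (P ∪ Q) ∪ D' := by
        ext y; simp only [Finset.mem_union]; tauto
      have h3 : (P ∪ D') ∩ (Q ∪ D') = (P ∩ Q) ∪ D' := by
        ext y; simp only [Finset.mem_union, Finset.mem_inter]; tauto
      rw [h2, h3] at h1
      show rk q v (P ∪ Q ∪ D') - rk q v D' + (rk q v (P ∩ Q ∪ D') - rk q v D') ≤ _
      linarith)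
    (by
      intro P Q hPQ
      have := rk_mono (q := q) v (P ∪ D') (Q ∪ D') (Finset.union_subset_union_left hPQ)
      show rk q v (P ∪ D') - rk q v D' ≤ rk q v (Q ∪ D') - rk q v D'
      linarith)
    (by simp)
    (by
      intro P
      have h1 := rk_sub (q := q) v P D'
      have h2 := rk_le_card (q := q) v P
      have h3 := rk_nonneg (q := q) v (P ∩ D')
      show rk q v (P ∪ D') - rk q v D' ≤ P.card
      linarith) k (D \ D') (by
      intro X hX
      have h1 := hmax (X ∪ D') (Finset.mem_powerset.mpr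
        (Finset.union_subset (hX.trans Finset.sdiff_subset) hD'))
      have h2 : (X ∪ D').card = X.card + D'.card := by
        rw [Finset.card_union_of_disjoint]
        rw [Finset.disjoint_left]
        intro y hy
        exact (Finset.mem_sdiff.mp (hX hy)).2
      simp only [h2] at h1
      push_cast at h1
      show (X.card : ℤ) ≤ k * (rk q v (X ∪ D') - rk q v D')
      linarith)
  refine ⟨D', hss, c, hc1, ?_⟩
  intro i hi ξ hrel
  have h1 := hc2 i hi
  have h2 : rk q v ((D \ D').filter (fun x => i = c x) ∪ D') =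
      ((D \ D').filter (fun x => i = c x)).card + rk q v D' := by
    have : rk q v ((D \ D').filter (fun x => i = c x) ∪ D') - rk q v D' =
      ((D \ D').filter (fun x => i = c x)).card := h1
    linarith
  refine rk_drop v _ D' ?_ ξ hrel h2
  rw [Finset.disjoint_left]
  intro y hy
  exact (Finset.mem_sdiff.mp (Finset.mem_filter.mp hy).1).2

end Rank

section Chain

variable {Γ : Type u} [AddCommGroup Γ]

theorem closure_exp (n : ℕ) (S : Set Γ) (hexp : ∀ x ∈ S, n • x = 0) :
    ∀ x ∈ AddSubgroup.closure S, n • x = 0 := by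
  intro x hx
  induction hx using AddSubgroup.closure_induction with
  | mem x hx => exact hexp x hx
  | zero => exact smul_zero _
  | add x y hx hy h1 h2 => rw [smul_add, h1, h2, add_zero]
  | neg x hx h1 => rw [smul_neg, h1, neg_zero]

theorem closure_finite (n : ℕ) (hn : 0 < n) (D : Finset Γ) (hexp : ∀ x ∈ D, n • x = 0) :
    Finite (AddSubgroup.closure (D : Set Γ)) := by
  have h1 : AddGroup.FG (AddSubgroup.closure (D : Set Γ)) := by
    rw [AddGroup.fg_iff_addSubgroup_fg]
    exact ⟨D, rfl⟩
  apply AddCommGroup.finite_of_fg_isAddTorsion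
  intro x
  rw [isOfFinAddOrder_iff_nsmul_eq_zero]
  refine ⟨n, hn, ?_⟩
  ext
  simp only [AddSubgroup.coe_nsmul, ZeroMemClass.coe_zero]
  exact closure_exp n _ hexp x x.2

/-- the class of `x` in `M / q M` -/
noncomputable def vec (M : AddSubgroup Γ) (q : ℕ) (x : Γ) : M ⧸ mulRange M q :=
  open Classical in if h : x ∈ M then ((⟨x, h⟩ : M) : M ⧸ mulRange M q) else 0

theorem vec_of_mem (M : AddSubgroup Γ) (q : ℕ) (x : Γ) (h : x ∈ M) :
    vec M q x = ((⟨x, h⟩ : M) : M ⧸ mulRange M q) := dif_pos h

theorem quot_exp (M : Type u) [AddCommGroup M] (q : ℕ) (y : M ⧸ mulRange M q) : q • y = 0 := by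
  obtain ⟨y', rfl⟩ := QuotientAddGroup.mk_surjective y
  rw [← QuotientAddGroup.mk_nsmul, QuotientAddGroup.eq_zero_iff]
  exact ⟨y', rfl⟩

noncomputable instance quotModule (M : Type u) [AddCommGroup M] (q : ℕ) :
    Module (ZMod q) (M ⧸ mulRange M q) := AddCommGroup.zmodModule (quot_exp M q)

variable [DecidableEq Γ]

/-- The size condition: `2 ^ |X| ≤ |⟨X⟩| ^ K`. -/
def Small (K : ℕ) (Λ : Set Γ) : Prop :=
  ∀ X : Finset Γ, (X : Set Γ) ⊆ Λ → 2 ^ X.card ≤ (Nat.card (AddSubgroup.closure (X : Set Γ))) ^ K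

theorem step (l : List ℕ) (hl : ∀ q ∈ l, q.Prime) (K : ℕ)
    (D : Finset Γ) (hD : D.Nonempty) (hexp : ∀ x ∈ D, l.prod • x = 0)
    (hsize : 2 ^ D.card ≤ (Nat.card (AddSubgroup.closure (D : Set Γ))) ^ K) :
    ∃ D' ⊂ D, ∃ c : Γ → ℕ, (∀ x ∈ D \ D', c x < l.prod * (K * l.length) + 1) ∧
      ∀ i < l.prod * (K * l.length) + 1, ∀ ξ : Γ → ℤ, (∀ x, ξ x = -1 ∨ ξ x = 0 ∨ ξ x = 1) →
      ∑ x ∈ ((D \ D').filter (fun x => i = c x)) ∪ D', ξ x • x = 0 →
      ∀ x ∈ (D \ D').filter (fun x => i = c x), ξ x = 0 := by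
  have hprod : 0 < l.prod := List.prod_pos (fun q hq => (hl q hq).pos)
  set M := AddSubgroup.closure (D : Set Γ) with hM
  have hMfin : Finite M := closure_finite l.prod hprod D hexp
  have hMcard : Nat.card M ≤ (l.map fun q => Nat.card (M ⧸ mulRange M q)).prod := by
    apply card_le_prod l M
    intro m
    ext
    simp only [AddSubgroup.coe_nsmul, ZeroMemClass.coe_zero]
    exact closure_exp l.prod _ hexp m m.2
  have hDcard : 0 < D.card := Finset.card_pos.mpr hD
  -- choose the best prime
  have hbest : ∃ q ∈ l, Nat.card M ≤ (Nat.card (M ⧸ mulRange M q)) ^ l.length := by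
    have hlne : l ≠ [] := by
      rintro rfl
      simp only [List.map_nil, List.prod_nil] at hMcard
      have h1 : Nat.card M ^ K ≤ 1 := by
        calc Nat.card M ^ K ≤ 1 ^ K := Nat.pow_le_pow_left hMcard K
          _ = 1 := one_pow K
      have h2 : 1 < 2 ^ D.card := Nat.one_lt_two_pow hDcard.ne'
      omega
    obtain ⟨q, hq, hmax⟩ : ∃ q ∈ l, ∀ q' ∈ l, Nat.card (M ⧸ mulRange M q') ≤
        Nat.card (M ⧸ mulRange M q) := by
      have hne : l.toFinset.Nonempty := by
        rw [List.toFinset_nonempty_iff]; exact hlne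
      obtain ⟨q, hq, hmax⟩ := Finset.exists_max_image l.toFinset
        (fun q => Nat.card (M ⧸ mulRange M q)) hne
      exact ⟨q, List.mem_toFinset.mp hq, fun q' hq' => hmax q' (List.mem_toFinset.mpr hq')⟩
    refine ⟨q, hq, hMcard.trans ?_⟩
    have := List.prod_le_pow_card (l.map fun q => Nat.card (M ⧸ mulRange M q))
      (Nat.card (M ⧸ mulRange M q)) (by
        intro x hx
        obtain ⟨q', hq', rfl⟩ := List.mem_map.mp hx
        exact hmax q' hq')
    rw [List.length_map] at this
    exact this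
  obtain ⟨q, hq, hle⟩ := hbest
  have : Fact q.Prime := ⟨hl q hq⟩
  have : Finite (M ⧸ mulRange M q) := inferInstance
  have : Module.Finite (ZMod q) (M ⧸ mulRange M q) := Module.Finite.of_finite
  have hspan : Submodule.span (ZMod q) (vec M q '' (D : Set Γ)) =
      (⊤ : Submodule (ZMod q) (M ⧸ mulRange M q)) := by
    rw [eq_top_iff]
    rintro y -
    obtain ⟨⟨m, hm⟩, rfl⟩ := QuotientAddGroup.mk_surjective y
    induction hm using AddSubgroup.closure_induction with
    | mem x hx =>
      apply Submodule.subset_span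
      exact ⟨x, hx, vec_of_mem M q x (AddSubgroup.subset_closure hx)⟩
    | zero => exact Submodule.zero_mem _
    | add x y hx hy h1 h2 => exact Submodule.add_mem _ h1 h2
    | neg x hx h1 => exact Submodule.neg_mem _ h1
  have hrk : rk q (vec M q) D = Module.finrank (ZMod q) (M ⧸ mulRange M q) := by
    unfold rk
    rw [hspan, finrank_top]
  have hcardV : Nat.card (M ⧸ mulRange M q) = q ^ Module.finrank (ZMod q) (M ⧸ mulRange M q) := by
    rw [Module.natCard_eq_pow_finrank (K := ZMod q), Nat.card_zmod]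
  set d := Module.finrank (ZMod q) (M ⧸ mulRange M q) with hd
  have hql : q ≤ l.prod := Nat.le_of_dvd hprod (List.dvd_prod hq)
  have h1 : D.card ≤ l.prod * (K * l.length) * d := by
    have h2 : 2 ^ D.card ≤ 2 ^ (l.prod * (K * l.length) * d) := by
      calc 2 ^ D.card ≤ (Nat.card M) ^ K := hsize
        _ ≤ ((q ^ d) ^ l.length) ^ K := by
          apply Nat.pow_le_pow_left
          rw [← hcardV]; exact hle
        _ = q ^ (K * l.length * d) := by
          rw [← pow_mul, ← pow_mul]; congr 1; ring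
        _ ≤ (2 ^ l.prod) ^ (K * l.length * d) := by
          apply Nat.pow_le_pow_left
          exact hql.trans (Nat.lt_two_pow_self).le
        _ = 2 ^ (l.prod * (K * l.length) * d) := by
          rw [← pow_mul]; congr 1; ring
    exact (Nat.pow_le_pow_iff_right (by norm_num)).mp h2
  have hdpos : 0 < d := by
    by_contra h
    have : d = 0 := by omega
    rw [this] at h1
    omega
  obtain ⟨D', hss, c, hc1, hc2⟩ := peel (q := q) (vec M q) D hD (l.prod * (K * l.length) + 1) (by
    rw [hrk]
    have h3 : D.card < (l.prod * (K * l.length) + 1) * d := by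
      calc D.card ≤ l.prod * (K * l.length) * d := h1
        _ < l.prod * (K * l.length) * d + d := by omega
        _ = _ := by ring
    exact_mod_cast h3)
  refine ⟨D', hss, c, hc1, ?_⟩
  intro i hi ξ hξ hrel x hx
  set B := (D \ D').filter (fun x => i = c x) with hB
  have hsubM : ∀ y ∈ B ∪ D', y ∈ M := by
    intro y hy
    apply AddSubgroup.subset_closure
    rcases Finset.mem_union.mp hy with h | h
    · exact Finset.mem_coe.mpr (Finset.sdiff_subset (Finset.mem_filter.mp h).1)
    · exact Finset.mem_coe.mpr (hss.1 h)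
  have hrel' : ∑ y ∈ B ∪ D', ((ξ y : ℤ) : ZMod q) • vec M q y = 0 := by
    have h3 : ∑ y ∈ (B ∪ D').attach, ξ y.1 • (⟨y.1, hsubM y.1 y.2⟩ : M) = 0 := by
      ext
      rw [AddSubgroup.val_finset_sum]
      simp only [AddSubgroup.coe_zsmul, ZeroMemClass.coe_zero]
      rw [← hrel, ← Finset.sum_attach (B ∪ D')]
    have h4 := congrArg (QuotientAddGroup.mk' (mulRange M q)) h3
    rw [map_sum, map_zero] at h4
    rw [← Finset.sum_attach, ← h4]
    apply Finset.sum_congr rfl
    intro y _
    rw [map_zsmul, vec_of_mem M q y.1 (hsubM y.1 y.2), Int.cast_smul_eq_zsmul]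
    rfl
  have h5 := hc2 i hi ξ hrel' x hx
  have hq2 := (hl q hq).two_le
  have hq1 : (1 : ZMod q) ≠ 0 := one_ne_zero
  rcases hξ x with h | h | h
  · rw [h] at h5
    exfalso
    apply hq1
    push_cast at h5
    simpa using h5
  · exact h
  · rw [h] at h5
    exfalso
    apply hq1
    push_cast at h5
    simpa using h5

/-- `D` can be coloured with `k` colours so that every class is quasi-independent. -/
def Col (k : ℕ) (D : Finset Γ) (c : Γ → ℕ) : Prop :=
  (∀ x ∈ D, c x < k) ∧ ∀ i < k, ∀ ξ : Γ → ℤ, (∀ x, ξ x = -1 ∨ ξ x = 0 ∨ ξ x = 1) →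
    ∑ x ∈ D.filter (fun x => i = c x), ξ x • x = 0 → ∀ x ∈ D.filter (fun x => i = c x), ξ x = 0

theorem exists_col (l : List ℕ) (hl : ∀ q ∈ l, q.Prime) (K : ℕ)
    (Λ : Set Γ) (hexp : ∀ x ∈ Λ, l.prod • x = 0) (hΛ : Small K Λ) (m : ℕ) : ∀ D : Finset Γ, D.card = m → (D : Set Γ) ⊆ Λ →
    ∃ c : Γ → ℕ, Col (l.prod * (K * l.length) + 1) D c := by
  induction m using Nat.strong_induction_on with
  | _ m ih =>
    intro D hm hD
    by_cases hne : D.Nonempty
    · obtain ⟨D', hss, c, hc1, hc2⟩ := step l hl K D hne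
        (fun x hx => hexp x (hD (Finset.mem_coe.mpr hx))) (hΛ D hD)
      obtain ⟨c', hc'1, hc'2⟩ := ih D'.card (by rw [← hm]; exact Finset.card_lt_card hss) D' rfl
        (fun x hx => hD (Finset.mem_coe.mpr (hss.1 (Finset.mem_coe.mp hx))))
      refine ⟨fun x => if x ∈ D' then c' x else c x, ?_, ?_⟩
      · intro x hx
        by_cases h : x ∈ D'
        · simp only [h, if_true]; exact hc'1 x h
        · simp only [h, if_false]; exact hc1 x (Finset.mem_sdiff.mpr ⟨hx, h⟩)
      · intro i hi ξ hξ hrel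
        have hsplit : D.filter (fun x => i = if x ∈ D' then c' x else c x) =
            (D \ D').filter (fun x => i = c x) ∪ D'.filter (fun x => i = c' x) := by
          ext y
          simp only [Finset.mem_filter, Finset.mem_union, Finset.mem_sdiff]
          by_cases h : y ∈ D'
          · simp [h, hss.1 h]
          · simp [h]
        rw [hsplit] at hrel ⊢
        have hdis : Disjoint ((D \ D').filter (fun x => i = c x)) (D'.filter (fun x => i = c' x)) := by
          rw [Finset.disjoint_left]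
          intro y hy hy'
          exact (Finset.mem_sdiff.mp (Finset.mem_filter.mp hy).1).2 (Finset.mem_filter.mp hy').1
        have hdis2 : Disjoint ((D \ D').filter (fun x => i = c x)) D' := by
          rw [Finset.disjoint_left]
          intro y hy hy'
          exact (Finset.mem_sdiff.mp (Finset.mem_filter.mp hy).1).2 hy'
        let ξ' : Γ → ℤ := fun x => if x ∈ D' ∧ i ≠ c' x then 0 else ξ x
        have hξ' : ∀ x, ξ' x = -1 ∨ ξ' x = 0 ∨ ξ' x = 1 := by
          intro x
          by_cases h : x ∈ D' ∧ i ≠ c' x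
          · right; left; exact if_pos h
          · have : ξ' x = ξ x := if_neg h
            rw [this]; exact hξ x
        have hB : ∀ x ∈ (D \ D').filter (fun x => i = c x), ξ' x = ξ x := by
          intro x hx
          apply if_neg
          rintro ⟨h, -⟩
          exact (Finset.disjoint_left.mp hdis2 hx) h
        have hrel' : ∑ x ∈ ((D \ D').filter (fun x => i = c x)) ∪ D', ξ' x • x = 0 := by
          rw [← hrel, Finset.sum_union hdis, Finset.sum_union hdis2]
          congr 1
          · exact Finset.sum_congr rfl (fun x hx => by rw [hB x hx])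
          · rw [Finset.sum_filter]
            apply Finset.sum_congr rfl
            intro x hx
            by_cases h : i = c' x
            · rw [if_pos h]
              have : ξ' x = ξ x := if_neg (fun hh => hh.2 h)
              rw [this]
            · rw [if_neg h]
              have : ξ' x = 0 := if_pos ⟨hx, h⟩
              rw [this, zero_smul]
        have hz := hc2 i hi ξ' hξ' hrel'
        have hzB : ∀ x ∈ (D \ D').filter (fun x => i = c x), ξ x = 0 := by
          intro x hx
          rw [← hB x hx]; exact hz x hx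
        have hrel2 : ∑ x ∈ D'.filter (fun x => i = c' x), ξ x • x = 0 := by
          rw [Finset.sum_union hdis] at hrel
          rw [Finset.sum_eq_zero (fun x hx => by rw [hzB x hx, zero_smul]), zero_add] at hrel
          exact hrel
        have hz2 := hc'2 i hi ξ hξ hrel2
        intro x hx
        rcases Finset.mem_union.mp hx with h | h
        · exact hzB x h
        · exact hz2 x h
    · rw [Finset.not_nonempty_iff_eq_empty] at hne
      subst hne
      exact ⟨fun _ => 0, fun x hx => absurd hx (Finset.notMem_empty x), fun i _ ξ _ _ x hx => by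
        simp at hx⟩

/-- Quasi-independence (for finite subsets and integer valued functions). -/
def QI (Λ : Set Γ) : Prop :=
  ∀ A : Finset Γ, (A : Set Γ) ⊆ Λ → ∀ ξ : Γ → ℤ, (∀ x ∈ A, ξ x = -1 ∨ ξ x = 0 ∨ ξ x = 1) →
    ∑ x ∈ A, ξ x • x = 0 → ∀ x ∈ A, ξ x = 0

/-- **Main combinatorial theorem.** -/
theorem finite_union (l : List ℕ) (hl : ∀ q ∈ l, q.Prime) (K : ℕ)
    (Λ : Set Γ) (hexp : ∀ x ∈ Λ, l.prod • x = 0) (hΛ : Small K Λ) :
    ∃ Q : Fin (l.prod * (K * l.length) + 1) → Set Γ, (∀ i, QI (Q i)) ∧ Λ = ⋃ i, Q i := by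
  classical
  set k := l.prod * (K * l.length) + 1 with hk
  -- the local colourings
  have hloc : ∀ D : Finset Γ, ∃ c : Γ → Fin k, ∀ E ⊆ D, (E : Set Γ) ⊆ Λ →
      ∀ i, (∀ x ∈ E, c x = i) → ∀ ξ : Γ → ℤ, (∀ x ∈ E, ξ x = -1 ∨ ξ x = 0 ∨ ξ x = 1) →
        ∑ x ∈ E, ξ x • x = 0 → ∀ x ∈ E, ξ x = 0 := by
    intro D
    set D₀ := D.filter (fun x => x ∈ Λ) with hD₀
    obtain ⟨c, hc1, hc2⟩ := exists_col l hl K Λ hexp hΛ D₀.card D₀ rfl (by
      intro x hx
      exact (Finset.mem_filter.mp (Finset.mem_coe.mp hx)).2)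
    refine ⟨fun x => if h : c x < k then ⟨c x, h⟩ else ⟨0, by omega⟩, ?_⟩
    intro E hE hEΛ i hi ξ hξ hrel x hx
    have hED : E ⊆ D₀.filter (fun x => (i : ℕ) = c x) := by
      intro y hy
      rw [Finset.mem_filter]
      have hy0 : y ∈ D₀ := Finset.mem_filter.mpr ⟨hE hy, hEΛ (Finset.mem_coe.mpr hy)⟩
      refine ⟨hy0, ?_⟩
      have h1 := hi y hy
      have h2 : c y < k := hc1 y hy0
      have h3 : (⟨c y, h2⟩ : Fin k) = i := by
        rw [← h1]
        exact (dif_pos h2).symm
      rw [← h3]
    let ξ' : Γ → ℤ := fun y => if y ∈ E then ξ y else 0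
    have h1 := hc2 i i.2 ξ' (by
      intro y
      by_cases h : y ∈ E
      · have : ξ' y = ξ y := if_pos h
        rw [this]; exact hξ y h
      · right; left; exact if_neg h) (by
      rw [← hrel]
      symm
      rw [← Finset.sum_subset hED]
      · apply Finset.sum_congr rfl
        intro y hy
        have : ξ' y = ξ y := if_pos hy
        rw [this]
      · intro y _ hy
        have : ξ' y = 0 := if_neg hy
        rw [this, zero_smul]) x (hED hx)
    have h2 : ξ' x = ξ x := if_pos hx
    rw [← h2]; exact h1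
  choose g hg using hloc
  obtain ⟨χ, hχ⟩ := Finset.rado_selection (β := fun _ : Γ => Fin k) g
  refine ⟨fun i => {x | x ∈ Λ ∧ χ x = i}, ?_, ?_⟩
  · intro i A hA ξ hξ hrel
    obtain ⟨t, ht, htx⟩ := hχ A
    refine hg t A ht (fun x hx => (hA hx).1) i ?_ ξ hξ hrel
    intro x hx
    rw [← htx x hx]
    exact (hA (Finset.mem_coe.mpr hx)).2
  · ext x
    simp

end Chain

end Pool.Agent.H337R3.Sid
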