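import Pool.Agent.H337R3.Sid2

set_option autoImplicit false
set_option linter.unusedSectionVars false

namespace Pool.Agent.H337R3.Sid

open Finset MeasureTheory

universe u

/-- The `ψ₂` norm. -/
noncomputable def psi2 {G : Type*} [MeasurableSpace G] (μ : Measure G) (f : G → ℂ) : ℝ :=
  sInf {c : ℝ | 0 < c ∧ ∫ t, Real.exp (‖f t‖ ^ 2 / c ^ 2) ∂μ ≤ Real.exp 1}

/-- A system of characters on a probability space. -/
structure CharSys {Γ : Type u} [AddCommGroup Γ] {G : Type*} [MeasurableSpace G] (μ : Measure G)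
    (χ : Γ → G → ℂ) : Prop where
  zero : ∀ t, χ 0 t = 1
  add : ∀ m n t, χ (m + n) t = χ m t * χ n t
  norm : ∀ n t, ‖χ n t‖ = 1
  meas : ∀ n, Measurable (χ n)
  orth : ∀ n, n ≠ 0 → ∫ t, χ n t ∂μ = 0

section

variable {Γ : Type u} [AddCommGroup Γ] {G : Type*} [MeasurableSpace G] {μ : Measure G}
  [IsProbabilityMeasure μ] {χ : Γ → G → ℂ}

theorem integrable_exp_bdd {f : G → ℂ} (hf : Measurable f) {B : ℝ} (hB : ∀ t, ‖f t‖ ≤ B) (c : ℝ) :
    Integrable (fun t => Real.exp (‖f t‖ ^ 2 / c ^ 2)) μ := by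
  refine Integrable.of_bound ?_ (Real.exp (B ^ 2 / c ^ 2)) ?_
  · exact (Real.measurable_exp.comp ((hf.norm.pow_const 2).div_const _)).aestronglyMeasurable
  · refine Filter.Eventually.of_forall (fun t => ?_)
    rw [Real.norm_eq_abs, abs_of_pos (Real.exp_pos _)]
    apply Real.exp_le_exp.mpr
    apply div_le_div_of_nonneg_right _ (sq_nonneg c)
    exact pow_le_pow_left₀ (norm_nonneg _) (hB t) 2

theorem psi2_spec {f : G → ℂ} (hf : Measurable f) {B : ℝ} (hB : ∀ t, ‖f t‖ ≤ B) {c : ℝ}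
    (hc : psi2 μ f < c) : ∫ t, Real.exp (‖f t‖ ^ 2 / c ^ 2) ∂μ ≤ Real.exp 1 := by
  set S := {c : ℝ | 0 < c ∧ ∫ t, Real.exp (‖f t‖ ^ 2 / c ^ 2) ∂μ ≤ Real.exp 1} with hS
  have hne : S.Nonempty := by
    refine ⟨max B 1, lt_max_of_lt_right one_pos, ?_⟩
    have h1 : ∀ t, Real.exp (‖f t‖ ^ 2 / (max B 1) ^ 2) ≤ Real.exp 1 := by
      intro t
      apply Real.exp_le_exp.mpr
      rw [div_le_one (by positivity)]
      exact pow_le_pow_left₀ (norm_nonneg _) ((hB t).trans (le_max_left _ _)) 2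
    calc ∫ t, Real.exp (‖f t‖ ^ 2 / (max B 1) ^ 2) ∂μ ≤ ∫ _t, Real.exp 1 ∂μ :=
          integral_mono (integrable_exp_bdd hf hB _) (integrable_const _) h1
      _ = Real.exp 1 := by simp
  obtain ⟨c', ⟨hc'0, hc'⟩, hlt⟩ := exists_lt_of_csInf_lt hne hc
  refine le_trans ?_ hc'
  apply integral_mono (integrable_exp_bdd hf hB _) (integrable_exp_bdd hf hB _)
  intro t
  apply Real.exp_le_exp.mpr
  apply div_le_div_of_nonneg_left (by positivity) (by positivity)
  exact pow_le_pow_left₀ hc'0.le hlt.le 2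

theorem psi2_le {f : G → ℂ} {c : ℝ} (hc : 0 < c)
    (h : ∫ t, Real.exp (‖f t‖ ^ 2 / c ^ 2) ∂μ ≤ Real.exp 1) : psi2 μ f ≤ c := by
  apply csInf_le
  · exact ⟨0, fun x hx => hx.1.le⟩
  · exact ⟨hc, h⟩

theorem meas_sum (hχ : CharSys μ χ) (A : Finset Γ) (a : Γ → ℂ) :
    Measurable (fun t => ∑ n ∈ A, a n * χ n t) :=
  Finset.measurable_sum _ (fun n _ => (hχ.meas n).const_mul _)

theorem norm_sum_le' (hχ : CharSys μ χ) (A : Finset Γ) (a : Γ → ℂ) (t : G) :
    ‖∑ n ∈ A, a n * χ n t‖ ≤ ∑ n ∈ A, ‖a n‖ := by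
  refine (norm_sum_le _ _).trans (le_of_eq ?_)
  apply Finset.sum_congr rfl
  intro n _
  rw [norm_mul, hχ.norm, mul_one]

theorem integrable_chi (hχ : CharSys μ χ) (n : Γ) : Integrable (χ n) μ := by
  refine Integrable.of_bound (hχ.meas n).aestronglyMeasurable 1 ?_
  exact Filter.Eventually.of_forall (fun t => (hχ.norm n t).le)

theorem chi_neg (hχ : CharSys μ χ) (n : Γ) (t : G) : χ (-n) t = (starRingEnd ℂ) (χ n t) := by
  have h1 : χ (-n) t * χ n t = 1 := by
    rw [← hχ.add, neg_add_cancel, hχ.zero]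
  have h2 : (starRingEnd ℂ) (χ n t) * χ n t = 1 := by
    rw [mul_comm, Complex.mul_conj, Complex.normSq_eq_norm_sq, hχ.norm]
    simp
  have h3 : χ n t ≠ 0 := by
    intro h
    have := hχ.norm n t
    rw [h, norm_zero] at this
    exact zero_ne_one this
  exact mul_right_cancel₀ h3 (h1.trans h2.symm)

theorem small_of_psi2 [DecidableEq Γ] (hχ : CharSys μ χ)
    (Λ : Set Γ) (hfin : ∀ D : Finset Γ, (D : Set Γ) ⊆ Λ → Finite (AddSubgroup.closure (D : Set Γ)))
    (h0 : (0 : Γ) ∉ Λ) (C : ℝ)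
    (hΛ : ∀ (A : Finset Γ) (a : Γ → ℂ), (A : Set Γ) ⊆ Λ →
      psi2 μ (fun t => ∑ n ∈ A, a n * χ n t) ≤ C * Real.sqrt (∑ n ∈ A, ‖a n‖ ^ 2)) :
    ∃ K : ℕ, Small K Λ := by
  set C' := max C 0 + 1 with hC'
  have hC'0 : 0 < C' := by positivity
  have hCC' : C < C' := by
    have := le_max_left C 0
    linarith
  refine ⟨⌈2 * C' ^ 2⌉₊, ?_⟩
  intro A hA
  by_cases hAe : A.Nonempty
  swap
  · rw [Finset.not_nonempty_iff_eq_empty] at hAe
    subst hAe
    simp only [Finset.card_empty, pow_zero]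
    apply Nat.one_le_pow
    have := hfin ∅ (by simp)
    exact Nat.card_pos
  have hAcard : 0 < A.card := Finset.card_pos.mpr hAe
  set M := AddSubgroup.closure (A : Set Γ) with hM
  have hMfin : Finite M := hfin A hA
  let _ := Fintype.ofFinite M
  set N := Nat.card M with hN
  have hN2 : 2 ≤ N := by
    obtain ⟨x, hx⟩ := hAe
    have hx0 : x ≠ 0 := by
      rintro rfl
      exact h0 (hA hx)
    have : Nontrivial M := ⟨⟨⟨x, AddSubgroup.subset_closure hx⟩, 0, fun h => hx0 (by
      have := congrArg Subtype.val h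
      simpa using this)⟩⟩
    exact Finite.one_lt_card
  -- the ψ₂ bound
  set c := C' * Real.sqrt A.card with hc
  have hc0 : 0 < c := by positivity
  have hbound := hΛ A (fun _ => 1) hA
  have hlt : psi2 μ (fun t => ∑ n ∈ A, (1 : ℂ) * χ n t) < c := by
    refine lt_of_le_of_lt hbound ?_
    simp only [norm_one, one_pow, Finset.sum_const, nsmul_eq_mul, mul_one]
    rw [hc]
    apply mul_lt_mul_of_pos_right hCC'
    positivity
  have hint := psi2_spec (meas_sum hχ A (fun _ => 1)) (fun t => norm_sum_le' hχ A (fun _ => 1) t) hlt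
  -- lower bound
  have hlow : Real.exp ((A.card : ℝ) / C' ^ 2) / N ≤
      ∫ t, Real.exp (‖∑ n ∈ A, (1 : ℂ) * χ n t‖ ^ 2 / c ^ 2) ∂μ := by
    have hI : ∫ t, (∑ m : M, χ (m : Γ) t) ∂μ = 1 := by
      rw [integral_finsetSum (Finset.univ : Finset M) (f := fun (m : M) t => χ (m : Γ) t)
        (fun m _ => integrable_chi hχ (m : Γ))]
      rw [Finset.sum_eq_single (0 : M)]
      · simp [hχ.zero]
      · intro m _ hm
        apply hχ.orth
        intro h
        exact hm (Subtype.ext h)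
      · intro h
        exact absurd (Finset.mem_univ _) h
    have hIint : Integrable (fun t => ∑ m : M, χ (m : Γ) t) μ :=
      integrable_finsetSum (Finset.univ : Finset M) (f := fun (m : M) t => χ (m : Γ) t)
        (fun m _ => integrable_chi hχ (m : Γ))
    have hIr : ∫ t, (∑ m : M, χ (m : Γ) t).re ∂μ = 1 := by
      have h1 := integral_re (𝕜 := ℂ) (f := fun t => ∑ m : M, χ (m : Γ) t) (μ := μ)
        hIint
      simp only [RCLike.re_eq_complex_re] at h1
      rw [h1, hI]
      rfl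
    have hpt : ∀ t, Real.exp ((A.card : ℝ) / C' ^ 2) / N * (∑ m : M, χ (m : Γ) t).re ≤
        Real.exp (‖∑ n ∈ A, (1 : ℂ) * χ n t‖ ^ 2 / c ^ 2) := by
      intro t
      let ψ : AddChar M ℂ :=
        { toFun := fun m => χ (m : Γ) t
          map_zero_eq_one' := by simp [hχ.zero]
          map_add_eq_mul' := fun a b => by
            simp only [AddSubgroup.coe_add]
            exact hχ.add _ _ _ }
      have hsum : ∑ m : M, χ (m : Γ) t = ∑ m : M, ψ m := rfl
      rw [hsum]
      classical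
      rw [AddChar.sum_eq_ite ψ]
      by_cases h : ψ = 0
      · rw [if_pos h]
        have h1 : ∀ n ∈ A, χ n t = 1 := by
          intro n hn
          have : ψ ⟨n, AddSubgroup.subset_closure hn⟩ = 1 := by rw [h]; rfl
          exact this
        have h2 : ∑ n ∈ A, (1 : ℂ) * χ n t = (A.card : ℂ) := by
          rw [Finset.sum_congr rfl (fun n hn => by rw [h1 n hn, mul_one])]
          simp
        rw [h2]
        have h3 : ‖(A.card : ℂ)‖ ^ 2 / c ^ 2 = (A.card : ℝ) / C' ^ 2 := by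
          rw [Complex.norm_natCast, hc, mul_pow, Real.sq_sqrt (by positivity)]
          have : (A.card : ℝ) ≠ 0 := by positivity
          field_simp
        rw [h3]
        have h4 : ((Fintype.card M : ℂ)).re = (N : ℝ) := by
          rw [hN, Nat.card_eq_fintype_card]
          simp
        rw [h4, div_mul_cancel₀]
        have : (0 : ℝ) < N := by exact_mod_cast (by omega : 0 < N)
        exact this.ne'
      · rw [if_neg h]
        simp only [Complex.zero_re, mul_zero]
        exact (Real.exp_pos _).le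
    have h2 := integral_mono (μ := μ)
      (f := fun t => Real.exp ((A.card : ℝ) / C' ^ 2) / N * (∑ m : M, χ (m : Γ) t).re)
      (hIint.re.const_mul _)
      (integrable_exp_bdd (meas_sum hχ A (fun _ => 1)) (fun t => norm_sum_le' hχ A (fun _ => 1) t) c) hpt
    rw [integral_const_mul, hIr, mul_one] at h2
    exact h2
  have hNpos : (0 : ℝ) < N := by exact_mod_cast (by omega : 0 < N)
  have h1 : Real.exp ((A.card : ℝ) / C' ^ 2) ≤ Real.exp 1 * N := by
    have := hlow.trans hint
    rwa [div_le_iff₀ hNpos] at this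
  have h2 : (A.card : ℝ) / C' ^ 2 ≤ 1 + Real.log N := by
    have := Real.log_le_log (Real.exp_pos _) h1
    rwa [Real.log_exp, Real.log_mul (Real.exp_pos _).ne' hNpos.ne', Real.log_exp] at this
  have h3 : (A.card : ℝ) ≤ C' ^ 2 * (1 + Real.log N) := by
    rwa [div_le_iff₀' (by positivity)] at h2
  have hlog2 : 0 < Real.log 2 := Real.log_pos (by norm_num)
  have hlog2' : Real.log 2 ≤ 1 := by
    have := Real.log_two_lt_d9
    linarith
  have h4 : Real.log 2 ≤ Real.log N := Real.log_le_log (by norm_num) (by exact_mod_cast hN2)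
  have h5 : (A.card : ℝ) * Real.log 2 ≤ (⌈2 * C' ^ 2⌉₊ : ℝ) * Real.log N := by
    calc (A.card : ℝ) * Real.log 2 ≤ C' ^ 2 * (1 + Real.log N) * Real.log 2 :=
          mul_le_mul_of_nonneg_right h3 hlog2.le
      _ = C' ^ 2 * Real.log 2 + C' ^ 2 * Real.log N * Real.log 2 := by ring
      _ ≤ C' ^ 2 * Real.log N + C' ^ 2 * Real.log N * 1 := by
          apply add_le_add
          · exact mul_le_mul_of_nonneg_left h4 (by positivity)
          · exact mul_le_mul_of_nonneg_left hlog2' (by positivity)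
      _ = 2 * C' ^ 2 * Real.log N := by ring
      _ ≤ _ := mul_le_mul_of_nonneg_right (Nat.le_ceil _) (by linarith)
  have h6 : Real.log ((2 : ℝ) ^ A.card) ≤ Real.log ((N : ℝ) ^ ⌈2 * C' ^ 2⌉₊) := by
    rw [Real.log_pow, Real.log_pow]
    exact h5
  have h7 := (Real.log_le_log_iff (by positivity) (by positivity)).mp h6
  exact_mod_cast h7

end

end Pool.Agent.H337R3.Sid
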