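import Pool.Agent.H337R3.Sid3

set_option autoImplicit false
set_option linter.unusedSectionVars false

namespace Pool.Agent.H337R3.Sid

open Finset MeasureTheory ProbabilityTheory

universe u

section

variable {Γ : Type u} [AddCommGroup Γ] [DecidableEq Γ] {G : Type*} [MeasurableSpace G]
  {μ : Measure G} [IsProbabilityMeasure μ] {χ : Γ → G → ℂ}

/-- the Riesz product -/
noncomputable def riesz (χ : Γ → G → ℂ) (A : Finset Γ) (u : Γ → ℂ) (t : G) : ℂ :=
  ∏ n ∈ A, (1 + (u n * χ n t + (starRingEnd ℂ) (u n) * χ (-n) t) / 2)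

theorem riesz_meas (hχ : CharSys μ χ) (A : Finset Γ) (u : Γ → ℂ) : Measurable (riesz χ A u) := by
  unfold riesz
  apply Finset.measurable_prod
  intro n _
  exact measurable_const.add ((((hχ.meas n).const_mul _).add ((hχ.meas (-n)).const_mul _)).div_const _)

theorem riesz_bdd (hχ : CharSys μ χ) (A : Finset Γ) (u : Γ → ℂ) (t : G) :
    ‖riesz χ A u t‖ ≤ ∏ n ∈ A, (1 + ‖u n‖) := by
  unfold riesz
  rw [norm_prod]
  apply Finset.prod_le_prod
  · intro n _; exact norm_nonneg _
  · intro n _
    refine (norm_add_le _ _).trans ?_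
    rw [norm_one]
    apply add_le_add le_rfl
    rw [norm_div]
    have h2 : ‖(2 : ℂ)‖ = 2 := by simp
    rw [h2, div_le_iff₀ (by norm_num)]
    refine (norm_add_le _ _).trans ?_
    rw [norm_mul, norm_mul, hχ.norm, hχ.norm, RCLike.norm_conj]
    linarith

theorem riesz_int (hχ : CharSys μ χ) (A : Finset Γ) (u : Γ → ℂ) (m : Γ) :
    Integrable (fun t => χ m t * riesz χ A u t) μ := by
  refine Integrable.of_bound ((hχ.meas m).mul (riesz_meas hχ A u)).aestronglyMeasurable
    (∏ n ∈ A, (1 + ‖u n‖)) ?_
  refine Filter.Eventually.of_forall (fun t => ?_)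
  rw [norm_mul, hχ.norm, one_mul]
  exact riesz_bdd hχ A u t

theorem riesz_insert (hχ : CharSys μ χ) (A : Finset Γ) (u : Γ → ℂ) (x : Γ) (hx : x ∉ A) (m : Γ) :
    ∫ t, χ m t * riesz χ (insert x A) u t ∂μ = ∫ t, χ m t * riesz χ A u t ∂μ +
      u x / 2 * ∫ t, χ (m + x) t * riesz χ A u t ∂μ +
      (starRingEnd ℂ) (u x) / 2 * ∫ t, χ (m + -x) t * riesz χ A u t ∂μ := by
  rw [← integral_const_mul, ← integral_const_mul, ← integral_add, ← integral_add]
  · congr 1
    ext t
    unfold riesz
    rw [Finset.prod_insert hx, hχ.add, hχ.add]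
    ring
  · exact (riesz_int hχ A u m).add ((riesz_int hχ A u _).const_mul _)
  · exact (riesz_int hχ A u _).const_mul _
  · exact riesz_int hχ A u m
  · exact (riesz_int hχ A u _).const_mul _

theorem riesz_zero (hχ : CharSys μ χ) (A : Finset Γ) (u : Γ → ℂ) : ∀ m : Γ,
    (∀ ξ : Γ → ℤ, (∀ x, ξ x = -1 ∨ ξ x = 0 ∨ ξ x = 1) → m + ∑ n ∈ A, ξ n • n ≠ 0) →
    ∫ t, χ m t * riesz χ A u t ∂μ = 0 := by
  induction A using Finset.induction_on with
  | empty =>
    intro m hm
    have h0 : m ≠ 0 := by
      have := hm (fun _ => 0) (fun _ => Or.inr (Or.inl rfl))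
      simpa using this
    have : ∀ t, χ m t * riesz χ ∅ u t = χ m t := by
      intro t; simp [riesz]
    simp_rw [this]
    exact hχ.orth m h0
  | insert x A hx ih =>
    intro m hm
    have key : ∀ e : ℤ, (e = -1 ∨ e = 0 ∨ e = 1) → ∫ t, χ (m + e • x) t * riesz χ A u t ∂μ = 0 := by
      intro e he
      apply ih
      intro ξ hξ
      have h1 := hm (Function.update ξ x e) (by
        intro y
        by_cases hy : y = x
        · subst hy; rw [Function.update_self]; exact he
        · rw [Function.update_of_ne hy]; exact hξ y)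
      rw [Finset.sum_insert hx, Function.update_self] at h1
      have h2 : ∑ n ∈ A, Function.update ξ x e n • n = ∑ n ∈ A, ξ n • n := by
        apply Finset.sum_congr rfl
        intro n hn
        have hne : n ≠ x := by rintro rfl; exact hx hn
        rw [Function.update_of_ne hne]
      rw [h2] at h1
      rw [add_assoc]
      exact h1
    have k0 := key 0 (by simp)
    have k1 := key 1 (by simp)
    have k2 := key (-1) (by simp)
    rw [zero_smul, add_zero] at k0
    rw [one_smul] at k1
    rw [neg_smul, one_smul] at k2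
    rw [riesz_insert hχ A u x hx m, k0, k1, k2]
    simp

/-- The integral of a Riesz product over a quasi-independent set is one. -/
theorem riesz_one (hχ : CharSys μ χ) (Λ : Set Γ) (hΛ : QI Λ) (A : Finset Γ) (u : Γ → ℂ) :
    (A : Set Γ) ⊆ Λ → ∫ t, riesz χ A u t ∂μ = 1 := by
  induction A using Finset.induction_on with
  | empty => intro _; simp [riesz]
  | insert x A hx ih =>
    intro hA
    have hA' : (A : Set Γ) ⊆ Λ := fun y hy => hA (by
      rw [Finset.coe_insert]; exact Or.inr hy)
    have key : ∀ e : ℤ, (e = -1 ∨ e = 1) → ∫ t, χ (0 + e • x) t * riesz χ A u t ∂μ = 0 := by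
      intro e he
      apply riesz_zero hχ
      intro ξ hξ h
      have h1 := hΛ (insert x A) hA (Function.update ξ x e) (by
        intro y _
        by_cases hy : y = x
        · subst hy; rw [Function.update_self]
          rcases he with h | h
          · exact Or.inl h
          · exact Or.inr (Or.inr h)
        · rw [Function.update_of_ne hy]; exact hξ y) (by
        rw [Finset.sum_insert hx, Function.update_self]
        have h2 : ∑ n ∈ A, Function.update ξ x e n • n = ∑ n ∈ A, ξ n • n := by
          apply Finset.sum_congr rfl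
          intro n hn
          have hne : n ≠ x := by rintro rfl; exact hx hn
          rw [Function.update_of_ne hne]
        rw [h2, ← h]
        abel) x (Finset.mem_insert_self x A)
      rw [Function.update_self] at h1
      rcases he with h | h <;> omega
    have h0 : ∀ B : Finset Γ, (fun t => χ 0 t * riesz χ B u t) = riesz χ B u := by
      intro B; ext t; rw [hχ.zero, one_mul]
    rw [← h0 (insert x A)]
    rw [riesz_insert hχ A u x hx 0]
    have k1 := key 1 (by simp)
    have k2 := key (-1) (by simp)
    rw [one_smul] at k1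
    rw [neg_smul, one_smul] at k2
    rw [k1, k2]
    rw [h0 A, ih hA']
    simp

end

end Pool.Agent.H337R3.Sid
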