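import Pool.Agent.H337R3.Sid4

set_option autoImplicit false
set_option linter.unusedSectionVars false

namespace Pool.Agent.H337R3.Sid

open Finset MeasureTheory ProbabilityTheory

universe u

section

variable {Γ : Type u} [AddCommGroup Γ] [DecidableEq Γ] {G : Type*} [MeasurableSpace G]
  {μ : Measure G} [IsProbabilityMeasure μ] {χ : Γ → G → ℂ}

theorem riesz_real (hχ : CharSys μ χ) (A : Finset Γ) (u : Γ → ℂ) (t : G) :
    riesz χ A u t = ((∏ n ∈ A, (1 + (u n * χ n t).re) : ℝ) : ℂ) := by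
  unfold riesz
  rw [Complex.ofReal_prod]
  apply Finset.prod_congr rfl
  intro n _
  rw [chi_neg hχ, ← map_mul, Complex.add_conj]
  push_cast
  ring

theorem factor (z w : ℂ) (hw : ‖w‖ = 1) : Real.exp ((z * w).re) ≤
    Real.cosh ‖z‖ * (1 + (((Real.tanh ‖z‖ / ‖z‖ : ℝ) : ℂ) * z * w).re) := by
  by_cases hz : ‖z‖ = 0
  · have : z = 0 := norm_eq_zero.mp hz
    subst this
    simp
  · have hpos : 0 < ‖z‖ := lt_of_le_of_ne (norm_nonneg _) (Ne.symm hz)
    have hx : |(z * w).re / ‖z‖| ≤ 1 := by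
      rw [abs_div, abs_of_pos hpos, div_le_one hpos]
      refine (Complex.abs_re_le_norm _).trans ?_
      rw [norm_mul, hw, mul_one]
    have h1 := Real.exp_mul_le_cosh_add_mul_sinh hx ‖z‖
    rw [div_mul_cancel₀ _ hz] at h1
    refine h1.trans (le_of_eq ?_)
    have h2 : (((Real.tanh ‖z‖ / ‖z‖ : ℝ) : ℂ) * z * w).re = Real.tanh ‖z‖ / ‖z‖ * (z * w).re := by
      rw [mul_assoc, Complex.re_ofReal_mul]
    rw [h2, Real.tanh_eq_sinh_div_cosh]
    have h3 : Real.cosh ‖z‖ ≠ 0 := (Real.cosh_pos _).ne'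
    field_simp

theorem exp_moment (hχ : CharSys μ χ) (Λ : Set Γ) (hΛ : QI Λ) (A : Finset Γ) (hA : (A : Set Γ) ⊆ Λ)
    (a : Γ → ℂ) :
    ∫ t, Real.exp ((∑ n ∈ A, a n * χ n t).re) ∂μ ≤ Real.exp ((∑ n ∈ A, ‖a n‖ ^ 2) / 2) := by
  set u : Γ → ℂ := fun n => ((Real.tanh ‖a n‖ / ‖a n‖ : ℝ) : ℂ) * a n with hu
  have hpt : ∀ t, Real.exp ((∑ n ∈ A, a n * χ n t).re) ≤
      (∏ n ∈ A, Real.cosh ‖a n‖) * ∏ n ∈ A, (1 + (u n * χ n t).re) := by
    intro t
    rw [Complex.re_sum, Real.exp_sum, ← Finset.prod_mul_distrib]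
    apply Finset.prod_le_prod
    · intro n _; exact (Real.exp_pos _).le
    · intro n _
      exact factor (a n) (χ n t) (hχ.norm n t)
  have hint : Integrable (fun t => ∏ n ∈ A, (1 + (u n * χ n t).re)) μ := by
    have h1 : Integrable (riesz χ A u) μ := by
      have := riesz_int hχ A u 0
      have h2 : (fun t => χ 0 t * riesz χ A u t) = riesz χ A u := by
        ext t; rw [hχ.zero, one_mul]
      rwa [h2] at this
    have h2 := h1.re
    refine h2.congr (Filter.Eventually.of_forall (fun t => ?_))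
    show RCLike.re (riesz χ A u t) = _
    rw [riesz_real hχ]
    simp only [RCLike.re_eq_complex_re, Complex.ofReal_re]
  have h1 : ∫ t, (∏ n ∈ A, (1 + (u n * χ n t).re) : ℝ) ∂μ = 1 := by
    have h2 := riesz_one hχ Λ hΛ A u hA
    have h3 : (fun t => riesz χ A u t) = fun t => ((∏ n ∈ A, (1 + (u n * χ n t).re) : ℝ) : ℂ) :=
      funext (riesz_real hχ A u)
    rw [h3] at h2
    have h4 := integral_ofReal (𝕜 := ℂ) (μ := μ) (f := fun t => ∏ n ∈ A, (1 + (u n * χ n t).re))
    have h5 : ((∫ t, (∏ n ∈ A, (1 + (u n * χ n t).re) : ℝ) ∂μ : ℝ) : ℂ) = 1 := h4.symm.trans h2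
    exact_mod_cast h5
  calc ∫ t, Real.exp ((∑ n ∈ A, a n * χ n t).re) ∂μ
      ≤ ∫ t, (∏ n ∈ A, Real.cosh ‖a n‖) * ∏ n ∈ A, (1 + (u n * χ n t).re) ∂μ := by
        apply integral_mono_of_nonneg
        · exact Filter.Eventually.of_forall (fun t => (Real.exp_pos _).le)
        · exact hint.const_mul _
        · exact Filter.Eventually.of_forall hpt
    _ = ∏ n ∈ A, Real.cosh ‖a n‖ := by rw [integral_const_mul, h1, mul_one]
    _ ≤ ∏ n ∈ A, Real.exp (‖a n‖ ^ 2 / 2) := by
        apply Finset.prod_le_prod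
        · intro n _; exact (Real.cosh_pos _).le
        · intro n _; exact Real.cosh_le_exp_half_sq _
    _ = Real.exp ((∑ n ∈ A, ‖a n‖ ^ 2) / 2) := by
        rw [← Real.exp_sum, Finset.sum_div]

/-- The Gaussian trick. -/
theorem gauss_trick (X : G → ℝ) (hX : Measurable X) (B : ℝ) (hB : ∀ t, |X t| ≤ B) (σ2 : ℝ)
    (hσ : 0 < σ2) (h : ∀ l : ℝ, ∫ t, Real.exp (l * X t) ∂μ ≤ Real.exp (l ^ 2 * σ2 / 2)) :
    ∫ t, Real.exp (X t ^ 2 / (4 * σ2)) ∂μ ≤ Real.sqrt 2 := by
  set s : ℝ := Real.sqrt (1 / (2 * σ2)) with hs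
  have hs2 : s ^ 2 = 1 / (2 * σ2) := Real.sq_sqrt (by positivity)
  have hint : ∀ l : ℝ, Integrable (fun t => Real.exp (l * X t)) μ := by
    intro l
    refine Integrable.of_bound (Real.measurable_exp.comp (hX.const_mul l)).aestronglyMeasurable
      (Real.exp (|l| * B)) ?_
    refine Filter.Eventually.of_forall (fun t => ?_)
    rw [Real.norm_eq_abs, abs_of_pos (Real.exp_pos _)]
    apply Real.exp_le_exp.mpr
    refine (le_abs_self _).trans ?_
    rw [abs_mul]
    exact mul_le_mul_of_nonneg_left (hB t) (abs_nonneg _)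
  have h1 : ∀ x : ℝ, ENNReal.ofReal (Real.exp (x ^ 2 / (4 * σ2))) =
      ∫⁻ g, ENNReal.ofReal (Real.exp (s * x * g)) ∂(gaussianReal 0 1) := by
    intro x
    rw [← ofReal_integral_eq_lintegral_ofReal (integrable_exp_mul_gaussianReal (s * x))
      (Filter.Eventually.of_forall (fun g => (Real.exp_pos _).le))]
    have h2 := congrFun (mgf_fun_id_gaussianReal (μ := 0) (v := 1)) (s * x)
    unfold mgf at h2
    rw [h2]
    congr 2
    simp only [zero_mul, NNReal.coe_one, one_mul, zero_add]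
    rw [mul_pow, hs2]
    field_simp
    ring
  have h2 : ∫⁻ t, ENNReal.ofReal (Real.exp (X t ^ 2 / (4 * σ2))) ∂μ ≤ ENNReal.ofReal (Real.sqrt 2) := by
    calc ∫⁻ t, ENNReal.ofReal (Real.exp (X t ^ 2 / (4 * σ2))) ∂μ
        = ∫⁻ t, ∫⁻ g, ENNReal.ofReal (Real.exp (s * X t * g)) ∂(gaussianReal 0 1) ∂μ := by
          apply lintegral_congr
          intro t
          exact h1 (X t)
      _ = ∫⁻ g, ∫⁻ t, ENNReal.ofReal (Real.exp (s * X t * g)) ∂μ ∂(gaussianReal 0 1) := by
          apply lintegral_lintegral_swap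
          apply Measurable.aemeasurable
          apply ENNReal.measurable_ofReal.comp
          apply Real.measurable_exp.comp
          exact ((measurable_const.mul (hX.comp measurable_fst)).mul measurable_snd)
      _ ≤ ∫⁻ g, ENNReal.ofReal (Real.exp (g ^ 2 / 4)) ∂(gaussianReal 0 1) := by
          apply lintegral_mono
          intro g
          show ∫⁻ t, ENNReal.ofReal (Real.exp (s * X t * g)) ∂μ ≤ ENNReal.ofReal (Real.exp (g ^ 2 / 4))
          have h3 : ∀ t, s * X t * g = (s * g) * X t := fun t => by ring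
          simp_rw [h3]
          rw [← ofReal_integral_eq_lintegral_ofReal (hint (s * g))
            (Filter.Eventually.of_forall (fun t => (Real.exp_pos _).le))]
          apply ENNReal.ofReal_le_ofReal
          refine (h (s * g)).trans (le_of_eq ?_)
          congr 1
          rw [mul_pow, hs2]
          field_simp
          ring
      _ = ENNReal.ofReal (Real.sqrt 2) := by
          rw [gaussianReal_of_var_ne_zero _ one_ne_zero]
          have hm : Measurable (fun g : ℝ => ENNReal.ofReal (Real.exp (g ^ 2 / 4))) := by fun_prop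
          rw [lintegral_withDensity_eq_lintegral_mul _ (measurable_gaussianPDF 0 1) hm]
          have h4 : ∀ g : ℝ, (gaussianPDF 0 1 * fun g => ENNReal.ofReal (Real.exp (g ^ 2 / 4))) g =
              ENNReal.ofReal ((Real.sqrt (2 * Real.pi))⁻¹ * Real.exp (-(1 / 4) * g ^ 2)) := by
            intro g
            simp only [Pi.mul_apply, gaussianPDF, gaussianPDFReal]
            rw [← ENNReal.ofReal_mul (by positivity)]
            congr 1
            simp only [NNReal.coe_one, mul_one, sub_zero]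
            rw [mul_assoc, ← Real.exp_add]
            congr 2
            ring
          simp_rw [h4]
          rw [← ofReal_integral_eq_lintegral_ofReal
            ((integrable_exp_neg_mul_sq (by norm_num : (0 : ℝ) < 1 / 4)).const_mul _)
            (Filter.Eventually.of_forall (fun g => by positivity))]
          congr 1
          rw [integral_const_mul, integral_gaussian]
          have h5 : Real.sqrt (Real.pi / (1 / 4)) = Real.sqrt 2 * Real.sqrt (2 * Real.pi) := by
            rw [← Real.sqrt_mul (by norm_num)]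
            congr 1
            ring
          have : Real.sqrt (2 * Real.pi) ≠ 0 := by positivity
          rw [h5, mul_comm (Real.sqrt 2) (Real.sqrt (2 * Real.pi)), ← mul_assoc,
            inv_mul_cancel₀ this, one_mul]
  rw [← ofReal_integral_eq_lintegral_ofReal] at h2
  · exact (ENNReal.ofReal_le_ofReal_iff (Real.sqrt_nonneg _)).mp h2
  · refine Integrable.of_bound (Real.measurable_exp.comp
      ((hX.pow_const 2).div_const _)).aestronglyMeasurable (Real.exp (B ^ 2 / (4 * σ2))) ?_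
    refine Filter.Eventually.of_forall (fun t => ?_)
    rw [Real.norm_eq_abs]
    show |Real.exp (X t ^ 2 / (4 * σ2))| ≤ _
    rw [abs_of_pos (Real.exp_pos _)]
    apply Real.exp_le_exp.mpr
    apply div_le_div_of_nonneg_right _ (by positivity)
    rw [← sq_abs]
    exact pow_le_pow_left₀ (abs_nonneg _) (hB t) 2
  · exact Filter.Eventually.of_forall (fun g => (Real.exp_pos _).le)

/-- the basic subgaussian estimate for a quasi-independent set -/
theorem qi_bound (hχ : CharSys μ χ) (Λ : Set Γ) (hΛ : QI Λ) (A : Finset Γ) (hA : (A : Set Γ) ⊆ Λ)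
    (a : Γ → ℂ) (σ2 : ℝ) (hσ : 0 < σ2) (hle : ∑ n ∈ A, ‖a n‖ ^ 2 ≤ σ2) :
    ∫ t, Real.exp (‖∑ n ∈ A, a n * χ n t‖ ^ 2 / (8 * σ2)) ∂μ ≤ Real.sqrt 2 := by
  have hmeas := meas_sum hχ A a
  have hbd := fun t => norm_sum_le' hχ A a t
  set B := ∑ n ∈ A, ‖a n‖ with hB
  have hRe : ∫ t, Real.exp ((∑ n ∈ A, a n * χ n t).re ^ 2 / (4 * σ2)) ∂μ ≤ Real.sqrt 2 := by
    apply gauss_trick _ (Complex.measurable_re.comp hmeas) B
      (fun t => (Complex.abs_re_le_norm _).trans (hbd t)) σ2 hσ
    intro l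
    have h1 := exp_moment hχ Λ hΛ A hA (fun n => (l : ℂ) * a n)
    have h2 : ∀ t, (∑ n ∈ A, (l : ℂ) * a n * χ n t).re = l * (∑ n ∈ A, a n * χ n t).re := by
      intro t
      rw [← Complex.re_ofReal_mul, Finset.mul_sum]
      congr 1
      apply Finset.sum_congr rfl; intro n _; ring
    simp_rw [h2] at h1
    refine h1.trans (Real.exp_le_exp.mpr ?_)
    apply div_le_div_of_nonneg_right _ (by norm_num)
    simp_rw [norm_mul, mul_pow]
    rw [← Finset.mul_sum, Complex.norm_real, Real.norm_eq_abs, sq_abs]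
    exact mul_le_mul_of_nonneg_left hle (sq_nonneg _)
  have hIm : ∫ t, Real.exp ((∑ n ∈ A, a n * χ n t).im ^ 2 / (4 * σ2)) ∂μ ≤ Real.sqrt 2 := by
    apply gauss_trick _ (Complex.measurable_im.comp hmeas) B
      (fun t => (Complex.abs_im_le_norm _).trans (hbd t)) σ2 hσ
    intro l
    have h1 := exp_moment hχ Λ hΛ A hA (fun n => (-(l : ℂ) * Complex.I) * a n)
    have h2 : ∀ t, (∑ n ∈ A, (-(l : ℂ) * Complex.I) * a n * χ n t).re =
        l * (∑ n ∈ A, a n * χ n t).im := by
      intro t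
      have h3 : ∑ n ∈ A, (-(l : ℂ) * Complex.I) * a n * χ n t =
          (-(l : ℂ) * Complex.I) * ∑ n ∈ A, a n * χ n t := by
        rw [Finset.mul_sum]
        apply Finset.sum_congr rfl; intro n _; ring
      rw [h3, Complex.mul_re]
      simp
    simp_rw [h2] at h1
    refine h1.trans (Real.exp_le_exp.mpr ?_)
    apply div_le_div_of_nonneg_right _ (by norm_num)
    simp_rw [norm_mul, mul_pow]
    rw [← Finset.mul_sum]
    have h4 : ‖-(l : ℂ)‖ ^ 2 * ‖Complex.I‖ ^ 2 = l ^ 2 := by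
      rw [norm_neg, Complex.norm_real, Real.norm_eq_abs, sq_abs]; simp
    rw [h4]
    exact mul_le_mul_of_nonneg_left hle (sq_nonneg _)
  have hpt : ∀ t, Real.exp (‖∑ n ∈ A, a n * χ n t‖ ^ 2 / (8 * σ2)) ≤
      (1 / 2) * Real.exp ((∑ n ∈ A, a n * χ n t).re ^ 2 / (4 * σ2)) +
      (1 / 2) * Real.exp ((∑ n ∈ A, a n * χ n t).im ^ 2 / (4 * σ2)) := by
    intro t
    have h1 := convexOn_exp.2 (Set.mem_univ ((∑ n ∈ A, a n * χ n t).re ^ 2 / (4 * σ2)))
      (Set.mem_univ ((∑ n ∈ A, a n * χ n t).im ^ 2 / (4 * σ2)))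
      (by norm_num : (0 : ℝ) ≤ 1 / 2) (by norm_num : (0 : ℝ) ≤ 1 / 2) (by norm_num)
    simp only [smul_eq_mul] at h1
    refine le_trans (le_of_eq ?_) h1
    congr 1
    rw [← Complex.normSq_eq_norm_sq, Complex.normSq_apply]
    field_simp
    ring
  have hi1 : Integrable (fun t => Real.exp ((∑ n ∈ A, a n * χ n t).re ^ 2 / (4 * σ2))) μ := by
    refine Integrable.of_bound (Real.measurable_exp.comp
      (((Complex.measurable_re.comp hmeas).pow_const 2).div_const _)).aestronglyMeasurable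
      (Real.exp (B ^ 2 / (4 * σ2))) ?_
    refine Filter.Eventually.of_forall (fun t => ?_)
    rw [Real.norm_eq_abs]
    show |Real.exp (_ ^ 2 / (4 * σ2))| ≤ _
    rw [abs_of_pos (Real.exp_pos _)]
    apply Real.exp_le_exp.mpr
    apply div_le_div_of_nonneg_right _ (by positivity)
    rw [← sq_abs]
    exact pow_le_pow_left₀ (abs_nonneg _) ((Complex.abs_re_le_norm _).trans (hbd t)) 2
  have hi2 : Integrable (fun t => Real.exp ((∑ n ∈ A, a n * χ n t).im ^ 2 / (4 * σ2))) μ := by
    refine Integrable.of_bound (Real.measurable_exp.comp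
      (((Complex.measurable_im.comp hmeas).pow_const 2).div_const _)).aestronglyMeasurable
      (Real.exp (B ^ 2 / (4 * σ2))) ?_
    refine Filter.Eventually.of_forall (fun t => ?_)
    rw [Real.norm_eq_abs]
    show |Real.exp (_ ^ 2 / (4 * σ2))| ≤ _
    rw [abs_of_pos (Real.exp_pos _)]
    apply Real.exp_le_exp.mpr
    apply div_le_div_of_nonneg_right _ (by positivity)
    rw [← sq_abs]
    exact pow_le_pow_left₀ (abs_nonneg _) ((Complex.abs_im_le_norm _).trans (hbd t)) 2
  calc ∫ t, Real.exp (‖∑ n ∈ A, a n * χ n t‖ ^ 2 / (8 * σ2)) ∂μ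
      ≤ ∫ t, ((1 / 2) * Real.exp ((∑ n ∈ A, a n * χ n t).re ^ 2 / (4 * σ2)) +
      (1 / 2) * Real.exp ((∑ n ∈ A, a n * χ n t).im ^ 2 / (4 * σ2))) ∂μ := by
        apply integral_mono_of_nonneg
        · exact Filter.Eventually.of_forall (fun t => (Real.exp_pos _).le)
        · exact (hi1.const_mul _).add (hi2.const_mul _)
        · exact Filter.Eventually.of_forall hpt
    _ = (1 / 2) * ∫ t, Real.exp ((∑ n ∈ A, a n * χ n t).re ^ 2 / (4 * σ2)) ∂μ +
      (1 / 2) * ∫ t, Real.exp ((∑ n ∈ A, a n * χ n t).im ^ 2 / (4 * σ2)) ∂μ := by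
        rw [integral_add (hi1.const_mul _) (hi2.const_mul _), integral_const_mul, integral_const_mul]
    _ ≤ Real.sqrt 2 := by linarith

end

end Pool.Agent.H337R3.Sid
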