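import Pool.Agent.H337R3.Sid5

set_option autoImplicit false
set_option linter.unusedSectionVars false

namespace Pool.Agent.H337R3.Sid

open Finset MeasureTheory ProbabilityTheory

universe u

section

variable {Γ : Type u} [AddCommGroup Γ] [DecidableEq Γ] {G : Type*} [MeasurableSpace G]
  {μ : Measure G} [IsProbabilityMeasure μ] {χ : Γ → G → ℂ}

theorem psi2_zero : psi2 μ (fun _ : G => (0 : ℂ)) = 0 := by
  unfold psi2
  have : {c : ℝ | 0 < c ∧ ∫ _t : G, Real.exp (‖(0 : ℂ)‖ ^ 2 / c ^ 2) ∂μ ≤ Real.exp 1} = Set.Ioi 0 := by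
    ext c
    simp only [Set.mem_ofPred_eq, Set.mem_Ioi, norm_zero]
    constructor
    · exact fun h => h.1
    · intro h
      refine ⟨h, ?_⟩
      simp
  rw [this]
  exact csInf_Ioi

theorem psi2_of_union (hχ : CharSys μ χ) (Λ : Set Γ) (k : ℕ) (Q : Fin k → Set Γ)
    (hQ : ∀ i, QI (Q i)) (hΛ : Λ = ⋃ i, Q i) (A : Finset Γ) (a : Γ → ℂ) (hA : (A : Set Γ) ⊆ Λ) :
    psi2 μ (fun t => ∑ n ∈ A, a n * χ n t) ≤
      (Real.sqrt 8 * k) * Real.sqrt (∑ n ∈ A, ‖a n‖ ^ 2) := by
  set σ2 := ∑ n ∈ A, ‖a n‖ ^ 2 with hσ2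
  have hσ0 : 0 ≤ σ2 := Finset.sum_nonneg (fun n _ => by positivity)
  rcases hσ0.eq_or_lt with hz | hpos
  · have h1 : ∀ n ∈ A, a n = 0 := by
      intro n hn
      have h2 := (Finset.sum_eq_zero_iff_of_nonneg (fun n _ => by positivity)).mp hz.symm n hn
      have h3 : ‖a n‖ = 0 := by
        rwa [sq_eq_zero_iff] at h2
      exact norm_eq_zero.mp h3
    have h2 : (fun t => ∑ n ∈ A, a n * χ n t) = fun _ => (0 : ℂ) := by
      ext t
      apply Finset.sum_eq_zero
      intro n hn
      rw [h1 n hn, zero_mul]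
    rw [h2, psi2_zero]
    positivity
  · have hAne : A.Nonempty := by
      by_contra h
      rw [Finset.not_nonempty_iff_eq_empty] at h
      rw [h] at hσ2
      simp at hσ2
      linarith
    have hmem : ∀ n ∈ A, ∃ i, n ∈ Q i := by
      intro n hn
      have := hA (Finset.mem_coe.mpr hn)
      rw [hΛ] at this
      exact Set.mem_iUnion.mp this
    have hk : 0 < k := by
      obtain ⟨n, hn⟩ := hAne
      obtain ⟨i, _⟩ := hmem n hn
      exact Fin.pos i
    have : Nonempty (Fin k) := ⟨⟨0, hk⟩⟩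
    have hidx : ∃ idx : Γ → Fin k, ∀ n ∈ A, n ∈ Q (idx n) := by
      classical
      refine ⟨fun n => if h : ∃ i, n ∈ Q i then h.choose else Classical.arbitrary _, ?_⟩
      intro n hn
      have h := hmem n hn
      simp only [h, dif_pos]
      exact h.choose_spec
    obtain ⟨idx, hidx⟩ := hidx
    set F : Fin k → G → ℂ := fun i t => ∑ n ∈ A.filter (fun n => idx n = i), a n * χ n t with hF
    have hsum : ∀ t, ∑ n ∈ A, a n * χ n t = ∑ i, F i t := by
      intro t
      exact (Finset.sum_fiberwise A idx (fun n => a n * χ n t)).symm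
    have hFb : ∀ i, ∫ t, Real.exp (‖F i t‖ ^ 2 / (8 * σ2)) ∂μ ≤ Real.sqrt 2 := by
      intro i
      apply qi_bound hχ (Q i) (hQ i) _ ?_ a σ2 hpos
      · exact Finset.sum_le_sum_of_subset_of_nonneg (Finset.filter_subset _ _)
          (fun n _ _ => by positivity)
      · intro n hn
        have := Finset.mem_filter.mp (Finset.mem_coe.mp hn)
        rw [← this.2]
        exact hidx n this.1
    have hFi : ∀ i, Integrable (fun t => Real.exp (‖F i t‖ ^ 2 / (8 * σ2))) μ := by
      intro i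
      have h1 := integrable_exp_bdd (μ := μ) (meas_sum hχ (A.filter (fun n => idx n = i)) a)
        (fun t => norm_sum_le' hχ (A.filter (fun n => idx n = i)) a t) (Real.sqrt (8 * σ2))
      rw [Real.sq_sqrt (by positivity)] at h1
      exact h1
    have hkR : (0 : ℝ) < k := by exact_mod_cast hk
    have hpt : ∀ t, Real.exp (‖∑ n ∈ A, a n * χ n t‖ ^ 2 /
        ((Real.sqrt 8 * k) * Real.sqrt σ2) ^ 2) ≤
        ∑ i : Fin k, (1 / (k : ℝ)) * Real.exp (‖F i t‖ ^ 2 / (8 * σ2)) := by
      intro t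
      have h1 : ‖∑ n ∈ A, a n * χ n t‖ ^ 2 ≤ k * ∑ i, ‖F i t‖ ^ 2 := by
        rw [hsum]
        calc ‖∑ i, F i t‖ ^ 2 ≤ (∑ i, ‖F i t‖) ^ 2 :=
              pow_le_pow_left₀ (norm_nonneg _) (norm_sum_le _ _) 2
          _ ≤ (Finset.univ : Finset (Fin k)).card * ∑ i, ‖F i t‖ ^ 2 := sq_sum_le_card_mul_sum_sq
          _ = k * ∑ i, ‖F i t‖ ^ 2 := by simp
      have h2 : ((Real.sqrt 8 * k) * Real.sqrt σ2) ^ 2 = 8 * k ^ 2 * σ2 := by
        rw [mul_pow, mul_pow, Real.sq_sqrt (by norm_num), Real.sq_sqrt hpos.le]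
      have h3 : ‖∑ n ∈ A, a n * χ n t‖ ^ 2 / ((Real.sqrt 8 * k) * Real.sqrt σ2) ^ 2 ≤
          ∑ i : Fin k, (1 / (k : ℝ)) * (‖F i t‖ ^ 2 / (8 * σ2)) := by
        rw [h2, ← Finset.mul_sum, ← Finset.sum_div, div_le_iff₀ (by positivity)]
        refine h1.trans (le_of_eq ?_)
        field_simp
      refine (Real.exp_le_exp.mpr h3).trans ?_
      have h4 := convexOn_exp.map_sum_le (t := (Finset.univ : Finset (Fin k)))
        (w := fun _ => 1 / (k : ℝ)) (p := fun i => ‖F i t‖ ^ 2 / (8 * σ2))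
        (fun i _ => by positivity) (by simp [hkR.ne']) (fun i _ => Set.mem_univ _)
      simpa only [smul_eq_mul] using h4
    have hint : ∫ t, Real.exp (‖∑ n ∈ A, a n * χ n t‖ ^ 2 /
        ((Real.sqrt 8 * k) * Real.sqrt σ2) ^ 2) ∂μ ≤ Real.sqrt 2 := by
      calc ∫ t, Real.exp (‖∑ n ∈ A, a n * χ n t‖ ^ 2 /
            ((Real.sqrt 8 * k) * Real.sqrt σ2) ^ 2) ∂μ
          ≤ ∫ t, ∑ i : Fin k, (1 / (k : ℝ)) * Real.exp (‖F i t‖ ^ 2 / (8 * σ2)) ∂μ := by
            apply integral_mono_of_nonneg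
            · exact Filter.Eventually.of_forall (fun t => (Real.exp_pos _).le)
            · exact integrable_finsetSum _ (fun i _ => (hFi i).const_mul _)
            · exact Filter.Eventually.of_forall hpt
        _ = ∑ i : Fin k, (1 / (k : ℝ)) * ∫ t, Real.exp (‖F i t‖ ^ 2 / (8 * σ2)) ∂μ := by
            rw [integral_finsetSum _ (fun i _ => (hFi i).const_mul _)]
            apply Finset.sum_congr rfl
            intro i _
            rw [integral_const_mul]
        _ ≤ ∑ _i : Fin k, (1 / (k : ℝ)) * Real.sqrt 2 := by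
            apply Finset.sum_le_sum
            intro i _
            exact mul_le_mul_of_nonneg_left (hFb i) (by positivity)
        _ = Real.sqrt 2 := by
            rw [Finset.sum_const, Finset.card_univ, Fintype.card_fin, nsmul_eq_mul]
            field_simp
    apply psi2_le
    · have := Real.sqrt_pos.mpr hpos
      positivity
    · refine hint.trans ?_
      have h1 : Real.sqrt 2 ≤ 2 := by
        rw [Real.sqrt_le_left (by norm_num)]; norm_num
      have h2 : (2 : ℝ) ≤ Real.exp 1 := by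
        have := Real.add_one_le_exp (1 : ℝ)
        linarith
      linarith

end

end Pool.Agent.H337R3.Sid
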