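import Pool.Agent.H337R3.Sid2

set_option autoImplicit false
set_option linter.unusedSectionVars false

namespace Pool.Agent.H337R3.Sid

open Finset

universe u

/-- The exponential moment over all signs. -/
theorem sign_sum {Γ : Type u} [DecidableEq Γ] (A : Finset Γ) (r : Γ → ℝ) (hr : ∀ x ∈ A, |r x| ≤ 1)
    (l : ℝ) :
    ∑ S ∈ A.powerset, Real.exp (l * ∑ x ∈ A, (if x ∈ S then 1 else -1) * r x) ≤
      2 ^ A.card * Real.exp (l ^ 2 * A.card / 2) := by
  have h1 : ∀ S ∈ A.powerset, Real.exp (l * ∑ x ∈ A, (if x ∈ S then 1 else -1) * r x) =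
      (∏ x ∈ S, Real.exp (l * r x)) * ∏ x ∈ A \ S, Real.exp (-(l * r x)) := by
    intro S hS
    rw [Finset.mem_powerset] at hS
    rw [← Real.exp_sum, ← Real.exp_sum, ← Real.exp_add]
    congr 1
    rw [Finset.mul_sum, ← Finset.sum_sdiff hS, add_comm]
    congr 1
    · apply Finset.sum_congr rfl
      intro x hx
      rw [if_pos hx, one_mul]
    · apply Finset.sum_congr rfl
      intro x hx
      rw [if_neg (Finset.mem_sdiff.mp hx).2]
      ring
  rw [Finset.sum_congr rfl h1, ← Finset.prod_add]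
  have h2 : ∀ x ∈ A, Real.exp (l * r x) + Real.exp (-(l * r x)) ≤ 2 * Real.exp (l ^ 2 / 2) := by
    intro x hx
    have h3 := Real.cosh_le_exp_half_sq (l * r x)
    rw [Real.cosh_eq] at h3
    have h4 : Real.exp ((l * r x) ^ 2 / 2) ≤ Real.exp (l ^ 2 / 2) := by
      apply Real.exp_le_exp.mpr
      apply div_le_div_of_nonneg_right _ (by norm_num)
      rw [mul_pow]
      have h5 : r x ^ 2 ≤ 1 := by
        rw [← sq_abs]
        exact pow_le_one₀ (abs_nonneg _) (hr x hx)
      nlinarith [sq_nonneg l]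
    linarith
  calc ∏ x ∈ A, (Real.exp (l * r x) + Real.exp (-(l * r x))) ≤ ∏ _x ∈ A, 2 * Real.exp (l ^ 2 / 2) := by
        apply Finset.prod_le_prod
        · intro x _; positivity
        · exact h2
    _ = 2 ^ A.card * Real.exp (l ^ 2 * A.card / 2) := by
        rw [Finset.prod_const, mul_pow, ← Real.exp_nat_mul]
        congr 2
        ring

variable {Γ : Type u} [AddCommGroup Γ] [DecidableEq Γ]

theorem small_of_sidon {X : Type*} [Nonempty X] (χ : Γ → X → ℂ) (hχ0 : ∀ x, χ 0 x = 1)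
    (hχa : ∀ m n x, χ (m + n) x = χ m x * χ n x)
    (Λ : Set Γ) (hfin : ∀ D : Finset Γ, (D : Set Γ) ⊆ Λ → Finite (AddSubgroup.closure (D : Set Γ)))
    (h0 : (0 : Γ) ∉ Λ) (C : ℝ)
    (hΛ : ∀ (A : Finset Γ) (a : Γ → ℂ), (A : Set Γ) ⊆ Λ →
      ∑ n ∈ A, ‖a n‖ ≤ C * ⨆ x, ‖∑ n ∈ A, a n * χ n x‖) :
    ∃ K : ℕ, Small K Λ := by
  set C' := max C 1 with hC'
  have hC'1 : 1 ≤ C' := le_max_right _ _
  have hC'0 : 0 < C' := by linarith
  have hCC' : C ≤ C' := le_max_left C 1
  refine ⟨⌈24 * C' ^ 2⌉₊, ?_⟩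
  intro A hA
  by_cases hAe : A.Nonempty
  swap
  · rw [Finset.not_nonempty_iff_eq_empty] at hAe
    subst hAe
    simp only [Finset.card_empty, pow_zero]
    apply Nat.one_le_pow
    have := hfin ∅ (by simp)
    exact Nat.card_pos
  have hAcard : 0 < A.card := Finset.card_pos.mpr hAe
  set M := AddSubgroup.closure (A : Set Γ) with hM
  have hMfin : Finite M := hfin A hA
  let _ := Fintype.ofFinite M
  set N := Nat.card M with hN
  have hN2 : 2 ≤ N := by
    obtain ⟨x, hx⟩ := hAe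
    have hx0 : x ≠ 0 := by
      rintro rfl
      exact h0 (hA hx)
    have : Nontrivial M := ⟨⟨⟨x, AddSubgroup.subset_closure hx⟩, 0, fun h => hx0 (by
      have := congrArg Subtype.val h
      simpa using this)⟩⟩
    exact Finite.one_lt_card
  have hmem : ∀ n ∈ A, n ∈ M := fun n hn => AddSubgroup.subset_closure hn
  -- values of characters of `M`
  classical
  let v : AddChar M ℂ → Γ → ℂ := fun ψ n => if h : n ∈ M then ψ ⟨n, h⟩ else 0
  have hv1 : ∀ ψ n, ‖v ψ n‖ ≤ 1 := by
    intro ψ n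
    by_cases h : n ∈ M
    · have : v ψ n = ψ ⟨n, h⟩ := dif_pos h
      rw [this, AddChar.norm_apply]
    · have : v ψ n = 0 := dif_neg h
      rw [this, norm_zero]; norm_num
  have hcardψ : Fintype.card (AddChar M ℂ) = N := by
    rw [AddChar.card_eq, hN, Nat.card_eq_fintype_card]
  set l : ℝ := 1 / (2 * C') with hl
  have hl0 : 0 < l := by positivity
  set E := Real.exp (l ^ 2 * A.card / 2) with hE
  -- the total
  let T : Finset Γ → ℝ := fun S => ∑ ψ : AddChar M ℂ,
    (Real.exp (l * ∑ x ∈ A, (if x ∈ S then 1 else -1) * (v ψ x).re) +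
     Real.exp (l * ∑ x ∈ A, (if x ∈ S then 1 else -1) * (-(v ψ x).re)) +
     Real.exp (l * ∑ x ∈ A, (if x ∈ S then 1 else -1) * (v ψ x).im) +
     Real.exp (l * ∑ x ∈ A, (if x ∈ S then 1 else -1) * (-(v ψ x).im)))
  have hT : ∑ S ∈ A.powerset, T S ≤ ∑ _S ∈ A.powerset, (4 * N * E) := by
    have h1 : ∑ S ∈ A.powerset, T S = ∑ ψ : AddChar M ℂ, ∑ S ∈ A.powerset,
      (Real.exp (l * ∑ x ∈ A, (if x ∈ S then 1 else -1) * (v ψ x).re) +
       Real.exp (l * ∑ x ∈ A, (if x ∈ S then 1 else -1) * (-(v ψ x).re)) +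
       Real.exp (l * ∑ x ∈ A, (if x ∈ S then 1 else -1) * (v ψ x).im) +
       Real.exp (l * ∑ x ∈ A, (if x ∈ S then 1 else -1) * (-(v ψ x).im))) := Finset.sum_comm
    rw [h1]
    calc _ ≤ ∑ _ψ : AddChar M ℂ, 4 * (2 ^ A.card * E) := by
          apply Finset.sum_le_sum
          intro ψ _
          rw [Finset.sum_add_distrib, Finset.sum_add_distrib, Finset.sum_add_distrib]
          have e1 := sign_sum A (fun x => (v ψ x).re) (fun x _ => (Complex.abs_re_le_norm _).trans (hv1 ψ x)) l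
          have e2 := sign_sum A (fun x => -(v ψ x).re) (fun x _ => by
            rw [abs_neg]; exact (Complex.abs_re_le_norm _).trans (hv1 ψ x)) l
          have e3 := sign_sum A (fun x => (v ψ x).im) (fun x _ => (Complex.abs_im_le_norm _).trans (hv1 ψ x)) l
          have e4 := sign_sum A (fun x => -(v ψ x).im) (fun x _ => by
            rw [abs_neg]; exact (Complex.abs_im_le_norm _).trans (hv1 ψ x)) l
          linarith
      _ = ∑ _S ∈ A.powerset, (4 * N * E) := by
          rw [Finset.sum_const, Finset.sum_const, Finset.card_univ, hcardψ, Finset.card_powerset]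
          simp only [nsmul_eq_mul]
          push_cast
          ring
  obtain ⟨S, hS, hTS⟩ := Finset.exists_le_of_sum_le ⟨∅, Finset.empty_mem_powerset A⟩ hT
  -- the function
  have hpos4 : 0 < 4 * (N : ℝ) * E := by
    have : (0 : ℝ) < N := by exact_mod_cast (by omega : 0 < N)
    positivity
  set b : ℝ := Real.log (4 * N * E) / l with hb
  have hbd : ∀ ψ : AddChar M ℂ, ‖∑ x ∈ A, (if x ∈ S then (1 : ℂ) else -1) * v ψ x‖ ≤ 2 * b := by
    intro ψ
    have hterm : (Real.exp (l * ∑ x ∈ A, (if x ∈ S then 1 else -1) * (v ψ x).re) +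
       Real.exp (l * ∑ x ∈ A, (if x ∈ S then 1 else -1) * (-(v ψ x).re)) +
       Real.exp (l * ∑ x ∈ A, (if x ∈ S then 1 else -1) * (v ψ x).im) +
       Real.exp (l * ∑ x ∈ A, (if x ∈ S then 1 else -1) * (-(v ψ x).im))) ≤ 4 * N * E := by
      refine le_trans ?_ hTS
      exact Finset.single_le_sum (f := fun ψ : AddChar M ℂ =>
        (Real.exp (l * ∑ x ∈ A, (if x ∈ S then 1 else -1) * (v ψ x).re) +
         Real.exp (l * ∑ x ∈ A, (if x ∈ S then 1 else -1) * (-(v ψ x).re)) +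
         Real.exp (l * ∑ x ∈ A, (if x ∈ S then 1 else -1) * (v ψ x).im) +
         Real.exp (l * ∑ x ∈ A, (if x ∈ S then 1 else -1) * (-(v ψ x).im))))
        (fun ψ _ => by positivity) (Finset.mem_univ ψ)
    have hlog : ∀ y : ℝ, Real.exp (l * y) ≤ 4 * N * E → y ≤ b := by
      intro y hy
      have h1 := Real.log_le_log (Real.exp_pos _) hy
      rw [Real.log_exp] at h1
      rw [hb, le_div_iff₀ hl0]
      linarith
    have p1 := Real.exp_pos (l * ∑ x ∈ A, (if x ∈ S then 1 else -1) * (v ψ x).re)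
    have p2 := Real.exp_pos (l * ∑ x ∈ A, (if x ∈ S then 1 else -1) * (-(v ψ x).re))
    have p3 := Real.exp_pos (l * ∑ x ∈ A, (if x ∈ S then 1 else -1) * (v ψ x).im)
    have p4 := Real.exp_pos (l * ∑ x ∈ A, (if x ∈ S then 1 else -1) * (-(v ψ x).im))
    have q1 := hlog _ (by linarith : Real.exp (l * ∑ x ∈ A, (if x ∈ S then 1 else -1) * (v ψ x).re) ≤ _)
    have q2 := hlog _ (by linarith : Real.exp (l * ∑ x ∈ A, (if x ∈ S then 1 else -1) * (-(v ψ x).re)) ≤ _)
    have q3 := hlog _ (by linarith : Real.exp (l * ∑ x ∈ A, (if x ∈ S then 1 else -1) * (v ψ x).im) ≤ _)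
    have q4 := hlog _ (by linarith : Real.exp (l * ∑ x ∈ A, (if x ∈ S then 1 else -1) * (-(v ψ x).im)) ≤ _)
    set f := ∑ x ∈ A, (if x ∈ S then (1 : ℂ) else -1) * v ψ x with hf
    have hre : f.re = ∑ x ∈ A, (if x ∈ S then 1 else -1) * (v ψ x).re := by
      rw [hf, Complex.re_sum]
      apply Finset.sum_congr rfl
      intro x _
      by_cases h : x ∈ S <;> simp [h]
    have him : f.im = ∑ x ∈ A, (if x ∈ S then 1 else -1) * (v ψ x).im := by
      rw [hf, Complex.im_sum]
      apply Finset.sum_congr rfl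
      intro x _
      by_cases h : x ∈ S <;> simp [h]
    have hre2 : -f.re = ∑ x ∈ A, (if x ∈ S then 1 else -1) * (-(v ψ x).re) := by
      rw [hre, ← Finset.sum_neg_distrib]
      apply Finset.sum_congr rfl; intro x _; ring
    have him2 : -f.im = ∑ x ∈ A, (if x ∈ S then 1 else -1) * (-(v ψ x).im) := by
      rw [him, ← Finset.sum_neg_distrib]
      apply Finset.sum_congr rfl; intro x _; ring
    rw [← hre] at q1
    rw [← hre2] at q2
    rw [← him] at q3
    rw [← him2] at q4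
    have h1 := Complex.norm_le_abs_re_add_abs_im f
    have h2 : |f.re| ≤ b := abs_le.mpr ⟨by linarith, q1⟩
    have h3 : |f.im| ≤ b := abs_le.mpr ⟨by linarith, q3⟩
    linarith
  have hsup : ⨆ x, ‖∑ n ∈ A, (if n ∈ S then (1 : ℂ) else -1) * χ n x‖ ≤ 2 * b := by
    apply ciSup_le
    intro x
    let ψ : AddChar M ℂ :=
      { toFun := fun m => χ (m : Γ) x
        map_zero_eq_one' := by simp [hχ0]
        map_add_eq_mul' := fun a b => by
          simp only [AddSubgroup.coe_add]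
          exact hχa _ _ _ }
    have h1 := hbd ψ
    have h2 : ∑ n ∈ A, (if n ∈ S then (1 : ℂ) else -1) * χ n x =
        ∑ n ∈ A, (if n ∈ S then (1 : ℂ) else -1) * v ψ n := by
      apply Finset.sum_congr rfl
      intro n hn
      have : v ψ n = ψ ⟨n, hmem n hn⟩ := dif_pos (hmem n hn)
      rw [this]
      rfl
    rw [h2]
    exact h1
  have hsid := hΛ A (fun n => if n ∈ S then 1 else -1) hA
  have hcard : ∑ n ∈ A, ‖(if n ∈ S then (1 : ℂ) else -1)‖ = A.card := by
    have : ∀ n ∈ A, ‖(if n ∈ S then (1 : ℂ) else -1)‖ = 1 := by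
      intro n _
      by_cases h : n ∈ S <;> simp [h]
    rw [Finset.sum_congr rfl this]
    simp
  rw [hcard] at hsid
  have hsup0 : 0 ≤ ⨆ x, ‖∑ n ∈ A, (if n ∈ S then (1 : ℂ) else -1) * χ n x‖ :=
    Real.iSup_nonneg (fun _ => norm_nonneg _)
  have hNpos : (0 : ℝ) < N := by exact_mod_cast (by omega : 0 < N)
  have h1 : (A.card : ℝ) ≤ C' * (2 * b) := by
    calc (A.card : ℝ) ≤ C * ⨆ x, ‖∑ n ∈ A, (if n ∈ S then (1 : ℂ) else -1) * χ n x‖ := hsid
      _ ≤ C' * ⨆ x, ‖∑ n ∈ A, (if n ∈ S then (1 : ℂ) else -1) * χ n x‖ :=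
          mul_le_mul_of_nonneg_right hCC' hsup0
      _ ≤ C' * (2 * b) := mul_le_mul_of_nonneg_left hsup hC'0.le
  have h2 : b = 2 * C' * Real.log (4 * N) + A.card / (4 * C') := by
    rw [hb, Real.log_mul (by positivity) (Real.exp_pos _).ne', Real.log_exp, hl]
    field_simp
    ring
  rw [h2] at h1
  have h3 : (A.card : ℝ) ≤ 8 * C' ^ 2 * Real.log (4 * N) := by
    have h4 : C' * (2 * (2 * C' * Real.log (4 * N) + A.card / (4 * C'))) =
      4 * C' ^ 2 * Real.log (4 * N) + A.card / 2 := by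
      field_simp
      ring
    rw [h4] at h1
    linarith
  have h4 : Real.log (4 * N) ≤ 3 * Real.log N := by
    have h5 : Real.log (4 * N) = Real.log 4 + Real.log N := Real.log_mul (by norm_num) hNpos.ne'
    have h6 : Real.log 4 = 2 * Real.log 2 := by
      rw [show (4 : ℝ) = 2 ^ 2 by norm_num, Real.log_pow]; norm_num
    have h7 : Real.log 2 ≤ Real.log N := Real.log_le_log (by norm_num) (by exact_mod_cast hN2)
    linarith
  have hlog2' : Real.log 2 ≤ 1 := by
    have := Real.log_two_lt_d9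
    linarith
  have hlogN : 0 ≤ Real.log N := Real.log_nonneg (by exact_mod_cast (by omega : 1 ≤ N))
  have h5 : (A.card : ℝ) * Real.log 2 ≤ (⌈24 * C' ^ 2⌉₊ : ℝ) * Real.log N := by
    calc (A.card : ℝ) * Real.log 2 ≤ A.card * 1 := mul_le_mul_of_nonneg_left hlog2' (by positivity)
      _ ≤ 8 * C' ^ 2 * Real.log (4 * N) := by rw [mul_one]; exact h3
      _ ≤ 8 * C' ^ 2 * (3 * Real.log N) := mul_le_mul_of_nonneg_left h4 (by positivity)
      _ = 24 * C' ^ 2 * Real.log N := by ring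
      _ ≤ _ := mul_le_mul_of_nonneg_right (Nat.le_ceil _) hlogN
  have h6 : Real.log ((2 : ℝ) ^ A.card) ≤ Real.log ((N : ℝ) ^ ⌈24 * C' ^ 2⌉₊) := by
    rw [Real.log_pow, Real.log_pow]
    exact h5
  have h7 := (Real.log_le_log_iff (by positivity) (by positivity)).mp h6
  exact_mod_cast h7

end Pool.Agent.H337R3.Sid
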